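import Pool.Agent.Work.MP_3d425c_gt.Bg.Bdy
import Pool.Agent.Work.MP_3d425c_gt.Bg.Surf3

/-! The boundary surface when centralisers are abelian and malnormal. -/

namespace Pool.Agent.Work.MP_3d425c_gt.Bq
open Set Relation Pool.Agent.Work.MP_3d425c_gt.Md Pool.Agent.Work.MP_3d425c_gt.Cy
  Pool.Agent.Work.MP_3d425c_gt.Bg

variable {G X0 X1 X2 X3 : Type} [Group G] [MulAction G X0] [MulAction G X1] [MulAction G X2]
  [MulAction G X3] {T : Tri G X0 X1 X2 X3} {E : Subgroup G} {Ω : Type} [MulAction E Ω]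

/-- two boundary edges of a common mixed triangle -/
def BR (W : Et T E Ω) (v v' : X1 × (Fin 2 → Option Ω)) : Prop :=
  v ∈ W.C1 1 1 ∧ v' ∈ W.C1 1 1 ∧ ∃ c ∈ W.C2 1 2, ∃ k l, f2 T c k = v ∧ f2 T c l = v'

theorem BR.smul {W : Et T E Ω} (g : E) {v v'} (h : BR W v v') : BR W (g • v) (g • v') :=
  let ⟨a, b, c, hc, k, l, p, q⟩ := h
  ⟨(W.C1 1 1).smul_mem g a, (W.C1 1 1).smul_mem g b, g • c, (W.C2 1 2).smul_mem g hc, k, l,
    (Et.f2_smul g c k).trans (congrArg _ p), (Et.f2_smul g c l).trans (congrArg _ q)⟩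

theorem cm_smul {W : Et T E Ω} (g : E) {v v'} (h : EqvGen (BR W) v v') :
    EqvGen (BR W) (g • v) (g • v') := by
  induction h with
  | rel _ _ h => exact EqvGen.rel _ _ (h.smul g)
  | refl => exact EqvGen.refl _
  | symm _ _ _ ih => exact ih.symm _ _
  | trans _ _ _ _ _ a b => exact a.trans _ _ _ b

theorem cm_mem {W : Et T E Ω} {v v'} (h : EqvGen (BR W) v v') :
    v ∈ W.C1 1 1 ↔ v' ∈ W.C1 1 1 :=
  Sf.const_of_eqv (P := fun v => v ∈ W.C1 1 1) (fun _ _ h => iff_of_true h.1 h.2.1) h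

/-- a boundary component that is finite modulo a cyclic group, or no positive curvature -/
theorem bdy2 (hM : Mfd T) (hG : Sf.Csa E) (W : Et T E Ω) [Finite (Ob E Ω)] :
    (∃ (a : E) (U : Set (X1 × (Fin 2 → Option Ω))), U.Nonempty ∧ (∀ c ∈ U, c ∈ W.C1 1 1) ∧
      (∀ c, a • c ∈ U ↔ c ∈ U) ∧ Sm a U ∧
      ∀ c ∈ W.C2 1 2, ∀ k l, f2 T c k ∈ U → f2 T c l ∈ W.C1 1 1 → f2 T c l ∈ U) ∨
    (oc E (W.C1 1 1) + oc E (W.C3 1 3) ≤ oc E (W.C2 1 2) ∧
      (∀ v ∈ W.C1 1 1, ∀ a : E, ∃ g : E, EqvGen (BR W) v (g • v) ∧ g ∉ Subgroup.zpowers a) ∧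
      (oc E (W.C2 1 2) ≤ oc E (W.C1 1 1) + oc E (W.C3 1 3) → ∀ v ∈ W.C1 1 1, ∀ g h : E,
        EqvGen (BR W) v (g • v) → EqvGen (BR W) v (h • v) → g * h = h * g)) := by
  obtain ⟨kk, k1, k2, k3⟩ := bd_en W
  obtain ⟨sd, m, s1, s2, s3, s4⟩ := bd_sd W
  let en : W.C2 1 2 → Bool → W.C1 1 1 := fun c i =>
    ⟨f2 T c.1 (kk c i), c.2.1 _, ((k3 c _).2 ⟨i, rfl⟩).ge, ((k3 c _).2 ⟨i, rfl⟩).le⟩
  have e1 : ∀ (g : E) c i, en (g • c) i = g • en c i := fun g c i => Subtype.ext (by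
    show f2 T (g • c.1) (kk (g • c) i) = g • f2 T c.1 (kk c i)
    rw [k1, Et.f2_smul])
  have e2 : ∀ (c : W.C2 1 2) k (v : W.C1 1 1), f2 T c.1 k = v.1 → ∃ i, kk c i = k ∧ en c i = v := by
    intro c k v e
    obtain ⟨i, rfl⟩ := (k3 c k).1 (by rw [e]; exact le_antisymm v.2.2.2 v.2.2.1)
    exact ⟨i, rfl, Subtype.ext e⟩
  have e3 : ∀ v, ∃ c i, en c i = v := by
    intro v
    obtain ⟨f, k, e⟩ := hM.pure v.1.1
    obtain ⟨c, -, e'⟩ := bd_up W v e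
    obtain ⟨i, -, e''⟩ := e2 c k v e'
    exact ⟨c, i, e''⟩
  have e5 : ∀ (c c' : W.C2 1 2) x k k', f3 T x k = c.1 → f3 T x k' = c'.1 →
      bd_sh (bd_pat x.2) k k' → ∃ i j, en c i = en c' j := by
    rintro c c' x k k' a1 a2 ⟨i, j, hij, a3, ⟨rfl, rfl⟩ | ⟨rfl, rfl⟩⟩
    · obtain ⟨t, a4⟩ := (k3 c i).1 (by rw [← a1]; exact a3)
      obtain ⟨t', -, a5⟩ := e2 c' j (en c t) (by
        show _ = f2 T c.1 (kk c t)
        rw [a4, ← a1, ← a2, f2_f3 T x i j hij])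
      exact ⟨t, t', a5.symm⟩
    · obtain ⟨t, a4⟩ := (k3 c' i).1 (by rw [← a2]; exact a3)
      obtain ⟨t', -, a5⟩ := e2 c j (en c' t) (by
        show _ = f2 T c'.1 (kk c' t)
        rw [a4, ← a1, ← a2, f2_f3 T x i j hij])
      exact ⟨t', t, a5⟩
  have := W.finC2 one_pos 2
  have key := Sf.surf2 (D := E) (V := W.C1 1 1) (E := W.C2 1 2) (F := W.C3 1 3) hG
    (fun g c h => W.free_cell g c.2.2.1 (congrArg (fun z : W.C1 1 1 => z.1.2) h))
    (fun g c h => W.free_cell g c.2.2.1 (congrArg (fun z : W.C3 1 3 => z.1.2) h))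
    en sd e1 s1 e3 ?_ ?_ ?_ ?_
  · refine key.imp (fun key => ?_) fun key => ?_
    swap
    · have t1 : ∀ c c', EqvGen (fun x y => ∃ k l, en x k = en y l) c c' →
          ∀ i j, EqvGen (BR W) (en c i).1 (en c' j).1 := fun c c' h => by
        have o : ∀ c i j, EqvGen (BR W) (en c i).1 (en c j).1 := fun c i j =>
          EqvGen.rel _ _ ⟨(en c i).2, (en c j).2, c.1, c.2, _, _, rfl, rfl⟩
        induction h with
        | rel c c' h =>
          obtain ⟨k, l, h⟩ := h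
          exact fun i j => (o c i k).trans _ _ _ (h ▸ o c' l j)
        | refl c => exact o c
        | symm _ _ _ ih => exact fun i j => (ih j i).symm _ _
        | trans _ _ _ _ _ a b => exact fun i j => (a i i).trans _ _ _ (b i j)
      have t2 : ∀ v v', EqvGen (BR W) v v' → ∀ c c' i j, (en c i).1 = v → (en c' j).1 = v' →
          EqvGen (fun x y => ∃ k l, en x k = en y l) c c' := fun v v' h => by
        induction h with
        | rel v v' h =>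
          intro c c' i j p q
          obtain ⟨-, -, d, hd, k, l, p', q'⟩ := h
          obtain ⟨i', -, a1⟩ := e2 ⟨d, hd⟩ k (en c i) (p'.trans p.symm)
          obtain ⟨j', -, a2⟩ := e2 ⟨d, hd⟩ l (en c' j) (q'.trans q.symm)
          exact (EqvGen.rel _ _ ⟨i, i', a1.symm⟩).trans _ _ _ (EqvGen.rel _ _ ⟨j', j, a2⟩)
        | refl v => exact fun c c' i j p q => EqvGen.rel _ _ ⟨i, j, Subtype.ext (p.trans q.symm)⟩
        | symm _ _ _ ih => exact fun c c' i j p q => (ih c' c j i q p).symm _ _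
        | trans u v w h _ a b =>
          intro c c' i j p q
          obtain ⟨d, k, e⟩ := e3 ⟨v, (cm_mem h).1 (p ▸ (en c i).2)⟩
          exact (a c d i k p (congrArg Subtype.val e)).trans _ _ _
            (b d c' k j (congrArg Subtype.val e) q)
      refine ⟨key.1, fun v hv a => ?_, fun h v hv g k p q => ?_⟩
      · obtain ⟨c, i, e⟩ := e3 ⟨v, hv⟩
        obtain ⟨g, p, q⟩ := key.2.1 c a
        have := t1 _ _ p i i
        rw [e1, e] at this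
        exact ⟨g, this, q⟩
      · obtain ⟨c, i, e⟩ := e3 ⟨v, hv⟩
        have f : ∀ g : E, (en (g • c) i).1 = g • v := fun g => by rw [e1, e]; rfl
        exact key.2.2 h c g k (t2 _ _ p c _ i i (congrArg Subtype.val e) (f g))
          (t2 _ _ q c _ i i (congrArg Subtype.val e) (f k))
    obtain ⟨a, U, u1, u2, u3, K, hK, u4⟩ := key
    refine ⟨a, {v | ∃ c ∈ U, ∃ i, (en c i).1 = v}, ?_, ?_, fun v => ⟨?_, ?_⟩,
      ⟨(fun p : W.C2 1 2 × Bool => (en p.1 p.2).1) '' (K ×ˢ univ),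
        (hK.prod finite_univ).image _, ?_⟩, ?_⟩
    · obtain ⟨c, hc⟩ := u1
      exact ⟨_, c, hc, true, rfl⟩
    · rintro _ ⟨c, -, i, rfl⟩
      exact (en c i).2
    · rintro ⟨c, hc, i, e⟩
      refine ⟨a⁻¹ • c, (u3 _).1 (by rwa [smul_inv_smul]), i, ?_⟩
      rw [e1]
      show a⁻¹ • (en c i).1 = v
      rw [e, inv_smul_smul]
    · rintro ⟨c, hc, i, rfl⟩
      exact ⟨a • c, (u3 c).2 hc, i, congrArg Subtype.val (e1 a c i)⟩
    · rintro _ ⟨c, hc, i, rfl⟩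
      obtain ⟨k, hk, n, rfl⟩ := u4 c hc
      exact ⟨_, ⟨(k, i), ⟨hk, trivial⟩, rfl⟩, n, congrArg Subtype.val (e1 _ k i)⟩
    · rintro c hc k l ⟨c', hc', i, e⟩ hl
      obtain ⟨j, -, a1⟩ := e2 ⟨c, hc⟩ k (en c' i) e.symm
      obtain ⟨j', -, a2⟩ := e2 ⟨c, hc⟩ l ⟨_, hl⟩ rfl
      exact ⟨⟨c, hc⟩, u2 c' hc' _ i j a1.symm, j', congrArg Subtype.val a2⟩
  · intro x
    obtain ⟨k, hk⟩ := bd_d4 (bd_pat x.1.2) x.2.2
    obtain ⟨i, e, -⟩ := s4 ⟨f3 T x.1 k, x.2.1 k, hk⟩ x.1 k x.2.1 rfl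
    exact ⟨_, i, Subtype.ext e⟩
  · intro x v
    let Φ : {p : W.C2 1 2 × Bool × Bool // sd p.1 p.2.1 = x ∧ en p.1 p.2.2 = v} →
        {q : Fin 4 × Fin 3 // f2 T (f3 T x.1 q.1) q.2 = v.1} := fun p =>
      ⟨(m p.1.1 p.1.2.1, kk p.1.1 p.1.2.2), by
        obtain ⟨⟨c, i, j⟩, rfl, rfl⟩ := p
        exact congrArg (f2 T · (kk c j)) (s3 c i)⟩
    have hΦ : Function.Bijective Φ := by
      constructor
      · rintro ⟨⟨c, i, j⟩, a1, a2⟩ ⟨⟨c', i', j'⟩, a3, a4⟩ e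
        have a5 : m c i = m c' i' := congrArg (fun z => z.1.1) e
        have a6 : kk c j = kk c' j' := congrArg (fun z => z.1.2) e
        have a7 : sd c i = sd c' i' := a1.trans a3.symm
        obtain rfl : c = c' := Subtype.ext (by rw [← s3 c i, ← s3 c' i', a5, a7])
        obtain rfl := s2 c i i' a7 a5
        obtain rfl := k2 c a6
        rfl
      · rintro ⟨⟨k, l⟩, e⟩
        have a1 : np (f3 T x.1 k).2 ∈ Icc 1 2 := bd_d2 (bd_pat (f3 T x.1 k).2) l (by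
          have a2 := le_antisymm v.2.2.2 v.2.2.1
          rw [← e] at a2
          exact a2)
        obtain ⟨i, a2, a3⟩ := s4 ⟨f3 T x.1 k, x.2.1 k, a1⟩ x.1 k x.2.1 rfl
        obtain ⟨j, a4, a5⟩ := e2 ⟨f3 T x.1 k, x.2.1 k, a1⟩ l v e
        exact ⟨⟨(_, i, j), Subtype.ext a2, a5⟩, Subtype.ext (Prod.ext a3 a4)⟩
    rw [Nat.card_eq_of_bijective Φ hΦ]
    exact bd_even x.1 v.1
  · intro c c' i j e
    have a1 : f2 T c.1 (kk c i) = f2 T c'.1 (kk c' j) := congrArg Subtype.val e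
    refine (bd_link W (en c i) ?_ (T.link (c.1.1, kk c i) (c'.1.1, kk c' j)
      (congrArg Prod.fst a1))).2 c c' rfl rfl rfl a1.symm
    intro d d' x k k' hx a2 a3
    obtain ⟨t, a4, -⟩ := s4 d x k hx a2
    obtain ⟨t', a5, -⟩ := s4 d' x k' hx a3
    exact ⟨t, t', Subtype.ext (a4.trans a5.symm)⟩
  · intro c c' i j e
    have a1 := s3 c i
    have a2 := s3 c' j
    rw [← e] at a2
    have a3 := c.2.2
    have a4 := c'.2.2
    rw [← a1] at a3
    rw [← a2] at a4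
    rcases bd_d5 (bd_pat (sd c i).1.2) _ _ a3 a4 with a5 | a5 | ⟨k, a5, a6, a7⟩
    · rw [a5] at a1
      rw [Subtype.ext (a1.symm.trans a2)]
      exact EqvGen.refl _
    · exact EqvGen.rel _ _ (e5 c c' _ _ _ a1 a2 a5)
    · exact (EqvGen.rel _ _ (e5 c ⟨_, (sd c i).2.1 k, a7⟩ _ _ _ a1 rfl a5)).trans _ _ _
        (EqvGen.rel _ _ (e5 _ c' _ _ _ rfl a2 a6))

end Pool.Agent.Work.MP_3d425c_gt.Bq
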