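import Pool.Agent.Work.MP_3d425c_gt.Bg.Surf3
import Pool.Agent.Work.MP_3d425c_gt.Bq.Sum

/-! A group with a free action that is finite modulo an abelian subgroup is abelian. -/

namespace Pool.Agent.Work.MP_3d425c_gt.Bg
open Set

theorem comm_of_smP {D A : Type} [Group D] [MulAction D A] (hD : Sf.Csa D)
    (hA : ∀ (g : D) (x : A), g • x = x → g = 1) (x : A) {P : Subgroup D}
    (hP : ∀ a ∈ P, ∀ b ∈ P, a * b = b * a) (h : SmP P (univ : Set A)) (g g' : D) :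
    g * g' = g' * g := by
  obtain ⟨K, hK, h⟩ := h
  have key : ∀ g : D, g ≠ 1 → ∃ p : ℤ, g ^ p ≠ 1 ∧ g ^ p ∈ P := fun g hg => by
    choose k hk i hi he using fun n : ℤ => h (g ^ n • x) (mem_univ _)
    obtain ⟨m, -, n, -, hmn, e⟩ := infinite_univ.exists_ne_map_eq_of_mapsTo (fun n _ => hk n) hK
    refine ⟨n - m, fun c => hD.tf g hg (isOfFinOrder_iff_zpow_eq_one.2
      ⟨_, sub_ne_zero.2 hmn.symm, c⟩), ?_⟩
    have e1 := hA ((g ^ n)⁻¹ * (i n * (i m)⁻¹) * g ^ m) x (by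
      rw [mul_smul, mul_smul, mul_smul, he m, inv_smul_smul, e, ← he n, inv_smul_smul])
    rw [mul_assoc, inv_mul_eq_one] at e1
    rw [zpow_sub, e1, mul_inv_cancel_right]
    exact P.mul_mem (hi n) (P.inv_mem (hi m))
  by_cases hg : g = 1
  · simp [hg]
  by_cases hg' : g' = 1
  · simp [hg']
  obtain ⟨p, p1, p2⟩ := key g hg
  obtain ⟨q, q1, q2⟩ := key g' hg'
  exact hD.ct _ _ _ q1 (hD.ct _ _ _ p1 (Commute.self_zpow g p).eq (hP _ q2 _ p2))
    (Commute.self_zpow g' q).eq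

theorem comm_of_sm {D A : Type} [Group D] [MulAction D A] (hD : Sf.Csa D)
    (hA : ∀ (g : D) (x : A), g • x = x → g = 1) (x : A) {a : D} (h : Sm a (univ : Set A))
    (g g' : D) : g * g' = g' * g := by
  refine comm_of_smP hD hA x ?_ (smP_zpowers.2 h) g g'
  rintro _ ⟨m, rfl⟩ _ ⟨n, rfl⟩
  exact (Commute.zpow_zpow_self a m n).eq

end Pool.Agent.Work.MP_3d425c_gt.Bg
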