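import Pool.Agent.Work.MP_3d425c_gt.Bq.Dual1

-- merged part: Pool.Agent.Work.MP_3d425c_gt.Bq.Dual2
section
/-! The Euler characteristic of the boundary, as an equality. -/

namespace Pool.Agent.Work.MP_3d425c_gt.Bg
open Set Relation Pool.Agent.Work.MP_3d425c_gt.Md Pool.Agent.Work.MP_3d425c_gt.Cy

variable {G X0 X1 X2 X3 : Type} [Group G] [MulAction G X0] [MulAction G X1] [MulAction G X2]
  [MulAction G X3] {T : Tri G X0 X1 X2 X3} {E : Subgroup G} {Ω : Type} [MulAction E Ω]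

theorem du_split {X : Type} [MulAction E X] {n : ℕ}
    (B B1 B2 : SubMulAction E (X × (Fin n → Option Ω))) [Fintype (Ob E B)]
    (hB : ∀ (g : E) (b : B), g • b = b → g = 1) (V : X × (Fin n → Option Ω) → Prop) (k : ℕ)
    (e : ∀ c, c ∈ B ↔ V c ∧ np c.2 ∈ Icc 1 (k + 1))
    (e1 : ∀ c, c ∈ B1 ↔ V c ∧ np c.2 ∈ Icc 1 k)
    (e2 : ∀ c, c ∈ B2 ↔ V c ∧ np c.2 ∈ Icc (k + 1) (k + 1)) : oc E B = oc E B1 + oc E B2 := by
  classical
  rw [eu_ind B B1 hB fun c h => (e c).2 ⟨((e1 c).1 h).1, ((e1 c).1 h).2.1,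
      ((e1 c).1 h).2.2.trans (Nat.le_succ k)⟩,
    eu_ind B B2 hB fun c h => (e c).2 ⟨((e2 c).1 h).1, le_trans (by omega) ((e2 c).1 h).2.1,
      ((e2 c).1 h).2.2⟩, ← Finset.sum_add_distrib, oc, Nat.card_eq_fintype_card,
    ← Finset.card_univ, Finset.card_eq_sum_ones]
  refine Finset.sum_congr rfl fun q _ => ?_
  obtain ⟨h1, h2, h3⟩ := (e _).1 q.out.2
  simp only [e1, e2, h1, true_and, mem_Icc]
  split_ifs <;> omega

/-- `χ(∂N) = -2 χ(N, ∂N)` and `χ(∂N) = 2 χ(N)` -/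
theorem euler_rel (hM : Mfd T) (hD : Nv.Disc T) (W : Et T E Ω) [Finite (Ob E Ω)] :
    2 * (oc E Ω + oc E (W.C2 1 3)) + oc E (W.C1 1 1) + oc E (W.C3 1 3) =
      2 * (oc E (W.C1 1 2) + oc E (W.C3 1 4)) + oc E (W.C2 1 2) ∧
    2 * (oc E Ω + oc E (W.C2 3 3)) + oc E (W.C2 1 2) =
      2 * (oc E (W.C1 2 2) + oc E (W.C3 4 4)) + oc E (W.C1 1 1) + oc E (W.C3 1 3) := by
  classical
  have i0 := Fintype.ofFinite (Ob E Ω)
  have j1 := hM.finC1 W one_pos 2
  have j2 := W.finC2 one_pos 3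
  have j3 := W.finC3 one_pos 4
  have j4 := W.finC2 two_pos 3
  have i1 := Fintype.ofFinite (Ob E (W.C1 1 2))
  have i2 := Fintype.ofFinite (Ob E (W.C2 1 3))
  have i3 := Fintype.ofFinite (Ob E (W.C3 1 4))
  have i4 := Fintype.ofFinite (Ob E (W.C2 2 3))
  have f1 := eu_free W (W.C1 1 2) fun c hc => hc.2.1
  have f2' := eu_free W (W.C2 1 3) fun c hc => hc.2.1
  have f3' := eu_free W (W.C3 1 4) fun c hc => hc.2.1
  have f4 := eu_free W (W.C2 2 3) fun c hc => two_pos.trans_le hc.2.1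
  have c1 := eu_corner W W.V1 (fun g c => W.V1_smul g) (v1 T) (W.C1 1 2)
    (fun c => ⟨fun h => ⟨h.1, h.2.1⟩, fun h => ⟨h.1, h.2, eu_np_le _⟩⟩)
    (fun c i a h ha => W.v1_pr h ha) fun x i a h => W.ext1 h
  have c2 := eu_corner W W.V2 (fun g c => W.V2_smul g) (v2 T) (W.C2 1 3)
    (fun c => ⟨fun h => ⟨h.1, h.2.1⟩, fun h => ⟨h.1, h.2, eu_np_le _⟩⟩)
    (fun c i a h ha => W.v2_pr h ha) fun x i a h => W.ext2 h
  have c3 := eu_corner W W.V3 (fun g c => W.V3_smul g) (v3 T) (W.C3 1 4)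
    (fun c => ⟨fun h => ⟨h.1, h.2.1⟩, fun h => ⟨h.1, h.2, eu_np_le _⟩⟩)
    (fun c i a h ha => W.v3_pr h ha) fun x i a h => W.ext3 h
  have s0 : ∑ q : Ob E (W.C2 1 3), np q.out.1.2 + 2 * oc E Ω =
      ∑ q : Ob E (W.C1 1 2), np q.out.1.2 + ∑ q : Ob E (W.C3 1 4), np q.out.1.2 := by
    rw [← c1, ← c2, ← c3, ← Finset.sum_add_distrib]
    refine Eq.trans ?_ (Finset.sum_congr rfl fun q _ =>
      le_antisymm (hM.sph (W.pr q.out)) (sph_le hD hM.pure _))
    rw [Finset.sum_add_distrib, Finset.sum_const, Finset.card_univ, smul_eq_mul, mul_comm,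
      ← Nat.card_eq_fintype_card]
  have p1 := du_split (W.C1 1 2) (W.C1 1 1) (W.C1 2 2) f1 W.V1 1
    (fun _ => Iff.rfl) (fun _ => Iff.rfl) fun _ => Iff.rfl
  have p2 := du_split (W.C2 1 3) (W.C2 1 2) (W.C2 3 3) f2' W.V2 2
    (fun _ => Iff.rfl) (fun _ => Iff.rfl) fun _ => Iff.rfl
  have p3 := du_split (W.C3 1 4) (W.C3 1 3) (W.C3 4 4) f3' W.V3 3
    (fun _ => Iff.rfl) (fun _ => Iff.rfl) fun _ => Iff.rfl
  have s1 : ∑ q : Ob E (W.C1 1 2), np q.out.1.2 = oc E (W.C1 1 1) + 2 * oc E (W.C1 2 2) := by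
    rw [eu_ind (W.C1 1 2) (W.C1 1 1) f1 fun c h => ⟨h.1, h.2.1, h.2.2.trans one_le_two⟩,
      eu_ind (W.C1 1 2) (W.C1 2 2) f1 fun c h => ⟨h.1, one_le_two.trans h.2.1, h.2.2⟩,
      Finset.mul_sum, ← Finset.sum_add_distrib]
    refine Finset.sum_congr rfl fun q _ => ?_
    obtain ⟨h1, h2, h3⟩ := q.out.2
    have k : ∀ m n, q.out.1 ∈ W.C1 m n ↔ m ≤ np q.out.1.2 ∧ np q.out.1.2 ≤ n := fun m n =>
      ⟨fun h => h.2, fun h => ⟨h1, h⟩⟩
    simp only [k]
    split_ifs <;> omega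
  have s2 : ∑ q : Ob E (W.C2 1 3), np q.out.1.2 =
      oc E (W.C2 1 2) + 2 * oc E (W.C2 3 3) + oc E (W.C2 2 3) := by
    rw [eu_ind (W.C2 1 3) (W.C2 1 2) f2' fun c h => ⟨h.1, h.2.1, h.2.2.trans (by norm_num)⟩,
      eu_ind (W.C2 1 3) (W.C2 3 3) f2' fun c h => ⟨h.1, le_trans (by norm_num) h.2.1, h.2.2⟩,
      eu_ind (W.C2 1 3) (W.C2 2 3) f2' fun c h => ⟨h.1, le_trans (by norm_num) h.2.1, h.2.2⟩,
      Finset.mul_sum, ← Finset.sum_add_distrib, ← Finset.sum_add_distrib]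
    refine Finset.sum_congr rfl fun q _ => ?_
    obtain ⟨h1, h2, h3⟩ := q.out.2
    have k : ∀ m n, q.out.1 ∈ W.C2 m n ↔ m ≤ np q.out.1.2 ∧ np q.out.1.2 ≤ n := fun m n =>
      ⟨fun h => h.2, fun h => ⟨h1, h⟩⟩
    simp only [k]
    split_ifs <;> omega
  have hP : ∀ (g : E) (c : X3 × (Fin 4 → Option Ω)) (k : Fin 4),
      (W.V3 c ∧ 2 ≤ np (f3 T c k).2) → (W.V3 (g • c) ∧ 2 ≤ np (f3 T (g • c) k).2) :=
    fun g c k h => ⟨W.V3_smul g h.1, (np_smul g (f3 T c k).2).symm ▸ h.2⟩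
  obtain ⟨fin, e1⟩ := eu_idx (W.C3 1 4) f3' _ hP fun c k h =>
    ⟨h.1, eu_face c.2 k (two_pos.trans_le h.2), eu_np_le _⟩
  have s3 : 2 * ∑ q : Ob E (W.C3 1 4), np q.out.1.2 =
      2 * oc E (W.C3 1 3) + 4 * oc E (W.C3 4 4) + oc E (euS E _ hP) := by
    rw [eu_ind (W.C3 1 4) (W.C3 1 3) f3' fun c h => ⟨h.1, h.2.1, h.2.2.trans (by norm_num)⟩,
      eu_ind (W.C3 1 4) (W.C3 4 4) f3' fun c h => ⟨h.1, le_trans (by norm_num) h.2.1, h.2.2⟩,
      e1, Finset.mul_sum, Finset.mul_sum, Finset.mul_sum, ← Finset.sum_add_distrib,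
      ← Finset.sum_add_distrib]
    refine Finset.sum_congr rfl fun q _ => ?_
    obtain ⟨h1, h2, h3⟩ := q.out.2
    have k : ∀ m n, q.out.1 ∈ W.C3 m n ↔ m ≤ np q.out.1.2 ∧ np q.out.1.2 ≤ n := fun m n =>
      ⟨fun h => h.2, fun h => ⟨h1, h⟩⟩
    have k1 : q.out.1 ∈ W.C3 1 3 ↔ np q.out.1.2 ≤ 3 := (k 1 3).trans ⟨fun h => h.2, fun h => ⟨h2, h⟩⟩
    have k2 : q.out.1 ∈ W.C3 4 4 ↔ 4 ≤ np q.out.1.2 := (k 4 4).trans ⟨fun h => h.1, fun h => ⟨h, h3⟩⟩
    simp only [k1, k2, h1, true_and]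
    exact eu_bool (fun i => (q.out.1.2 i).isSome) h2
  have s4 : oc E (euS E _ hP) = 2 * oc E (W.C2 2 3) := by
    let f : euS E _ hP → W.C2 2 3 := fun x =>
      ⟨f3 T x.1.c x.1.i, x.2.1 x.1.i, x.2.2, eu_np_le _⟩
    have hf : ∀ (g : E) x, f (g • x) = g • f x := fun g x =>
      Subtype.ext (Et.f3_smul g x.1.c x.1.i)
    rw [oc_fib f4 f hf (fib_finite f4 f hf), mul_comm, oc, Nat.card_eq_fintype_card,
      ← Finset.card_univ, ← smul_eq_mul, ← Finset.sum_const]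
    refine Finset.sum_congr rfl fun q _ => ?_
    obtain ⟨h1, h2, h3⟩ := q.out.2
    obtain ⟨p, p', ne, hp⟩ := W.two h1 (two_pos.trans_le h2)
    have mk : ∀ r : (X3 × (Fin 4 → Option Ω)) × Fin 4, (r = p ∨ r = p') →
        ∃ x : {x // f x = q.out}, (x.1.1.c, x.1.1.i) = r := fun r hr => by
      obtain ⟨k1, k2⟩ := (hp r).2 hr
      exact ⟨⟨⟨⟨r.1, r.2⟩, k1, k2.symm ▸ h2⟩, Subtype.ext k2⟩, rfl⟩
    obtain ⟨x, hx⟩ := mk p (.inl rfl)
    obtain ⟨y, hy⟩ := mk p' (.inr rfl)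
    have inj : ∀ z w : {x // f x = q.out}, (z.1.1.c, z.1.1.i) = (w.1.1.c, w.1.1.i) → z = w :=
      fun z w h => Subtype.ext (Subtype.ext (EuP.ext (congrArg Prod.fst h) (congrArg Prod.snd h)))
    refine Nat.card_eq_two_iff.2 ⟨x, y, fun h => ne (hx.symm.trans (h ▸ hy)), ?_⟩
    refine eq_univ_of_forall fun z => ?_
    rcases (hp (z.1.1.c, z.1.1.i)).1 ⟨z.1.2.1, congrArg Subtype.val z.2⟩ with h | h
    · exact .inl (inj z x (h.trans hx.symm))
    · exact .inr (inj z y (h.trans hy.symm))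
  omega

end Pool.Agent.Work.MP_3d425c_gt.Bg
end

-- merged part: Pool.Agent.Work.MP_3d425c_gt.Bq.Dual3
section
/-! Duality: relative two-cycles give cocycles on the present edges. -/

namespace Pool.Agent.Work.MP_3d425c_gt.Bg
open Set Function Module Pool.Agent.Work.MP_3d425c_gt.Md

variable {G X0 X1 X2 X3 : Type} [Group G] [MulAction G X0] [MulAction G X1] [MulAction G X2]
  [MulAction G X3] {T : Tri G X0 X1 X2 X3} {E : Subgroup G} {Ω : Type} [MulAction E Ω]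

section
variable {A : Type} [MulAction E A] (B : SubMulAction E A)

open Classical in
/-- a function on orbits as an invariant function -/
noncomputable def dx : (Ob E B → ℝ) →ₗ[ℝ] (A → ℝ) where
  toFun w c := if h : c ∈ B then w (ob E ⟨c, h⟩) else 0
  map_add' s t := funext fun a => by by_cases h : a ∈ B <;> simp [h]
  map_smul' c s := funext fun a => by by_cases h : a ∈ B <;> simp [h]

variable {B}

theorem dx_mem (w : Ob E B → ℝ) {c : A} (h : c ∈ B) : dx B w c = w (ob E ⟨c, h⟩) := dif_pos h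

theorem dx_not (w : Ob E B → ℝ) {c : A} (h : c ∉ B) : dx B w c = 0 := dif_neg h

theorem dx_smul (w : Ob E B → ℝ) (g : E) (c : A) : dx B w (g • c) = dx B w c := by
  by_cases h : c ∈ B
  · rw [dx_mem w h, dx_mem w (B.smul_mem g h)]
    exact congrArg w (ob_smul g (⟨c, h⟩ : B))
  · rw [dx_not w h, dx_not w fun k => h ((B.smul_mem_iff' g).1 k)]

theorem dx_out (w : Ob E B → ℝ) (q : Ob E B) : dx B w q.out.1 = w q :=
  (dx_mem w q.out.2).trans (congrArg w (ob_out q))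

theorem dx_inv (Φ : A → ℝ) (hΦ : ∀ (g : E) c, c ∈ B → Φ (g • c) = Φ c) {c : A} (h : c ∈ B) :
    dx B (fun q => Φ q.out.1) c = Φ c := by
  obtain ⟨g, hg⟩ := ob_eq_iff.1 (ob_out (ob E (⟨c, h⟩ : B)))
  rw [dx_mem _ h, ← hg]
  exact hΦ g c h

end

variable (E) in
/-- the element that carries the representative to the point -/
noncomputable def gm (a : Ω) : E := (ob_eq_iff.1 (ob_out (ob E a)).symm).choose

theorem gm_spec (a : Ω) : gm E a • (ob E a).out = a :=
  (ob_eq_iff.1 (ob_out (ob E a)).symm).choose_spec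

theorem isum_smul {K : Type} [Field K] (h : X3 → Fin 4 → K) (g : G) (f : X2) :
    isum T (fun x k => h (g • x) k) f = isum T h (g • f) := by
  have e : ∀ c, T.d3 (g • (inc T (f, c)).1) (inc T (f, c)).2 = g • f := fun c => by
    rw [T.e3, b1_inc_d3]
  rw [← e true, isum_eq h ((e true).trans (e false).symm) fun k => ?_]
  · rfl
  · have := (inc T).injective (Prod.ext (smul_left_cancel g (Prod.mk.inj k).1) (Prod.mk.inj k).2)
    simp at this

theorem np_pos {n : ℕ} {σ : Fin n → Option Ω} {i : Fin n} {a : Ω} (h : σ i = some a) :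
    np σ ∈ Icc 1 n :=
  ⟨Finset.card_pos.2 ⟨i, by simp [h]⟩, eu_np_le _⟩

variable (W : Et T E Ω)

include W in
theorem gm_smul (g : E) (a : Ω) : gm E (g • a) = g * gm E a := by
  have h := gm_spec (E := E) (g • a)
  rw [ob_smul] at h
  have := W.free ((g * gm E a)⁻¹ * gm E (g • a)) (ob E a).out (by
    rw [mul_smul, h, inv_smul_eq_iff, mul_smul, gm_spec])
  exact (inv_mul_eq_one.1 this).symm

open Classical in
/-- the lift of a triangle at a present vertex -/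
noncomputable def L2 (a : Ω) (f : X2) (m : Fin 3) : Fin 3 → Option Ω :=
  if h : W.pr a = v2 T f m then (W.ext2 h).choose else fun _ => none

open Classical in
/-- the lift of a tetrahedron at a present vertex -/
noncomputable def L3 (a : Ω) (x : X3) (m : Fin 4) : Fin 4 → Option Ω :=
  if h : W.pr a = v3 T x m then (W.ext3 h).choose else fun _ => none

variable {W}

theorem L2_spec {a : Ω} {f : X2} {m : Fin 3} (h : W.pr a = v2 T f m) :
    W.V2 (f, L2 W a f m) ∧ L2 W a f m m = some a := by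
  rw [L2, dif_pos h]
  exact (W.ext2 h).choose_spec.1

theorem L3_spec {a : Ω} {x : X3} {m : Fin 4} (h : W.pr a = v3 T x m) :
    W.V3 (x, L3 W a x m) ∧ L3 W a x m m = some a := by
  rw [L3, dif_pos h]
  exact (W.ext3 h).choose_spec.1

theorem L2_eq {a : Ω} {f : X2} {m : Fin 3} {σ : Fin 3 → Option Ω} (h : W.V2 (f, σ))
    (k : σ m = some a) : L2 W a f m = σ :=
  ce_u2 W (L2_spec (W.v2_pr h k)).1 h (L2_spec (W.v2_pr h k)).2 k

variable (W) in
/-- the relative coboundary on edges -/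
noncomputable def dD1 : (Ob E (W.C1 1 2) → ℝ) →ₗ[ℝ] (Ob E (W.C2 1 3) → ℝ) where
  toFun z q := dx _ z (f2 T q.out.1 0) - dx _ z (f2 T q.out.1 1) + dx _ z (f2 T q.out.1 2)
  map_add' s t := funext fun q => by simp only [map_add, Pi.add_apply]; ring
  map_smul' c s := funext fun q => by
    simp only [map_smul, Pi.smul_apply, smul_eq_mul, RingHom.id_apply]; ring

theorem dD1_inv (Φ : X1 × (Fin 2 → Option Ω) → ℝ) (h : ∀ (g : E) c, W.V1 c → Φ (g • c) = Φ c)
    (h0 : ∀ c : X1 × (Fin 2 → Option Ω), c.2 0 = none → c.2 1 = none → Φ c = 0)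
    (q : Ob E (W.C2 1 3)) : dD1 W (fun q => Φ q.out.1) q =
      Φ (f2 T q.out.1 0) - Φ (f2 T q.out.1 1) + Φ (f2 T q.out.1 2) := by
  have k : ∀ c, W.V1 c → dx (W.C1 1 2) (fun q => Φ q.out.1) c = Φ c := fun c hc => by
    by_cases m : c ∈ W.C1 1 2
    · exact dx_inv (B := W.C1 1 2) Φ (fun g c (h' : W.V1 c ∧ _) => h g c h'.1) m
    · have n : ∀ i, c.2 i = none := fun i => by
        cases e : c.2 i with
        | none => rfl
        | some a => exact absurd ⟨hc, np_pos e⟩ m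
      rw [dx_not _ m, h0 c (n 0) (n 1)]
  show dx _ _ _ - dx _ _ _ + dx _ _ _ = _
  rw [k _ (q.out.2.1 0), k _ (q.out.2.1 1), k _ (q.out.2.1 2)]

/-- a relative two-cycle bounds in the star of a present vertex -/
theorem du_star (hD : Nv.Disc T) [Fintype (Ob E (W.C2 1 3))] (c : Ob E (W.C2 1 3) → ℝ)
    (hc : ∀ z, ∑ q, c q * dD1 W z q = 0) (q0 : Ob E Ω) : ∃ U : X3 → Fin 4 → ℝ, ∀ f m,
      W.pr q0.out = v2 T f m → dx _ c (f, L2 W q0.out f m) = lbd T U (f, m) := by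
  classical
  let w : X2 × Fin 3 → ℝ := fun b =>
    if W.pr q0.out = v2 T b.1 b.2 then dx _ c (b.1, L2 W q0.out b.1 b.2) else 0
  have hf : (support w).Finite :=
    ((b1_fin_v2 T (W.pr q0.out)).prod (finite_univ (α := Fin 3))).subset fun b hb =>
      ⟨⟨b.2, (by_contra fun h => hb (if_neg h) : W.pr q0.out = _).symm⟩, trivial⟩
  suffices h : w ∈ LinearMap.range (lbd T) by
    obtain ⟨U, hU⟩ := h
    exact ⟨U, fun f m k => (if_pos k).symm.trans (congrFun hU (f, m)).symm⟩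
  refine b1_sep _ _ hf fun cc hcc => ?_
  obtain ⟨s, t, h⟩ := lbd_coc hD cc fun U hU => hcc _ ⟨U, rfl⟩ (lbd_fin hU)
  let γ : Option Ω → E := fun o => o.elim 1 (gm E)
  let J : Option Ω → Prop := fun o => ∃ b, o = some b ∧ ob E b = q0
  let S : (X1 → ℝ) → Option Ω → X1 → ℝ := fun s o e => if J o then s ((γ o)⁻¹ • e) else 0
  have hS : ∀ s (g : E) o e, S s (g • o) (g • e) = S s o e := fun s g o e => by
    cases o with
    | none => simp [S, J]
    | some b =>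
      have j : J (g • some b) ↔ J (some b) := by
        simp only [J, Option.smul_some, Option.some.injEq, exists_eq_left', ob_smul]
      have k : γ (g • some b) = g * γ (some b) := gm_smul W g b
      simp only [S, j, k, mul_inv_rev, mul_smul, inv_smul_smul]
  have h1 := hc fun q => -(S s (q.out.1.2 0) q.out.1.1 + S t (q.out.1.2 1) q.out.1.1)
  have h2 : ∀ q, dD1 W (fun q => -(S s (q.out.1.2 0) q.out.1.1 + S t (q.out.1.2 1) q.out.1.1)) q =
      ∑ m, if J (q.out.1.2 m) then cc ((γ (q.out.1.2 m))⁻¹ • q.out.1.1, m) else 0 := fun q => by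
    rw [dD1_inv (fun c => -(S s (c.2 0) c.1 + S t (c.2 1) c.1))
      (fun g c _ => congrArg₂ (fun a b : ℝ => -(a + b)) (hS s g _ _) (hS t g _ _))
      (fun c a b => by simp [S, J, a, b]), Fin.sum_univ_three]
    have e : ∀ (g : E) f i, T.d2 (g • f) i = g • T.d2 f i := fun g f i => T.e2 g f i
    show -(S s (q.out.1.2 1) (T.d2 _ 0) + S t (q.out.1.2 2) (T.d2 _ 0)) -
      -(S s (q.out.1.2 0) (T.d2 _ 1) + S t (q.out.1.2 2) (T.d2 _ 1)) +
      -(S s (q.out.1.2 0) (T.d2 _ 2) + S t (q.out.1.2 1) (T.d2 _ 2)) = _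
    simp only [S, (h _).1, (h _).2.1, (h _).2.2, e]
    split_ifs <;> ring
  simp only [h2, Finset.mul_sum] at h1
  rw [← Fintype.sum_prod_type', ← finsum_eq_sum_of_fintype] at h1
  have cell : ∀ r : Ob E (W.C2 1 3) × Fin 3, J (r.1.out.1.2 r.2) →
      W.V2 ((γ (r.1.out.1.2 r.2))⁻¹ • r.1.out.1) ∧
        ((γ (r.1.out.1.2 r.2))⁻¹ • r.1.out.1).2 r.2 = some q0.out := by
    rintro r ⟨b, hb, rfl⟩
    refine ⟨W.V2_smul _ r.1.out.2.1, ?_⟩
    show (γ (r.1.out.1.2 r.2))⁻¹ • r.1.out.1.2 r.2 = _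
    rw [hb]
    exact congrArg some (inv_smul_eq_iff.2 (gm_spec b).symm)
  have bij : BijOn (fun r : Ob E (W.C2 1 3) × Fin 3 => ((γ (r.1.out.1.2 r.2))⁻¹ • r.1.out.1.1, r.2))
      {r | J (r.1.out.1.2 r.2)} {b | W.pr q0.out = v2 T b.1 b.2} := by
    refine ⟨fun r hr => W.v2_pr (cell r hr).1 (cell r hr).2, ?_, ?_⟩
    · rintro ⟨q, m⟩ hr ⟨q', m'⟩ hr' e
      obtain ⟨e1, rfl⟩ := Prod.mk.inj e
      have e2 : (γ (q.out.1.2 m))⁻¹ • q.out = (γ (q'.out.1.2 m))⁻¹ • q'.out :=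
        Subtype.ext (Prod.ext e1 (ce_u2 W (f := (γ (q.out.1.2 m))⁻¹ • q.out.1.1) (cell _ hr).1
          (e1 ▸ (cell _ hr').1) (cell _ hr).2 (cell _ hr').2))
      have := congrArg (ob E) e2
      rw [ob_smul, ob_smul, ob_out, ob_out] at this
      rw [this]
    · rintro ⟨f, m⟩ hb
      let φ : W.C2 1 3 := ⟨(f, L2 W q0.out f m), (L2_spec hb).1, np_pos (L2_spec hb).2⟩
      obtain ⟨g, hg⟩ := ob_eq_iff.1 (ob_out (ob E φ))
      have e1 : (ob E φ).out.1.2 m = some (g • q0.out) := by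
        rw [← hg]
        exact congrArg (g • ·) (L2_spec hb).2
      have e2 : gm E q0.out = 1 := W.free _ q0.out (by
        have := gm_spec (E := E) q0.out
        rwa [ob_out] at this)
      refine ⟨(ob E φ, m), ⟨_, e1, (ob_smul g _).trans (ob_out q0)⟩, Prod.ext ?_ rfl⟩
      show (γ ((ob E φ).out.1.2 m))⁻¹ • (ob E φ).out.1.1 = f
      rw [e1, show γ (some (g • q0.out)) = g by
        rw [show γ (some (g • q0.out)) = _ from gm_smul W g _, e2, mul_one], ← hg]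
      exact inv_smul_smul g f
  have h3 := finsum_mem_eq_of_bijOn
    (f := fun r : Ob E (W.C2 1 3) × Fin 3 => c r.1 * cc ((γ (r.1.out.1.2 r.2))⁻¹ • r.1.out.1.1, r.2))
    (g := fun b => dx _ c (b.1, L2 W q0.out b.1 b.2) * cc b) _ bij fun r hr => by
      congr 1
      rw [L2_eq (f := (γ (r.1.out.1.2 r.2))⁻¹ • r.1.out.1.1) (cell r hr).1 (cell r hr).2]
      exact ((dx_smul c _ r.1.out.1).trans (dx_out c r.1)).symm
  simp only [finsum_eq_if, mem_setOf_eq] at h3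
  simp only [mul_ite, mul_zero] at h1
  simp only [w, ite_mul, zero_mul]
  exact h3.symm.trans h1

end Pool.Agent.Work.MP_3d425c_gt.Bg
end

-- merged part: Pool.Agent.Work.MP_3d425c_gt.Bq.Dual
section
/-! Duality: the Euler characteristic of the boundary at the top of the tower. -/

namespace Pool.Agent.Work.MP_3d425c_gt.Bg
open Set Function Module Pool.Agent.Work.MP_3d425c_gt.Md

variable {G X0 X1 X2 X3 : Type} [Group G] [MulAction G X0] [MulAction G X1] [MulAction G X2]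
  [MulAction G X3] {T : Tri G X0 X1 X2 X3} {E : Subgroup G} {Ω : Type} [MulAction E Ω]
  {W : Et T E Ω}

variable (W) in
/-- a relative two-chain with invariant fillings in all stars -/
def dP : Submodule ℝ ((Ob E (W.C2 1 3) → ℝ) × (Ω → X3 → Fin 4 → ℝ)) where
  carrier := {p | (∀ (g : E) a x i, p.2 (g • a) (g • x) i = p.2 a x i) ∧
    ∀ f σ m a, W.V2 (f, σ) → σ m = some a → dx _ p.1 (f, σ) = lbd T (p.2 a) (f, m)}
  add_mem' := fun {p q} hp hq => ⟨fun g a x i => congrArg₂ (fun a b : ℝ => a + b) (hp.1 g a x i)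
    (hq.1 g a x i), fun f σ m a h k => by
      simp only [Prod.fst_add, Prod.snd_add, Pi.add_apply, map_add, hp.2 f σ m a h k,
        hq.2 f σ m a h k]⟩
  zero_mem' := ⟨fun _ _ _ _ => rfl, fun f σ m a _ _ => by simp⟩
  smul_mem' := fun c p hp => ⟨fun g a x i => congrArg (fun a : ℝ => c * a) (hp.1 g a x i),
    fun f σ m a h k => by
      simp only [Prod.smul_fst, Prod.smul_snd, Pi.smul_apply, map_smul, hp.2 f σ m a h k]⟩

theorem dP_ex (hD : Nv.Disc T) [Fintype (Ob E (W.C2 1 3))] (c : Ob E (W.C2 1 3) → ℝ)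
    (hc : ∀ z, ∑ q, c q * dD1 W z q = 0) : ∃ U, (c, U) ∈ dP W := by
  choose U hU using du_star hD c hc
  refine ⟨fun a x i => U (ob E a) ((gm E a)⁻¹ • x) i, fun g a x i => ?_, fun f σ m a h k => ?_⟩
  · simp only [ob_smul, gm_smul W, mul_inv_rev, mul_smul, inv_smul_smul]
  · have h1 : W.V2 ((gm E a)⁻¹ • f, (gm E a)⁻¹ • σ) := W.V2_smul _ h
    have h2 : ((gm E a)⁻¹ • σ) m = some (ob E a).out := by
      rw [Pi.smul_apply, k]
      exact congrArg some (inv_smul_eq_iff.2 (gm_spec a).symm)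
    have h3 := hU (ob E a) _ m (W.v2_pr h1 h2)
    rw [L2_eq h1 h2] at h3
    exact ((dx_smul c (gm E a)⁻¹ (f, σ)).symm.trans h3).trans
      (isum_smul (fun x k => U (ob E a) x (k.succAbove m)) _ f).symm

/-- the difference of two star fillings along an edge -/
def dV (o : X3 → ℝ) (U : Ω → X3 → Fin 4 → ℝ) (a b : Ω) (r : X3 × Fin 4) (i : Fin 3) : ℝ :=
  o r.1 * (U b r.1 (r.2.succAbove (i.succAbove 1)) - U a r.1 (r.2.succAbove (i.succAbove 0)))

theorem dV_wd {o : X3 → ℝ} (ho : ∀ f, isum T (fun x _ => o x) f = 0) {p} (hp : p ∈ dP W)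
    {a b : Ω} {e : X1} (h : W.R a e b) {r r' : X3 × Fin 4} {i i' : Fin 3}
    (k : T.d2 (T.d3 r.1 r.2) i = e) (k' : T.d2 (T.d3 r'.1 r'.2) i' = e) :
    dV o p.2 a b r i = dV o p.2 a b r' i' := by
  have h1 : ∀ f i, T.d2 f i = e →
      dV o p.2 a b (inc T (f, false)) i = dV o p.2 a b (inc T (f, true)) i := fun f i k => by
    obtain ⟨s1, s2⟩ := L2_spec (W := W) (a := a) (f := f) (m := i.succAbove 0)
      ((W.src _ _ _ h).trans (k ▸ ce_v21 T f i 0))
    have s3 : W.Rp (L2 W a f (i.succAbove 0) (i.succAbove 0)) (T.d2 f i)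
      (L2 W a f (i.succAbove 0) (i.succAbove 1)) := s1 i
    rw [s2, k] at s3
    have a1 := (hp.2 f _ _ _ s1 (W.rp_fn (b' := some b) s3 h)).symm.trans (hp.2 f _ _ _ s1 s2)
    rw [lbd_apply, lbd_apply] at a1
    have a2 := ho f
    have a3 : ∀ n : ℕ, (-1 : ℝ) ^ n * (-1) ^ n = 1 := fun n => by
      rw [← pow_add, ← two_mul, pow_mul, neg_one_sq, one_pow]
    simp only [isum, dV] at a1 a2 ⊢
    have b1 := a3 (inc T (f, true)).2
    have b2 := a3 (inc T (f, false)).2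
    generalize (-1 : ℝ) ^ ((inc T (f, true)).2 : ℕ) = s at a1 a2 b1
    generalize (-1 : ℝ) ^ ((inc T (f, false)).2 : ℕ) = t at a1 a2 b2
    generalize p.2 b (inc T (f, true)).1 ((inc T (f, true)).2.succAbove (i.succAbove 1)) = A at a1
    generalize p.2 a (inc T (f, true)).1 ((inc T (f, true)).2.succAbove (i.succAbove 0)) = B at a1
    generalize p.2 b (inc T (f, false)).1 ((inc T (f, false)).2.succAbove (i.succAbove 1)) = A' at a1
    generalize p.2 a (inc T (f, false)).1 ((inc T (f, false)).2.succAbove (i.succAbove 0)) = B' at a1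
    linear_combination (t * o (inc T (f, false)).1) * a1 - s * (A - B) * a2 -
      o (inc T (f, false)).1 * (A' - B') * b2 + o (inc T (f, true)).1 * (A - B) * b1
  have h2 : ∀ x k i, T.d2 (T.d3 x k) i = e →
      dV o p.2 a b (inc T (T.d3 x k, true)) i = dV o p.2 a b (x, k) i := fun x k i l => by
    obtain ⟨_ | _, h⟩ := b1_inc_surj T x k
    · rw [← h1 _ _ l, h]
    · rw [h]
  have h3 : ∀ P Q : X2 × Fin 3, Relation.EqvGen (fun p q : X2 × Fin 3 => ∃ x, ∃ i j : Fin 3,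
      i ≤ j ∧ p = (T.d3 x j.succ, i) ∧ q = (T.d3 x i.castSucc, j)) P Q →
      T.d2 P.1 P.2 = T.d2 Q.1 Q.2 ∧ (T.d2 P.1 P.2 = e →
        dV o p.2 a b (inc T (P.1, true)) P.2 = dV o p.2 a b (inc T (Q.1, true)) Q.2) := by
    intro P Q this
    induction this with
    | rel P Q h =>
      obtain ⟨x, i, j, hij, rfl, rfl⟩ := h
      have a : ∀ i j : Fin 3, i ≤ j → ∀ b : Fin 2, j.succ.succAbove (i.succAbove b) =
        i.castSucc.succAbove (j.succAbove b) := by decide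
      refine ⟨T.s3 x i j hij, fun l => ?_⟩
      rw [h2 _ _ _ l, h2 _ _ _ ((T.s3 x i j hij).symm.trans l)]
      simp only [dV, a i j hij]
    | refl => exact ⟨rfl, fun _ => rfl⟩
    | symm _ _ _ ih => exact ⟨ih.1.symm, fun l => (ih.2 (ih.1.trans l)).symm⟩
    | trans _ _ _ _ _ i j =>
      exact ⟨i.1.trans j.1, fun l => (i.2 l).trans (j.2 (i.1.symm.trans l))⟩
  exact (h2 _ _ _ k).symm.trans (((h3 _ _ (T.link (_, i) (_, i') (k.trans k'.symm))).2 k).trans
    (h2 _ _ _ k'))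

theorem du_dim {F P V : Type} [AddCommGroup F] [Module ℝ F] [AddCommGroup P] [Module ℝ P]
    [AddCommGroup V] [Module ℝ V] [FiniteDimensional ℝ F] [FiniteDimensional ℝ V]
    (Z B : Submodule ℝ F) (π : P →ₗ[ℝ] F) (l : P →ₗ[ℝ] V) (h : Z ≤ LinearMap.range π)
    (k : ∀ p, l p = 0 → π p ∈ B) : finrank ℝ Z ≤ finrank ℝ V + finrank ℝ B := by
  obtain ⟨s, hs⟩ := π.rangeRestrict.exists_rightInverse_of_surjective π.range_rangeRestrict
  have a1 := (l ∘ₗ s).finrank_range_add_finrank_ker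
  have a2 := (LinearMap.range (l ∘ₗ s)).finrank_le
  have a3 : (LinearMap.ker (l ∘ₗ s)).map (LinearMap.range π).subtype ≤ B := by
    rintro _ ⟨c, hc, rfl⟩
    have := k _ hc
    rwa [show π (s c) = c.1 from congrArg Subtype.val (LinearMap.congr_fun hs c)] at this
  have a4 := Submodule.finrank_mono a3
  rw [Submodule.finrank_map_subtype_eq] at a4
  have a5 := Submodule.finrank_mono h
  omega

theorem du_rank2 (hM : Mfd T) (hD : Nv.Disc T) {o : X3 → ℝ} (o1 : ∀ x, o x * o x = 1)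
    (ho : ∀ f, isum T (fun x _ => o x) f = 0) (oi : ∀ (g : E) x, o (g • x) = o x)
    [Finite (Ob E Ω)] (ω : Ω) {V : Type} [AddCommGroup V] [Module ℝ V] [FiniteDimensional ℝ V]
    (Λ : (Ω → X1 → Ω → ℝ) →ₗ[ℝ] V) (top : ∀ χ, W.Coc χ → Λ χ = 0 → ∃ u : Ω → ℝ,
      (∀ (g : E) a, u (g • a) = u a) ∧ ∀ a e b, W.R a e b → χ a e b = u b - u a) :
    oc E (W.C2 1 3) + 1 ≤ finrank ℝ (LinearMap.range (dD1 W)) + finrank ℝ V + oc E (W.C3 1 4) := by
  classical
  have := W.finC2 one_pos 3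
  have := W.finC3 one_pos 4
  have := Fintype.ofFinite (Ob E (W.C2 1 3))
  have := Fintype.ofFinite (Ob E (W.C3 1 4))
  obtain ⟨Z, z1, z2⟩ := du_perp (LinearMap.range (dD1 W))
  choose m a hm using fun q : Ob E (W.C2 1 3) => ce_np q.out.2.2.1
  choose m3 a3 hm3 using fun q : Ob E (W.C3 1 4) => ce_np q.out.2.2.1
  let D3 : (Ob E (W.C3 1 4) → ℝ) →ₗ[ℝ] (Ob E (W.C2 1 3) → ℝ) :=
    { toFun := fun C q =>
        isum T (fun x k => dx _ C (x, L3 W (a q) x (k.succAbove (m q)))) q.out.1.1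
      map_add' := fun s t => funext fun q => by simp only [isum, map_add, Pi.add_apply]; ring
      map_smul' := fun c s => funext fun q => by
        simp only [isum, map_smul, Pi.smul_apply, smul_eq_mul, RingHom.id_apply]; ring }
  have hD3 : ∀ C (F : Ω → X3 → Fin 4 → ℝ), (∀ x ρ i a, W.V3 (x, ρ) → ρ i = some a →
      dx _ C (x, ρ) = F a x i) → ∀ q, D3 C q = lbd T (F (a q)) (q.out.1.1, m q) := fun C F h q =>
    isum_congr fun x k (e : T.d3 x k = q.out.1.1) => by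
      have s := L3_spec (W := W) (a := a q) (x := x) (m := k.succAbove (m q))
        ((W.v2_pr q.out.2.1 (hm q)).trans (by rw [← e, ce_v32]))
      exact h _ _ _ _ s.1 s.2
  have b1 : finrank ℝ (LinearMap.range D3) + 1 ≤ oc E (W.C3 1 4) := by
    have a1 := D3.finrank_range_add_finrank_ker
    have a2 : 1 ≤ finrank ℝ (LinearMap.ker D3) := by
      refine Submodule.one_le_finrank_iff.2 fun k => ?_
      have h0 : (fun q : Ob E (W.C3 1 4) => o q.out.1.1) = 0 :=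
        (Submodule.eq_bot_iff _).1 k _ (funext fun q =>
          (hD3 _ (fun _ x _ => o x) (fun x ρ i a h l => dx_inv (B := W.C3 1 4) (fun c => o c.1)
            (fun g c _ => oi g c.1) (c := (x, ρ)) ⟨h, np_pos l⟩) q).trans (ho _))
      obtain ⟨f, i, j, hf⟩ := hM.vert (W.pr ω)
      obtain ⟨x, k, rfl⟩ := T.face_surj f
      rw [b1_end_v2, ce_v32] at hf
      have s := L3_spec hf.symm
      have h1 := congrFun h0 (ob E ⟨(x, _), s.1, np_pos s.2⟩)
      have h2 := o1 (ob E (⟨(x, _), s.1, np_pos s.2⟩ : W.C3 1 4)).out.1.1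
      rw [show o _ = 0 from h1, zero_mul] at h2
      exact zero_ne_one h2
    rw [finrank_fintype_fun_eq_card, ← Nat.card_eq_fintype_card] at a1
    exact (Nat.add_le_add_left a2 _).trans a1.le
  have pe : ∀ e, ∃ r : (X3 × Fin 4) × Fin 3, T.d2 (T.d3 r.1.1 r.1.2) r.2 = e := fun e => by
    obtain ⟨f, i, rfl⟩ := hM.pure e
    obtain ⟨x, k, rfl⟩ := T.face_surj f
    exact ⟨((x, k), i), rfl⟩
  choose pe hpe using pe
  let χ : (Ω → X3 → Fin 4 → ℝ) →ₗ[ℝ] (Ω → X1 → Ω → ℝ) :=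
    { toFun := fun U a e b => dV o U a b (pe e).1 (pe e).2
      map_add' := fun s t => by
        funext a e b
        simp only [dV, Pi.add_apply]
        ring
      map_smul' := fun c s => by
        funext a e b
        simp only [dV, Pi.smul_apply, smul_eq_mul, RingHom.id_apply]
        ring }
  have b2 := du_dim Z (LinearMap.range D3) (LinearMap.fst ℝ _ _ ∘ₗ (dP W).subtype)
    (Λ ∘ₗ χ ∘ₗ LinearMap.snd ℝ _ _ ∘ₗ (dP W).subtype) (fun c hc => by
      obtain ⟨U, hU⟩ := dP_ex hD c fun z => (z2 c).1 hc _ ⟨z, rfl⟩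
      exact ⟨⟨(c, U), hU⟩, rfl⟩) fun ⟨p, hp⟩ h0 => by
    have wd : ∀ a b x k i, W.R a (T.d2 (T.d3 x k) i) b →
        χ p.2 a (T.d2 (T.d3 x k) i) b = dV o p.2 a b (x, k) i := fun a b x k i h =>
      dV_wd ho hp h (hpe _) rfl
    obtain ⟨u, u1, u2⟩ := top (χ p.2) ⟨fun f a b c k k' => by
      obtain ⟨x, l, rfl⟩ := T.face_surj f
      rw [wd _ _ _ _ _ k, wd _ _ _ _ _ k', wd _ _ _ _ _ (W.t1 _ _ _ _ k k')]
      show o x * (p.2 c x (l.succAbove 2) - p.2 a x (l.succAbove 0)) =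
        o x * (p.2 b x (l.succAbove 1) - p.2 a x (l.succAbove 0)) +
        o x * (p.2 c x (l.succAbove 2) - p.2 b x (l.succAbove 1))
      ring, fun g a e b k => by
      have e1 : T.d2 (T.d3 (g • (pe e).1.1) (pe e).1.2) (pe e).2 = g • e :=
        (congrArg (T.d2 · _) (T.e3 g _ _)).trans ((T.e2 g _ _).trans (congrArg (g • ·) (hpe e)))
      refine (dV_wd ho hp (W.R_smul g _ _ _ k) (hpe _) (r' := (g • (pe e).1.1, (pe e).1.2))
        e1).trans ?_
      show dV _ _ _ _ _ _ = dV _ _ _ _ _ _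
      simp only [dV, oi, hp.1]⟩ h0
    let F : Ω → X3 → Fin 4 → ℝ := fun a x i => p.2 a x i - o x * u a
    have F1 : ∀ x ρ (k : Fin 4) (i : Fin 3) a b, W.V3 (x, ρ) →
        ρ (k.succAbove (i.succAbove 0)) = some a → ρ (k.succAbove (i.succAbove 1)) = some b →
        F a x (k.succAbove (i.succAbove 0)) = F b x (k.succAbove (i.succAbove 1)) := by
      intro x ρ k i a b h ha hb
      have r : W.Rp (ρ (k.succAbove (i.succAbove 0))) (T.d2 (T.d3 x k) i)
        (ρ (k.succAbove (i.succAbove 1))) := h k i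
      rw [ha, hb] at r
      have := (wd a b x k i r).symm.trans (u2 _ _ _ r)
      simp only [dV] at this
      simp only [F]
      linear_combination (-o x) * this + (p.2 b x (k.succAbove (i.succAbove 1)) -
        p.2 a x (k.succAbove (i.succAbove 0))) * o1 x
    have F2 : ∀ x ρ i j a b, W.V3 (x, ρ) → ρ i = some a → ρ j = some b → F a x i = F b x j := by
      intro x ρ i j a b h ha hb
      rcases (by decide : ∀ i j : Fin 4, i = j ∨ ∃ (k : Fin 4) (l : Fin 3),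
        (i = k.succAbove (l.succAbove 0) ∧ j = k.succAbove (l.succAbove 1)) ∨
        (j = k.succAbove (l.succAbove 0) ∧ i = k.succAbove (l.succAbove 1))) i j with
        rfl | ⟨k, l, ⟨rfl, rfl⟩ | ⟨rfl, rfl⟩⟩
      · rw [Option.some.inj (ha.symm.trans hb)]
      · exact F1 x ρ k l a b h ha hb
      · exact (F1 x ρ k l b a h hb ha).symm
    refine ⟨fun q => F (a3 q) q.out.1.1 (m3 q), funext fun q => ?_⟩
    rw [hD3 _ F fun x ρ i a h l => ?_]
    · show _ = p.1 q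
      rw [← dx_out p.1 q, hp.2 q.out.1.1 q.out.1.2 _ _ q.out.2.1 (hm q), lbd_apply, lbd_apply]
      have := ho q.out.1.1
      simp only [isum, F] at this ⊢
      linear_combination (-u (a q)) * this
    · let ξ : W.C3 1 4 := ⟨(x, ρ), h, np_pos l⟩
      obtain ⟨g, hg⟩ := ob_eq_iff.1 (ob_out (ob E ξ))
      have l' : (ob E ξ).out.1.2 i = some (g • a) := by
        rw [← hg]
        exact congrArg (g • ·) l
      refine (dx_mem _ ξ.2).trans ((F2 _ _ _ _ _ _ (ob E ξ).out.2.1 (hm3 _) l').trans ?_)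
      rw [← hg]
      show F (g • a) (g • x) i = _
      simp only [F, hp.1, oi, u1]
  change _ = oc E (W.C2 1 3) at z1
  omega

theorem du_rank1 (hM : Mfd T) {ω : Ω} (fc : W.Fc ω) (bd : ∃ x, W.Bd x) {I : Type} [Finite I]
    (z : I → Option Ω → X1 → Option Ω → ℝ) (z0 : ∀ i e, z i none e none = 0)
    (zc : ∀ i f a b c, W.Rp a (T.d2 f 2) b → W.Rp b (T.d2 f 0) c → W.Rp a (T.d2 f 1) c →
      z i a (T.d2 f 1) c = z i a (T.d2 f 2) b + z i b (T.d2 f 0) c)
    (zi : ∀ i (g : E) a e b, W.Rp a e b → z i (g • a) (g • e) (g • b) = z i a e b)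
    (ind : ∀ (c : I → ℝ) (s : Option Ω → ℝ), s none = 0 → (∀ (g : E) a, s (g • a) = s a) →
      (∀ a e b, W.Rp a e b → ∑ᶠ i, c i * z i a e b = s b - s a) → c = 0) :
    finrank ℝ (LinearMap.range (dD1 W)) + oc E Ω + Nat.card I ≤ oc E (W.C1 1 2) := by
  classical
  have := fc.fin
  have := hM.finC1 W one_pos 2
  have := Fintype.ofFinite (Ob E (W.C1 1 2))
  have := Fintype.ofFinite (Ob E Ω)
  have := Fintype.ofFinite I
  let S : (Ob E Ω → ℝ) → Option Ω → ℝ := fun s o => o.elim 0 fun a => s (ob E a)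
  have hS : ∀ s (g : E) o, S s (g • o) = S s o := fun s g o => by
    cases o with
    | none => rfl
    | some a => exact congrArg s (ob_smul g a)
  let Φ : (Ob E Ω → ℝ) × (I → ℝ) → X1 × (Fin 2 → Option Ω) → ℝ := fun p c =>
    ∑ i, p.2 i * z i (c.2 0) c.1 (c.2 1) - (S p.1 (c.2 1) - S p.1 (c.2 0))
  have hΦ : ∀ p (g : E) c, W.V1 c → Φ p (g • c) = Φ p c := fun p g c h =>
    congrArg₂ (fun a b : ℝ => a - b)
      (Finset.sum_congr rfl fun i _ => congrArg (p.2 i * ·) (zi i g _ _ _ h))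
      (congrArg₂ (fun a b : ℝ => a - b) (hS _ g _) (hS _ g _))
  let L : ((Ob E Ω → ℝ) × (I → ℝ)) →ₗ[ℝ] (Ob E (W.C1 1 2) → ℝ) :=
    { toFun := fun p q => Φ p q.out.1
      map_add' := fun s t => funext fun q => by
        have : ∀ o, S (s.1 + t.1) o = S s.1 o + S t.1 o := fun o => by cases o <;> simp [S]
        simp only [Φ, Prod.fst_add, Prod.snd_add, Pi.add_apply, this, add_mul,
          Finset.sum_add_distrib]
        ring
      map_smul' := fun c s => funext fun q => by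
        have : ∀ o, S (c • s.1) o = c * S s.1 o := fun o => by cases o <;> simp [S]
        simp only [Φ, Prod.smul_fst, Prod.smul_snd, Pi.smul_apply, this, smul_eq_mul,
          RingHom.id_apply, mul_assoc, ← Finset.mul_sum]
        ring }
  have h1 : LinearMap.range L ≤ LinearMap.ker (dD1 W) := by
    rintro _ ⟨p, rfl⟩
    refine funext fun q => (dD1_inv (Φ p) (hΦ p) (fun c a b => by simp [Φ, a, b, z0]) q).trans ?_
    obtain ⟨k1, k2, k3⟩ := (ce_V2 W).1 q.out.2.1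
    show ∑ i, p.2 i * z i (q.out.1.2 1) (T.d2 q.out.1.1 0) (q.out.1.2 2) -
        (S p.1 (q.out.1.2 2) - S p.1 (q.out.1.2 1)) -
      (∑ i, p.2 i * z i (q.out.1.2 0) (T.d2 q.out.1.1 1) (q.out.1.2 2) -
        (S p.1 (q.out.1.2 2) - S p.1 (q.out.1.2 0))) +
      (∑ i, p.2 i * z i (q.out.1.2 0) (T.d2 q.out.1.1 2) (q.out.1.2 1) -
        (S p.1 (q.out.1.2 1) - S p.1 (q.out.1.2 0))) = 0
    simp only [fun i => zc i _ _ _ _ k1 k3 k2, mul_add, Finset.sum_add_distrib]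
    ring
  have h2 : LinearMap.ker L = ⊥ := (Submodule.eq_bot_iff _).2 fun p hp => by
    have k : ∀ a e b, W.Rp a e b → ∑ i, p.2 i * z i a e b = S p.1 b - S p.1 a := fun a e b h => by
      by_cases m : (e, ![a, b]) ∈ W.C1 1 2
      · have := dx_inv (B := W.C1 1 2) (Φ p) (fun g c (h' : W.V1 c ∧ _) => hΦ p g c h'.1) m
        rw [show (fun q : Ob E (W.C1 1 2) => Φ p q.out.1) = 0 from hp, map_zero] at this
        exact sub_eq_zero.1 this.symm
      · cases a with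
        | some a => exact absurd ⟨h, np_pos (i := 0) rfl⟩ m
        | none =>
          cases b with
          | some b => exact absurd ⟨h, np_pos (i := 1) rfl⟩ m
          | none => simp [z0]
    have c0 := ind p.2 (S p.1) rfl (hS _) fun a e b h => (finsum_eq_sum_of_fintype _).trans
      (k a e b h)
    simp only [c0, Pi.zero_apply, zero_mul, Finset.sum_const_zero] at k
    have k1 : ∀ x, p.1 (ob E x) = p.1 (ob E ω) := fun x => by
      induction fc.conn x with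
      | refl => rfl
      | tail _ h ih =>
        obtain ⟨e, h | h⟩ := h
        · exact (sub_eq_zero.1 (k (some _) e (some _) h).symm).trans ih
        · exact (sub_eq_zero.1 (k (some _) e (some _) h).symm).symm.trans ih
    obtain ⟨x, e, h⟩ := bd
    have k2 : p.1 (ob E x) = 0 := h.elim (fun h => (sub_eq_zero.1 (k _ e _ h).symm).symm)
      fun h => sub_eq_zero.1 (k _ e _ h).symm
    refine Prod.ext (funext fun q => ?_) c0
    obtain ⟨y, rfl⟩ := ob_surj q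
    exact (k1 y).trans ((k1 x).symm.trans k2)
  have a1 := L.finrank_range_add_finrank_ker
  have a2 := (dD1 W).finrank_range_add_finrank_ker
  have a3 := Submodule.finrank_mono h1
  rw [h2, finrank_bot, finrank_prod, finrank_fintype_fun_eq_card, finrank_fintype_fun_eq_card,
    ← Nat.card_eq_fintype_card, ← Nat.card_eq_fintype_card] at a1
  rw [finrank_fintype_fun_eq_card, ← Nat.card_eq_fintype_card] at a2
  change _ = oc E Ω + _ at a1
  change _ = oc E (W.C1 1 2) at a2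
  omega

/-- `χ(∂N) ≥ 2 (h¹ + 1 - n)` at the top of the tower -/
theorem dual (hM : Mfd T) (hD : Nv.Disc T) {o : X3 → ℝ} (o1 : ∀ x, o x * o x = 1)
    (ho : ∀ f, isum T (fun x _ => o x) f = 0) (oi : ∀ (g : E) x, o (g • x) = o x)
    {ω : Ω} (fc : W.Fc ω) (bd : ∃ x, W.Bd x)
    {V : Type} [AddCommGroup V] [Module ℝ V] [FiniteDimensional ℝ V]
    (Λ : (Ω → X1 → Ω → ℝ) →ₗ[ℝ] V) (top : ∀ χ, W.Coc χ → Λ χ = 0 → ∃ u : Ω → ℝ,
      (∀ (g : E) a, u (g • a) = u a) ∧ ∀ a e b, W.R a e b → χ a e b = u b - u a)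
    {I : Type} [Finite I] (z : I → Option Ω → X1 → Option Ω → ℝ) (z0 : ∀ i e, z i none e none = 0)
    (zc : ∀ i f a b c, W.Rp a (T.d2 f 2) b → W.Rp b (T.d2 f 0) c → W.Rp a (T.d2 f 1) c →
      z i a (T.d2 f 1) c = z i a (T.d2 f 2) b + z i b (T.d2 f 0) c)
    (zi : ∀ i (g : E) a e b, W.Rp a e b → z i (g • a) (g • e) (g • b) = z i a e b)
    (ind : ∀ (c : I → ℝ) (s : Option Ω → ℝ), s none = 0 → (∀ (g : E) a, s (g • a) = s a) →
      (∀ a e b, W.Rp a e b → ∑ᶠ i, c i * z i a e b = s b - s a) → c = 0) :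
    2 * (Nat.card I + 1) + oc E (W.C2 1 2) ≤
      2 * finrank ℝ V + oc E (W.C1 1 1) + oc E (W.C3 1 3) := by
  have := fc.fin
  have h1 := du_rank1 hM fc bd z z0 zc zi ind
  have h2 := du_rank2 hM hD o1 ho oi ω Λ top
  have h3 := (euler_rel hM hD W).1
  omega

/-- the same with finite sums and `n` functionals -/
theorem dual' (hM : Mfd T) (hD : Nv.Disc T) {o : X3 → ℝ} (o1 : ∀ x, o x * o x = 1)
    (ho : ∀ f, isum T (fun x _ => o x) f = 0) (oi : ∀ (g : E) x, o (g • x) = o x)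
    {ω : Ω} (fc : W.Fc ω) (bd : ∃ x, W.Bd x) {n : ℕ}
    (top : ∃ Λ : (Ω → X1 → Ω → ℝ) →ₗ[ℝ] (Fin n → ℝ), ∀ χ, W.Coc χ → Λ χ = 0 → ∃ u : Ω → ℝ,
      (∀ (g : E) a, u (g • a) = u a) ∧ ∀ a e b, W.R a e b → χ a e b = u b - u a)
    {I : Type} [Fintype I] (z : I → Option Ω → X1 → Option Ω → ℝ) (z0 : ∀ i e, z i none e none = 0)
    (zc : ∀ i f a b c, W.Rp a (T.d2 f 2) b → W.Rp b (T.d2 f 0) c → W.Rp a (T.d2 f 1) c →
      z i a (T.d2 f 1) c = z i a (T.d2 f 2) b + z i b (T.d2 f 0) c)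
    (zi : ∀ i (g : E) a e b, W.Rp a e b → z i (g • a) (g • e) (g • b) = z i a e b)
    (ind : ∀ (c : I → ℝ) (s : Option Ω → ℝ), s none = 0 → (∀ (g : E) a, s (g • a) = s a) →
      (∀ a e b, W.Rp a e b → ∑ i, c i * z i a e b = s b - s a) → c = 0) :
    2 * (Fintype.card I + 1) + oc E (W.C2 1 2) ≤ 2 * n + oc E (W.C1 1 1) + oc E (W.C3 1 3) := by
  obtain ⟨Λ, top⟩ := top
  have := dual hM hD o1 ho oi fc bd Λ top z z0 zc zi fun c s a b h =>
    ind c s a b fun x e y k => (finsum_eq_sum_of_fintype _).symm.trans (h x e y k)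
  rwa [finrank_fintype_fun_eq_card, Fintype.card_fin, Nat.card_eq_fintype_card] at this

end Pool.Agent.Work.MP_3d425c_gt.Bg
end
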