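import Pool.Agent.Work.MP_3d425c_gt.Bg.Tf2
import Pool.Agent.Work.MP_3d425c_gt.Ta.Ball

-- merged part: Pool.Agent.Work.MP_3d425c_gt.Bg.Base
section
/-! Purity, the Euler characteristic of the links, and the manifold hypotheses. -/

namespace Pool.Agent.Work.MP_3d425c_gt.Bg
open Set Function Module Pool.Agent.Work.MP_3d425c_gt.Md

variable {G X0 X1 X2 X3 : Type} [Group G] [MulAction G X0] [MulAction G X1] [MulAction G X2]
  [MulAction G X3] {T : Tri G X0 X1 X2 X3}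

/-- every edge lies in a triangle -/
theorem pure_of (mid : ∀ v, ∃ f, T.d1 (T.d2 f 2) 0 = v) (e : X1) : ∃ f i, T.d2 f i = e := by
  classical
  by_contra hn
  have n : ∀ f i, T.d2 f i ≠ e := fun f i h => hn ⟨f, i, h⟩
  obtain ⟨s, hs⟩ := T.h1 (fun e' => if e' = e then 1 else 0) fun f => by simp [n]
  have h1 : ∀ f i, s (T.d1 (T.d2 f i) 0) = s (T.d1 (T.d2 f i) 1) := fun f i => by
    have := hs (T.d2 f i)
    rw [if_neg (n f i)] at this
    exact sub_eq_zero.1 this.symm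
  have h2 : ∀ f m, s (v2 T f m) = s (v2 T f 0) := fun f m => by
    fin_cases m
    · rfl
    · exact h1 f 2
    · exact (congrArg s (b1_v210 T f)).symm.trans ((h1 f 1).trans (congrArg s (b1_v211 T f)))
  have h3 : ∀ x k, s (v2 T (T.d3 x k) 0) = s (v3 T x 0) := fun x k => by
    fin_cases k
    · exact (congrArg s (b1_v2_d3 T x 0 0)).trans (h2 (T.d3 x 3) 1)
    · exact congrArg s (b1_v2_d3 T x 1 0)
    · exact congrArg s (b1_v2_d3 T x 2 0)
    · rfl
  have h4 : ∀ x y, s (v3 T x 0) = s (v3 T y 0) := fun x y => by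
    induction T.conn x y with
    | rel x y h =>
      obtain ⟨k, l, h⟩ := h
      rw [← h3 x k, h, h3]
    | refl => rfl
    | symm _ _ _ ih => exact ih.symm
    | trans _ _ _ _ _ i j => exact i.trans j
  have h5 : ∀ v, ∃ x, s v = s (v3 T x 0) := fun v => by
    obtain ⟨f, rfl⟩ := mid v
    refine ⟨(inc T (f, true)).1, (h2 f 1).trans ?_⟩
    rw [← h3 _ (inc T (f, true)).2, b1_inc_d3]
  obtain ⟨x, hx⟩ := h5 (T.d1 e 0)
  obtain ⟨y, hy⟩ := h5 (T.d1 e 1)
  have := hs e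
  rw [if_pos rfl, hx, hy, h4 x y, sub_self] at this
  exact one_ne_zero this

theorem b4_rank {K A B C : Type} [Field K] [Finite A] [Finite B] [Finite C]
    (d0 : (A → K) →ₗ[K] (B → K)) (d1 : (B → K) →ₗ[K] (C → K))
    (h1 : LinearMap.ker d1 ≤ LinearMap.range d0) (h2 : LinearMap.ker d0 ≠ ⊥)
    (h3 : LinearMap.range d1 ≠ ⊤) : Nat.card B + 2 ≤ Nat.card A + Nat.card C := by
  have := Fintype.ofFinite A
  have := Fintype.ofFinite B
  have := Fintype.ofFinite C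
  have a1 := d0.finrank_range_add_finrank_ker
  have a2 := d1.finrank_range_add_finrank_ker
  have a3 := Submodule.finrank_mono h1
  have a4 := Submodule.finrank_lt h3
  have a5 : finrank K (LinearMap.ker d0) ≠ 0 := fun h => h2 (Submodule.finrank_eq_zero.1 h)
  rw [finrank_fintype_fun_eq_card] at a1 a2 a4
  simp only [Nat.card_eq_fintype_card]
  omega

open Classical in
/-- extension by zero -/
noncomputable def b4_ext (K : Type) [Field K] {A : Type} (p : A → Prop) :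
    (Subtype p → K) →ₗ[K] (A → K) where
  toFun s a := if h : p a then s ⟨a, h⟩ else 0
  map_add' s t := funext fun a => by by_cases h : p a <;> simp [h]
  map_smul' c s := funext fun a => by by_cases h : p a <;> simp [h]

theorem b4_pos {K : Type} [Field K] {A : Type} {p : A → Prop} (s : Subtype p → K) {a : A}
    (h : p a) : b4_ext K p s a = s ⟨a, h⟩ := dif_pos h

theorem b4_neg {K : Type} [Field K] {A : Type} {p : A → Prop} (s : Subtype p → K) {a : A}
    (h : ¬ p a) : b4_ext K p s a = 0 := dif_neg h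

variable (T) in
/-- first coboundary of the links -/
def b4_d0 (K : Type) [Field K] : (X1 × Fin 2 → K) →ₗ[K] (X2 × Fin 3 → K) where
  toFun s b := ![s (T.d2 b.1 1, 0) - s (T.d2 b.1 2, 0), - s (T.d2 b.1 0, 0) - s (T.d2 b.1 2, 1),
    s (T.d2 b.1 1, 1) - s (T.d2 b.1 0, 1)] b.2
  map_add' s t := funext fun ⟨f, m⟩ => by fin_cases m <;> simp <;> ring
  map_smul' c s := funext fun ⟨f, m⟩ => by fin_cases m <;> simp <;> ring

variable (T) in
/-- second coboundary of the links -/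
def b4_d1 (K : Type) [Field K] : (X2 × Fin 3 → K) →ₗ[K] (X3 × Fin 4 → K) where
  toFun c r := ![-c (T.d3 r.1 1, 0) + c (T.d3 r.1 2, 0) - c (T.d3 r.1 3, 0),
    c (T.d3 r.1 0, 0) + c (T.d3 r.1 2, 1) - c (T.d3 r.1 3, 1),
    c (T.d3 r.1 0, 1) - c (T.d3 r.1 1, 1) - c (T.d3 r.1 3, 2),
    c (T.d3 r.1 0, 2) - c (T.d3 r.1 1, 2) + c (T.d3 r.1 2, 2)] r.2
  map_add' s t := funext fun ⟨f, m⟩ => by fin_cases m <;> simp <;> ring
  map_smul' c s := funext fun ⟨f, m⟩ => by fin_cases m <;> simp <;> ring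

theorem b4_v (f : X2) : v1 T (T.d2 f 1) 0 = v2 T f 0 ∧ v1 T (T.d2 f 2) 0 = v2 T f 0 ∧
    v1 T (T.d2 f 0) 0 = v2 T f 1 ∧ v1 T (T.d2 f 2) 1 = v2 T f 1 ∧
    v1 T (T.d2 f 1) 1 = v2 T f 2 ∧ v1 T (T.d2 f 0) 1 = v2 T f 2 :=
  ⟨b1_v211 T f, rfl, b1_v201 T f, rfl, b1_v210 T f, rfl⟩

/-- the links of the vertices have Euler characteristic at least two -/
theorem sph_of (hD : Nv.Disc T) (mid : ∀ v, ∃ f, T.d1 (T.d2 f 2) 0 = v) (v : X0) :
    Nat.card {p : X2 × Fin 3 // v2 T p.1 p.2 = v} + 2 ≤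
      Nat.card {p : X1 × Fin 2 // v1 T p.1 p.2 = v} +
        Nat.card {p : X3 × Fin 4 // v3 T p.1 p.2 = v} := by
  classical
  have f2 : {p : X2 × Fin 3 | v2 T p.1 p.2 = v}.Finite :=
    ((b1_fin_v2 T v).prod (finite_univ (α := Fin 3))).subset fun p hp => ⟨⟨p.2, hp⟩, trivial⟩
  have f3 : {p : X3 × Fin 4 | v3 T p.1 p.2 = v}.Finite :=
    ((b1_fin_v3 T v).prod (finite_univ (α := Fin 4))).subset fun p hp => ⟨⟨p.2, hp⟩, trivial⟩
  have f1 : {p : X1 × Fin 2 | v1 T p.1 p.2 = v}.Finite := by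
    refine ((((b1_fin_v2 T v).prod (finite_univ (α := Fin 3))).image fun r => T.d2 r.1 r.2).prod
      (finite_univ (α := Fin 2))).subset fun p hp => ⟨?_, trivial⟩
    obtain ⟨e, b⟩ := p
    obtain ⟨f, i, rfl⟩ := pure_of mid e
    refine ⟨(f, i), ⟨?_, trivial⟩, rfl⟩
    fin_cases b
    · exact ⟨_, (b1_end_v2 T f i 1).symm.trans hp⟩
    · exact ⟨_, (b1_end_v2 T f i 0).symm.trans hp⟩
  have : Finite {p : X2 × Fin 3 // v2 T p.1 p.2 = v} := f2
  have : Finite {p : X3 × Fin 4 // v3 T p.1 p.2 = v} := f3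
  have : Finite {p : X1 × Fin 2 // v1 T p.1 p.2 = v} := f1
  have key : ∀ (s : X1 × Fin 2 → ZMod 2) (b : X2 × Fin 3), v2 T b.1 b.2 = v →
      b4_d0 T _ (b4_ext _ (fun p : X1 × Fin 2 => v1 T p.1 p.2 = v) fun p => s p.1) b =
        b4_d0 T _ s b := by
    rintro s ⟨f, m⟩ h
    obtain ⟨a1, a2, a3, a4, a5, a6⟩ := b4_v (T := T) f
    have z : ∀ e i, v1 T e i = v → b4_ext (ZMod 2) (fun p : X1 × Fin 2 => v1 T p.1 p.2 = v)
        (fun p => s p.1) (e, i) = s (e, i) := fun e i k => dif_pos k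
    fin_cases m
    · exact congrArg₂ (fun a b : ZMod 2 => a - b) (z _ _ (a1.trans h)) (z _ _ (a2.trans h))
    · exact congrArg₂ (fun a b : ZMod 2 => -a - b) (z _ _ (a3.trans h)) (z _ _ (a4.trans h))
    · exact congrArg₂ (fun a b : ZMod 2 => a - b) (z _ _ (a5.trans h)) (z _ _ (a6.trans h))
  refine b4_rank (K := ZMod 2)
    (LinearMap.funLeft _ _ Subtype.val ∘ₗ b4_d0 T _ ∘ₗ b4_ext _ _)
    (LinearMap.funLeft _ _ Subtype.val ∘ₗ b4_d1 T _ ∘ₗ b4_ext _ _) (fun c hc => ?_) ?_ ?_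
  · let c' := b4_ext _ (fun p : X2 × Fin 3 => v2 T p.1 p.2 = v) c
    have h : ∀ x i, b4_d1 T _ c' (x, i) = 0 := fun x i => by
      by_cases k : v3 T x i = v
      · exact congrFun hc ⟨(x, i), k⟩
      · have z : ∀ l m, l.succAbove m = i → c' (T.d3 x l, m) = 0 := fun l m e =>
          b4_neg _ fun h => k (by rw [← e, ← b1_v2_d3]; exact h)
        fin_cases i
        · show -c' (T.d3 x 1, 0) + c' (T.d3 x 2, 0) - c' (T.d3 x 3, 0) = 0
          rw [z 1 0 rfl, z 2 0 rfl, z 3 0 rfl]; rfl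
        · show c' (T.d3 x 0, 0) + c' (T.d3 x 2, 1) - c' (T.d3 x 3, 1) = 0
          rw [z 0 0 rfl, z 2 1 rfl, z 3 1 rfl]; rfl
        · show c' (T.d3 x 0, 1) - c' (T.d3 x 1, 1) - c' (T.d3 x 3, 2) = 0
          rw [z 0 1 rfl, z 1 1 rfl, z 3 2 rfl]; rfl
        · show c' (T.d3 x 0, 2) - c' (T.d3 x 1, 2) + c' (T.d3 x 2, 2) = 0
          rw [z 0 2 rfl, z 1 2 rfl, z 2 2 rfl]; rfl
    obtain ⟨s, t, hs⟩ := b1_link_coh hD c'
      (fun x => by
        have : -c' (T.d3 x 1, 0) + c' (T.d3 x 2, 0) - c' (T.d3 x 3, 0) = 0 := h x 0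
        linear_combination this)
      (fun x => by
        have : c' (T.d3 x 0, 0) + c' (T.d3 x 2, 1) - c' (T.d3 x 3, 1) = 0 := h x 1
        linear_combination -this)
      (fun x => by
        have : c' (T.d3 x 0, 1) - c' (T.d3 x 1, 1) - c' (T.d3 x 3, 2) = 0 := h x 2
        linear_combination this)
      fun x => by
        have : c' (T.d3 x 0, 2) - c' (T.d3 x 1, 2) + c' (T.d3 x 2, 2) = 0 := h x 3
        linear_combination -this
    refine ⟨fun p => ![s p.1.1, t p.1.1] p.1.2, funext fun b => ?_⟩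
    obtain ⟨⟨f, m⟩, hb⟩ := b
    refine (key (fun p => ![s p.1, t p.1] p.2) _ hb).trans (Eq.trans ?_ (b4_pos c hb))
    fin_cases m
    exacts [(hs f).1.symm, (hs f).2.1.symm, (hs f).2.2.symm]
  · intro h
    have h1 : (fun p : {p : X1 × Fin 2 // v1 T p.1 p.2 = v} => (1 : ZMod 2)) = 0 := by
      refine (Submodule.eq_bot_iff _).1 h _ (funext fun b => ?_)
      obtain ⟨⟨f, m⟩, hb⟩ := b
      refine (key (fun _ => 1) _ hb).trans ?_
      fin_cases m
      exacts [sub_self (1 : ZMod 2), (by decide : -(1 : ZMod 2) - 1 = 0), sub_self (1 : ZMod 2)]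
    obtain ⟨f, hf⟩ := mid v
    exact one_ne_zero (congrFun h1 ⟨(T.d2 f 2, 1), hf⟩)
  · intro h
    obtain ⟨f, hf⟩ := mid v
    let r := inc T (f, true)
    have hr : v3 T r.1 (r.2.succAbove 1) = v := by
      rw [← b1_v2_d3, b1_inc_d3]
      exact hf
    obtain ⟨c, hc⟩ := LinearMap.range_eq_top.1 h (Pi.single ⟨(r.1, r.2.succAbove 1), hr⟩ 1)
    let c' := b4_ext _ (fun p : X2 × Fin 3 => v2 T p.1 p.2 = v) c
    let U : X3 → Fin 4 → ZMod 2 := fun x i => if v3 T x i = v then 1 else 0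
    have hU : (support U).Finite := (b1_fin_v3 T v).subset fun x hx => by
      by_contra hn
      simp only [mem_setOf_eq, not_exists] at hn
      exact hx (funext fun i => if_neg (hn i))
    have h1 := lbd_pair (T := T) hU c'
    have h2 : ∀ b, lbd T U b = 0 := fun b => by
      rw [lbd_apply, isum_congr (g' := fun _ _ => if v2 T b.1 b.2 = v then 1 else 0)
        fun x k e => by simp only [U, ← b1_v2_d3, e]]
      simp only [isum, show (-1 : ZMod 2) = 1 from rfl, one_pow, one_mul]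
      split_ifs <;> rfl
    have h3 : ∀ x, ∑ k : Fin 4, (-1 : ZMod 2) ^ (k : ℕ) *
        ∑ m, U x (k.succAbove m) * c' (T.d3 x k, m) = ∑ i, U x i * b4_d1 T _ c' (x, i) := fun x => by
      simp only [Fin.sum_univ_four, Fin.sum_univ_three]
      show (-1) ^ 0 * (U x 1 * c' (T.d3 x 0, 0) + U x 2 * c' (T.d3 x 0, 1) + U x 3 * c' (T.d3 x 0, 2)) +
        (-1) ^ 1 * (U x 0 * c' (T.d3 x 1, 0) + U x 2 * c' (T.d3 x 1, 1) + U x 3 * c' (T.d3 x 1, 2)) +
        (-1) ^ 2 * (U x 0 * c' (T.d3 x 2, 0) + U x 1 * c' (T.d3 x 2, 1) + U x 3 * c' (T.d3 x 2, 2)) +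
        (-1) ^ 3 * (U x 0 * c' (T.d3 x 3, 0) + U x 1 * c' (T.d3 x 3, 1) + U x 2 * c' (T.d3 x 3, 2)) =
        U x 0 * (-c' (T.d3 x 1, 0) + c' (T.d3 x 2, 0) - c' (T.d3 x 3, 0)) +
        U x 1 * (c' (T.d3 x 0, 0) + c' (T.d3 x 2, 1) - c' (T.d3 x 3, 1)) +
        U x 2 * (c' (T.d3 x 0, 1) - c' (T.d3 x 1, 1) - c' (T.d3 x 3, 2)) +
        U x 3 * (c' (T.d3 x 0, 2) - c' (T.d3 x 1, 2) + c' (T.d3 x 2, 2))
      ring
    have h4 : ∀ x i, U x i * b4_d1 T _ c' (x, i) =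
        if (x, i) = (r.1, r.2.succAbove 1) then 1 else 0 := fun x i => by
      by_cases k : v3 T x i = v
      · have := congrFun hc ⟨(x, i), k⟩
        rw [Pi.single_apply] at this
        simp only [Subtype.mk.injEq] at this
        rw [← this]
        exact (congrArg (· * _) (if_pos k)).trans (one_mul _)
      · rw [if_neg fun e => k (by cases e; exact hr)]
        exact (congrArg (· * _) (if_neg k)).trans (zero_mul _)
    simp only [h2, zero_mul, finsum_zero, h3, h4] at h1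
    rw [finsum_eq_single _ r.1 fun y hy => by simp [hy]] at h1
    simp at h1

/-- the manifold hypotheses -/
theorem mfd_of (hD : Nv.Disc T) (mid : ∀ v, ∃ f, T.d1 (T.d2 f 2) 0 = v)
    (hc1 : ∀ z : X1 → ℝ, (support z).Finite → (∀ f, z (T.d2 f 1) = z (T.d2 f 2) + z (T.d2 f 0)) →
      ∃ s : X0 → ℝ, (support s).Finite ∧ ∀ e, z e = s (T.d1 e 0) - s (T.d1 e 1)) : Mfd T :=
  ⟨pure_of mid, sph_of hD mid, hD.sc, hc1, hc2_of hD⟩

end Pool.Agent.Work.MP_3d425c_gt.Bg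
end

-- merged part: Pool.Agent.Work.MP_3d425c_gt.Bg.Euler
section
/-! The boundary has twice the Euler characteristic. -/

namespace Pool.Agent.Work.MP_3d425c_gt.Bg
open Set Relation Pool.Agent.Work.MP_3d425c_gt.Md Pool.Agent.Work.MP_3d425c_gt.Cy

/-- a cell with an index -/
@[ext] structure EuP (A I : Type) : Type where
  c : A
  i : I

instance {D A I : Type} [Group D] [MulAction D A] : MulAction D (EuP A I) where
  smul g x := ⟨g • x.c, x.i⟩
  one_smul x := EuP.ext (one_smul D x.c) rfl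
  mul_smul g h x := EuP.ext (mul_smul g h x.c) rfl

/-- indexed cells with an invariant property -/
def euS (D : Type) {A I : Type} [Group D] [MulAction D A] (P : A → I → Prop)
    (hP : ∀ (g : D) c i, P c i → P (g • c) i) : SubMulAction D (EuP A I) :=
  ⟨{x | P x.c x.i}, fun g x h => hP g x.c x.i h⟩

theorem eu_fin {D A B : Type} [Group D] [MulAction D A] [MulAction D B] [Finite (Ob D B)]
    (f : A → B) (hf : ∀ (g : D) a, f (g • a) = g • f a) (hfin : ∀ b, {a | f a = b}.Finite) :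
    Finite (Ob D A) := by
  have : ∀ q : Ob D B, Finite {a // f a = q.out} := fun q => hfin q.out
  refine Finite.of_surjective (fun p : Σ q : Ob D B, {a // f a = q.out} => ob D p.2.1) fun w => ?_
  obtain ⟨a, rfl⟩ := ob_surj w
  obtain ⟨g, hg⟩ := ob_eq_iff.1 (ob_out (ob D (f a)))
  exact ⟨⟨ob D (f a), g • a, (hf g a).trans hg⟩, ob_smul g a⟩

open Classical in
/-- counting indexed cells cell by cell -/
theorem eu_idx {D A I : Type} [Group D] [MulAction D A] [Fintype I] (B : SubMulAction D A)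
    [Fintype (Ob D B)] (hB : ∀ (g : D) (b : B), g • b = b → g = 1) (P : A → I → Prop)
    (hP : ∀ (g : D) c i, P c i → P (g • c) i) (hm : ∀ c i, P c i → c ∈ B) :
    Finite (Ob D (euS D P hP)) ∧
      oc D (euS D P hP) = ∑ q : Ob D B, (Finset.univ.filter fun i => P q.out.1 i).card := by
  let f : euS D P hP → B := fun x => ⟨x.1.c, hm _ _ x.2⟩
  have hf : ∀ (g : D) a, f (g • a) = g • f a := fun g a => rfl
  have e : ∀ b : B, {a // f a = b} ≃ {i // P b.1 i} := fun b =>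
    { toFun := fun a => ⟨a.1.1.i, by
        have k : a.1.1.c = b.1 := congrArg Subtype.val a.2
        exact k ▸ a.1.2⟩
      invFun := fun i => ⟨⟨⟨b.1, i.1⟩, i.2⟩, rfl⟩
      left_inv := fun a => Subtype.ext (Subtype.ext
        (EuP.ext (congrArg Subtype.val a.2).symm rfl))
      right_inv := fun i => rfl }
  have hfin : ∀ b, {a | f a = b}.Finite := fun b => Finite.of_equiv _ (e b).symm
  refine ⟨eu_fin f hf hfin, (oc_fib hB f hf hfin).trans (Finset.sum_congr rfl fun q _ => ?_)⟩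
  rw [Nat.card_congr (e q.out), Nat.card_eq_fintype_card, Fintype.card_subtype]

open Classical in
/-- counting a subfamily -/
theorem eu_ind {D A : Type} [Group D] [MulAction D A] (B B' : SubMulAction D A)
    [Fintype (Ob D B)] (hB : ∀ (g : D) (b : B), g • b = b → g = 1) (hm : ∀ c, c ∈ B' → c ∈ B) :
    oc D B' = ∑ q : Ob D B, if q.out.1 ∈ B' then 1 else 0 := by
  let f : B' → B := fun x => ⟨x.1, hm _ x.2⟩
  have hf : ∀ (g : D) a, f (g • a) = g • f a := fun g a => rfl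
  have hs : ∀ b, {a | f a = b}.Subsingleton := fun b a ha a' ha' =>
    Subtype.ext (congrArg (fun x : B => x.1) (ha.trans ha'.symm))
  refine (oc_fib hB f hf fun b => (hs b).finite).trans (Finset.sum_congr rfl fun q _ => ?_)
  have : Subsingleton {a // f a = q.out} := ⟨fun a a' => Subtype.ext (hs _ a.2 a'.2)⟩
  split_ifs with h
  · exact Nat.card_eq_one_iff_unique.2 ⟨this, ⟨⟨⟨_, h⟩, rfl⟩⟩⟩
  · have : IsEmpty {a // f a = q.out} := ⟨fun a => h (by
      have k : a.1.1 = q.out.1 := congrArg Subtype.val a.2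
      exact k ▸ a.1.2)⟩
    exact Nat.card_of_isEmpty

variable {G X0 X1 X2 X3 : Type} [Group G] [MulAction G X0] [MulAction G X1] [MulAction G X2]
  [MulAction G X3] {T : Tri G X0 X1 X2 X3} {E : Subgroup G} {Ω : Type} [MulAction E Ω]

theorem eu_np_le {n : ℕ} (σ : Fin n → Option Ω) : np σ ≤ n :=
  (Finset.card_filter_le _ _).trans (by simp)

theorem eu_free (W : Et T E Ω) {X : Type} [MulAction E X] {n : ℕ}
    (B : SubMulAction E (X × (Fin n → Option Ω))) (hB : ∀ c ∈ B, 0 < np c.2) (g : E) (b : B)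
    (h : g • b = b) : g = 1 :=
  W.free_cell g (hB _ b.2) (congrArg (fun x : B => x.1.2) h)

/-- corners counted in two ways -/
theorem eu_corner (W : Et T E Ω) {X : Type} [MulAction E X] {n : ℕ}
    (V : X × (Fin n → Option Ω) → Prop) (hV : ∀ (g : E) c, V c → V (g • c)) (v : X → Fin n → X0)
    (B : SubMulAction E (X × (Fin n → Option Ω))) (hB : ∀ c, c ∈ B ↔ V c ∧ 0 < np c.2)
    [Fintype (Ob E B)] [Fintype (Ob E Ω)]
    (hpr : ∀ c i a, V c → c.2 i = some a → W.pr a = v c.1 i)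
    (hext : ∀ x i a, W.pr a = v x i → ∃! σ : Fin n → Option Ω, V (x, σ) ∧ σ i = some a) :
    ∑ q : Ob E Ω, Nat.card {p : X × Fin n // v p.1 p.2 = W.pr q.out} =
      ∑ q : Ob E B, np q.out.1.2 := by
  classical
  have hP : ∀ (g : E) (c : X × (Fin n → Option Ω)) (i : Fin n), (V c ∧ ∃ a, c.2 i = some a) →
      (V (g • c) ∧ ∃ a, (g • c).2 i = some a) := by
    rintro g c i ⟨h, a, ha⟩
    refine ⟨hV g c h, g • a, ?_⟩
    show g • c.2 i = _
    rw [ha]
    rfl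
  obtain ⟨fin, e1⟩ := eu_idx B (eu_free W B fun c hc => ((hB c).1 hc).2) _ hP fun c i h =>
    (hB c).2 ⟨h.1, Finset.card_pos.2 ⟨i, by
      obtain ⟨a, ha⟩ := h.2
      simp [ha]⟩⟩
  let f : euS E _ hP → Ω := fun x => x.2.2.choose
  have sp : ∀ x : euS E _ hP, x.1.c.2 x.1.i = some (f x) := fun x => x.2.2.choose_spec
  have hf : ∀ (g : E) x, f (g • x) = g • f x := fun g x => by
    have k := sp (g • x)
    have k' : (g • x).1.c.2 (g • x).1.i = g • x.1.c.2 x.1.i := rfl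
    rw [k', sp x] at k
    exact (Option.some.inj k).symm
  have e2 := oc_fib W.free f hf (fib_finite W.free f hf)
  refine Eq.trans (Finset.sum_congr rfl fun q _ => ?_) (e2.symm.trans (e1.trans
    (Finset.sum_congr rfl fun q _ => ?_)))
  · refine (Nat.card_eq_of_bijective (fun x : {x // f x = q.out} =>
      (⟨(x.1.1.c.1, x.1.1.i), (hpr _ _ _ x.1.2.1 ((sp x.1).trans (congrArg some x.2))).symm⟩ :
        {p : X × Fin n // v p.1 p.2 = W.pr q.out})) ⟨fun x y h => ?_, fun p => ?_⟩).symm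
    · have h' : (x.1.1.c.1, x.1.1.i) = (y.1.1.c.1, y.1.1.i) := congrArg Subtype.val h
      have h1 : x.1.1.c.1 = y.1.1.c.1 := (Prod.mk.inj h').1
      have h2 : x.1.1.i = y.1.1.i := (Prod.mk.inj h').2
      have k1 := (sp x.1).trans (congrArg some x.2)
      have k2 := (sp y.1).trans (congrArg some y.2)
      have k3 := (hext x.1.1.c.1 x.1.1.i q.out (hpr _ _ _ x.1.2.1 k1)).unique
        (y₁ := x.1.1.c.2) (y₂ := y.1.1.c.2) ⟨x.1.2.1, k1⟩ ⟨h1 ▸ y.1.2.1, h2 ▸ k2⟩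
      exact Subtype.ext (Subtype.ext (EuP.ext (Prod.ext h1 k3) h2))
    · obtain ⟨σ, ⟨h1, h2⟩, -⟩ := hext p.1.1 p.1.2 q.out p.2.symm
      let x : euS E _ hP := ⟨⟨(p.1.1, σ), p.1.2⟩, h1, _, h2⟩
      exact ⟨⟨x, Option.some.inj ((sp x).symm.trans h2)⟩, rfl⟩
  · unfold np
    refine congrArg Finset.card (Finset.ext fun i => ?_)
    have := ((hB _).1 q.out.2).1
    simp only [Finset.mem_filter, Finset.mem_univ, true_and, Option.isSome_iff_exists]
    exact ⟨fun h => h.2, fun h => ⟨this, h⟩⟩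

theorem eu_bool : ∀ b : Fin 4 → Bool, 0 < (Finset.univ.filter fun i => b i = true).card →
    2 * (Finset.univ.filter fun i => b i = true).card =
      2 * (if (Finset.univ.filter fun i => b i = true).card ≤ 3 then 1 else 0) +
      4 * (if 4 ≤ (Finset.univ.filter fun i => b i = true).card then 1 else 0) +
      (Finset.univ.filter fun k : Fin 4 =>
        2 ≤ (Finset.univ.filter fun i : Fin 3 => b (k.succAbove i) = true).card).card := by
  decide

theorem eu_face {n : ℕ} (σ : Fin (n + 1) → Option Ω) (k : Fin (n + 1))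
    (h : 0 < np fun i => σ (k.succAbove i)) : 0 < np σ := by
  obtain ⟨i, hi⟩ := Finset.card_pos.1 h
  exact Finset.card_pos.2 ⟨k.succAbove i, by simpa using hi⟩

theorem euler (hM : Mfd T) (W : Et T E Ω) [Finite (Ob E Ω)] :
    2 * (oc E Ω + oc E (W.C2 3 3)) + oc E (W.C2 1 2) ≤
      2 * (oc E (W.C1 2 2) + oc E (W.C3 4 4)) + oc E (W.C1 1 1) + oc E (W.C3 1 3) := by
  classical
  have i0 := Fintype.ofFinite (Ob E Ω)
  have j1 := hM.finC1 W one_pos 2
  have j2 := W.finC2 one_pos 3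
  have j3 := W.finC3 one_pos 4
  have j4 := W.finC2 two_pos 3
  have i1 := Fintype.ofFinite (Ob E (W.C1 1 2))
  have i2 := Fintype.ofFinite (Ob E (W.C2 1 3))
  have i3 := Fintype.ofFinite (Ob E (W.C3 1 4))
  have i4 := Fintype.ofFinite (Ob E (W.C2 2 3))
  have f1 := eu_free W (W.C1 1 2) fun c hc => hc.2.1
  have f2' := eu_free W (W.C2 1 3) fun c hc => hc.2.1
  have f3' := eu_free W (W.C3 1 4) fun c hc => hc.2.1
  have f4 := eu_free W (W.C2 2 3) fun c hc => two_pos.trans_le hc.2.1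
  have c1 := eu_corner W W.V1 (fun g c => W.V1_smul g) (v1 T) (W.C1 1 2)
    (fun c => ⟨fun h => ⟨h.1, h.2.1⟩, fun h => ⟨h.1, h.2, eu_np_le _⟩⟩)
    (fun c i a h ha => W.v1_pr h ha) fun x i a h => W.ext1 h
  have c2 := eu_corner W W.V2 (fun g c => W.V2_smul g) (v2 T) (W.C2 1 3)
    (fun c => ⟨fun h => ⟨h.1, h.2.1⟩, fun h => ⟨h.1, h.2, eu_np_le _⟩⟩)
    (fun c i a h ha => W.v2_pr h ha) fun x i a h => W.ext2 h
  have c3 := eu_corner W W.V3 (fun g c => W.V3_smul g) (v3 T) (W.C3 1 4)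
    (fun c => ⟨fun h => ⟨h.1, h.2.1⟩, fun h => ⟨h.1, h.2, eu_np_le _⟩⟩)
    (fun c i a h ha => W.v3_pr h ha) fun x i a h => W.ext3 h
  have s0 : ∑ q : Ob E (W.C2 1 3), np q.out.1.2 + 2 * oc E Ω ≤
      ∑ q : Ob E (W.C1 1 2), np q.out.1.2 + ∑ q : Ob E (W.C3 1 4), np q.out.1.2 := by
    rw [← c1, ← c2, ← c3, ← Finset.sum_add_distrib]
    refine le_trans (le_of_eq ?_) (Finset.sum_le_sum fun q _ => hM.sph (W.pr q.out))
    rw [Finset.sum_add_distrib, Finset.sum_const, Finset.card_univ, smul_eq_mul, mul_comm,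
      ← Nat.card_eq_fintype_card]
  have s1 : ∑ q : Ob E (W.C1 1 2), np q.out.1.2 = oc E (W.C1 1 1) + 2 * oc E (W.C1 2 2) := by
    rw [eu_ind (W.C1 1 2) (W.C1 1 1) f1 fun c h => ⟨h.1, h.2.1, h.2.2.trans one_le_two⟩,
      eu_ind (W.C1 1 2) (W.C1 2 2) f1 fun c h => ⟨h.1, one_le_two.trans h.2.1, h.2.2⟩,
      Finset.mul_sum, ← Finset.sum_add_distrib]
    refine Finset.sum_congr rfl fun q _ => ?_
    obtain ⟨h1, h2, h3⟩ := q.out.2
    have k : ∀ m n, q.out.1 ∈ W.C1 m n ↔ m ≤ np q.out.1.2 ∧ np q.out.1.2 ≤ n := fun m n =>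
      ⟨fun h => h.2, fun h => ⟨h1, h⟩⟩
    simp only [k]
    split_ifs <;> omega
  have s2 : ∑ q : Ob E (W.C2 1 3), np q.out.1.2 =
      oc E (W.C2 1 2) + 2 * oc E (W.C2 3 3) + oc E (W.C2 2 3) := by
    rw [eu_ind (W.C2 1 3) (W.C2 1 2) f2' fun c h => ⟨h.1, h.2.1, h.2.2.trans (by norm_num)⟩,
      eu_ind (W.C2 1 3) (W.C2 3 3) f2' fun c h => ⟨h.1, le_trans (by norm_num) h.2.1, h.2.2⟩,
      eu_ind (W.C2 1 3) (W.C2 2 3) f2' fun c h => ⟨h.1, le_trans (by norm_num) h.2.1, h.2.2⟩,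
      Finset.mul_sum, ← Finset.sum_add_distrib, ← Finset.sum_add_distrib]
    refine Finset.sum_congr rfl fun q _ => ?_
    obtain ⟨h1, h2, h3⟩ := q.out.2
    have k : ∀ m n, q.out.1 ∈ W.C2 m n ↔ m ≤ np q.out.1.2 ∧ np q.out.1.2 ≤ n := fun m n =>
      ⟨fun h => h.2, fun h => ⟨h1, h⟩⟩
    simp only [k]
    split_ifs <;> omega
  have hP : ∀ (g : E) (c : X3 × (Fin 4 → Option Ω)) (k : Fin 4),
      (W.V3 c ∧ 2 ≤ np (f3 T c k).2) → (W.V3 (g • c) ∧ 2 ≤ np (f3 T (g • c) k).2) :=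
    fun g c k h => ⟨W.V3_smul g h.1, (np_smul g (f3 T c k).2).symm ▸ h.2⟩
  obtain ⟨fin, e1⟩ := eu_idx (W.C3 1 4) f3' _ hP fun c k h =>
    ⟨h.1, eu_face c.2 k (two_pos.trans_le h.2), eu_np_le _⟩
  have s3 : 2 * ∑ q : Ob E (W.C3 1 4), np q.out.1.2 =
      2 * oc E (W.C3 1 3) + 4 * oc E (W.C3 4 4) + oc E (euS E _ hP) := by
    rw [eu_ind (W.C3 1 4) (W.C3 1 3) f3' fun c h => ⟨h.1, h.2.1, h.2.2.trans (by norm_num)⟩,
      eu_ind (W.C3 1 4) (W.C3 4 4) f3' fun c h => ⟨h.1, le_trans (by norm_num) h.2.1, h.2.2⟩,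
      e1, Finset.mul_sum, Finset.mul_sum, Finset.mul_sum, ← Finset.sum_add_distrib,
      ← Finset.sum_add_distrib]
    refine Finset.sum_congr rfl fun q _ => ?_
    obtain ⟨h1, h2, h3⟩ := q.out.2
    have k : ∀ m n, q.out.1 ∈ W.C3 m n ↔ m ≤ np q.out.1.2 ∧ np q.out.1.2 ≤ n := fun m n =>
      ⟨fun h => h.2, fun h => ⟨h1, h⟩⟩
    have k1 : q.out.1 ∈ W.C3 1 3 ↔ np q.out.1.2 ≤ 3 := (k 1 3).trans ⟨fun h => h.2, fun h => ⟨h2, h⟩⟩
    have k2 : q.out.1 ∈ W.C3 4 4 ↔ 4 ≤ np q.out.1.2 := (k 4 4).trans ⟨fun h => h.1, fun h => ⟨h, h3⟩⟩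
    simp only [k1, k2, h1, true_and]
    exact eu_bool (fun i => (q.out.1.2 i).isSome) h2
  have s4 : oc E (euS E _ hP) = 2 * oc E (W.C2 2 3) := by
    let f : euS E _ hP → W.C2 2 3 := fun x =>
      ⟨f3 T x.1.c x.1.i, x.2.1 x.1.i, x.2.2, eu_np_le _⟩
    have hf : ∀ (g : E) x, f (g • x) = g • f x := fun g x =>
      Subtype.ext (Et.f3_smul g x.1.c x.1.i)
    rw [oc_fib f4 f hf (fib_finite f4 f hf), mul_comm, oc, Nat.card_eq_fintype_card,
      ← Finset.card_univ, ← smul_eq_mul, ← Finset.sum_const]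
    refine Finset.sum_congr rfl fun q _ => ?_
    obtain ⟨h1, h2, h3⟩ := q.out.2
    obtain ⟨p, p', ne, hp⟩ := W.two h1 (two_pos.trans_le h2)
    have mk : ∀ r : (X3 × (Fin 4 → Option Ω)) × Fin 4, (r = p ∨ r = p') →
        ∃ x : {x // f x = q.out}, (x.1.1.c, x.1.1.i) = r := fun r hr => by
      obtain ⟨k1, k2⟩ := (hp r).2 hr
      exact ⟨⟨⟨⟨r.1, r.2⟩, k1, k2.symm ▸ h2⟩, Subtype.ext k2⟩, rfl⟩
    obtain ⟨x, hx⟩ := mk p (.inl rfl)
    obtain ⟨y, hy⟩ := mk p' (.inr rfl)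
    have inj : ∀ z w : {x // f x = q.out}, (z.1.1.c, z.1.1.i) = (w.1.1.c, w.1.1.i) → z = w :=
      fun z w h => Subtype.ext (Subtype.ext (EuP.ext (congrArg Prod.fst h) (congrArg Prod.snd h)))
    refine Nat.card_eq_two_iff.2 ⟨x, y, fun h => ne (hx.symm.trans (h ▸ hy)), ?_⟩
    refine eq_univ_of_forall fun z => ?_
    rcases (hp (z.1.1.c, z.1.1.i)).1 ⟨z.1.2.1, congrArg Subtype.val z.2⟩ with h | h
    · exact .inl (inj z x (h.trans hx.symm))
    · exact .inr (inj z y (h.trans hy.symm))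
  omega

end Pool.Agent.Work.MP_3d425c_gt.Bg
end

-- merged part: Pool.Agent.Work.MP_3d425c_gt.Bq.Dual1
section
/-! Links are connected, so their Euler characteristic is exactly two. -/

namespace Pool.Agent.Work.MP_3d425c_gt.Bg
open Set Function Module Pool.Agent.Work.MP_3d425c_gt.Md

variable {G X0 X1 X2 X3 : Type} [Group G] [MulAction G X0] [MulAction G X1] [MulAction G X2]
  [MulAction G X3] {T : Tri G X0 X1 X2 X3} {K : Type} [Field K]

/-- a function on edge ends that is constant along the links depends on the vertex only -/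
theorem link_conn1 (hD : Nv.Disc T) (s : X1 × Fin 2 → K)
    (h : ∀ f, s (T.d2 f 1, 0) = s (T.d2 f 2, 0) ∧ s (T.d2 f 0, 0) = s (T.d2 f 2, 1) ∧
      s (T.d2 f 1, 1) = s (T.d2 f 0, 1)) :
    ∃ σ : X0 → K, ∀ f i b, s (T.d2 f i, b) = σ (v1 T (T.d2 f i) b) := by
  obtain ⟨σ', hσ⟩ := hD.sc (Multiplicative K) (fun e => Multiplicative.ofAdd (s (e, 0) - s (e, 1)))
    fun f => by
      rw [← ofAdd_add, (h f).1, (h f).2.1, (h f).2.2]
      congr 1
      ring
  obtain ⟨σ, hσ⟩ : ∃ σ : X0 → K, ∀ e, s (e, 0) - s (e, 1) = σ (T.d1 e 1) - σ (T.d1 e 0) :=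
    ⟨fun v => (σ' v).toAdd, fun e => (congrArg Multiplicative.toAdd (hσ e)).trans
      (sub_eq_add_neg _ _).symm⟩
  let κ : X1 → K := fun e => s (e, 0) - σ (T.d1 e 1)
  have h1 : ∀ f i, κ (T.d2 f i) = κ (T.d2 f 2) := fun f i => by
    fin_cases i
    · show s (T.d2 f 0, 0) - σ (T.d1 (T.d2 f 0) 1) = s (T.d2 f 2, 0) - σ (T.d1 (T.d2 f 2) 1)
      rw [(h f).2.1, sb]
      linear_combination -hσ (T.d2 f 2)
    · show s (T.d2 f 1, 0) - σ (T.d1 (T.d2 f 1) 1) = s (T.d2 f 2, 0) - σ (T.d1 (T.d2 f 2) 1)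
      rw [(h f).1, sa]
    · rfl
  have h2 := T.const_face (fun f => κ (T.d2 f 2)) fun x k => by
    fin_cases k
    · rfl
    · exact (h1 _ 0).symm.trans ((congrArg κ (b1_ecd T x)).trans (h1 _ 0))
    · exact (h1 _ 0).symm.trans ((congrArg κ (b1_ebd T x)).trans (h1 _ 1))
    · exact (h1 _ 0).symm.trans (congrArg κ (b1_ebc T x))
  obtain ⟨x⟩ := T.ne
  refine ⟨fun v => σ v + κ (T.d2 (T.d3 x 0) 2), fun f i b => ?_⟩
  have h3 : s (T.d2 f i, 0) - σ (T.d1 (T.d2 f i) 1) = κ (T.d2 (T.d3 x 0) 2) :=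
    (h1 f i).trans (h2 f _)
  fin_cases b
  · show s (T.d2 f i, 0) = σ (T.d1 (T.d2 f i) 1) + _
    linear_combination h3
  · show s (T.d2 f i, 1) = σ (T.d1 (T.d2 f i) 0) + _
    linear_combination h3 - hσ (T.d2 f i)

/-- a function on corners of tetrahedra that agrees across faces depends on the vertex only -/
theorem link_conn3 (hD : Nv.Disc T) (U : X3 → Fin 4 → K)
    (h : ∀ x k y l m, T.d3 x k = T.d3 y l → U x (k.succAbove m) = U y (l.succAbove m)) :
    ∃ σ : X0 → K, ∀ x i, U x i = σ (v3 T x i) := by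
  classical
  let Q : X2 → Fin 3 → K := fun f m => U (inc T (f, true)).1 ((inc T (f, true)).2.succAbove m)
  have hQ : ∀ x k m, Q (T.d3 x k) m = U x (k.succAbove m) := fun x k m =>
    h _ _ _ _ m (b1_inc_d3 T _ _)
  have wd : ∀ (b : Fin 2) (p q : X2 × Fin 3), T.d2 p.1 p.2 = T.d2 q.1 q.2 →
      Q p.1 (p.2.succAbove b) = Q q.1 (q.2.succAbove b) := by
    intro b p q e
    have := T.link p q e
    clear e
    induction this with
    | rel p q h =>
      obtain ⟨x, i, j, hij, rfl, rfl⟩ := h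
      have a : ∀ i j : Fin 3, i ≤ j → ∀ b : Fin 2, j.succ.succAbove (i.succAbove b) =
        i.castSucc.succAbove (j.succAbove b) := by decide
      simp only [hQ, a i j hij]
    | refl => rfl
    | symm _ _ _ ih => exact ih.symm
    | trans _ _ _ _ _ i j => exact i.trans j
  let s : X1 × Fin 2 → K := fun r => if h : ∃ p : X2 × Fin 3, T.d2 p.1 p.2 = r.1 then
    Q h.choose.1 (h.choose.2.succAbove r.2) else 0
  have hs : ∀ f i b, s (T.d2 f i, b) = Q f (i.succAbove b) := fun f i b => by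
    have h : ∃ p : X2 × Fin 3, T.d2 p.1 p.2 = T.d2 f i := ⟨(f, i), rfl⟩
    exact (dif_pos h).trans (wd b _ (f, i) h.choose_spec)
  obtain ⟨σ, hσ⟩ := link_conn1 hD s fun f => by
    simp only [hs]
    exact ⟨rfl, rfl, rfl⟩
  refine ⟨σ, fun x i => ?_⟩
  obtain ⟨k, j, b, rfl⟩ := (by decide : ∀ i : Fin 4, ∃ (k : Fin 4) (j : Fin 3) (b : Fin 2),
    k.succAbove (j.succAbove b) = i) i
  rw [← hQ, ← hs, hσ, ce_v21, ce_v32]

theorem du_perp {B : Type} [Fintype B] (S : Submodule K (B → K)) :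
    ∃ Z : Submodule K (B → K), finrank K S + finrank K Z = Nat.card B ∧
      ∀ c, c ∈ Z ↔ ∀ s ∈ S, ∑ b, c b * s b = 0 := by
  classical
  refine ⟨S.dualAnnihilator.map (dotProductEquiv K B).symm.toLinearMap, ?_, fun c => ?_⟩
  · rw [LinearEquiv.finrank_map_eq, Subspace.finrank_add_finrank_dualAnnihilator_eq,
      finrank_fintype_fun_eq_card, Nat.card_eq_fintype_card]
  · rw [Submodule.mem_map_equiv, LinearEquiv.symm_symm, Submodule.mem_dualAnnihilator]
    rfl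

theorem du_const {A B : Type} [Finite A] (d : (A → K) →ₗ[K] (B → K))
    (h : ∀ s, d s = 0 → ∀ a a', s a = s a') : Nat.card A ≤ finrank K (LinearMap.range d) + 1 := by
  have := Fintype.ofFinite A
  have a1 := d.finrank_range_add_finrank_ker
  have a2 : LinearMap.ker d ≤ K ∙ (fun _ => 1) := fun s hs => Submodule.mem_span_singleton.2 (by
    cases isEmpty_or_nonempty A with
    | inl _ => exact ⟨0, Subsingleton.elim _ _⟩
    | inr n => exact ⟨s n.some, funext fun a => (mul_one _).trans (h s hs _ _)⟩)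
  have a3 := (Submodule.finrank_mono a2).trans (finrank_span_le_card _)
  rw [finrank_fintype_fun_eq_card] at a1
  rw [toFinset_singleton, Finset.card_singleton] at a3
  rw [Nat.card_eq_fintype_card]
  omega

theorem lbd_pair' {U : X3 → Fin 4 → K} (hU : (support U).Finite) (c : X2 × Fin 3 → K) :
    ∑ᶠ b, lbd T U b * c b = ∑ᶠ x, ∑ i, U x i * b4_d1 T K c (x, i) := by
  rw [lbd_pair hU]
  refine finsum_congr fun x => ?_
  simp only [Fin.sum_univ_four, Fin.sum_univ_three]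
  show (-1) ^ 0 * (U x 1 * c (T.d3 x 0, 0) + U x 2 * c (T.d3 x 0, 1) + U x 3 * c (T.d3 x 0, 2)) +
    (-1) ^ 1 * (U x 0 * c (T.d3 x 1, 0) + U x 2 * c (T.d3 x 1, 1) + U x 3 * c (T.d3 x 1, 2)) +
    (-1) ^ 2 * (U x 0 * c (T.d3 x 2, 0) + U x 1 * c (T.d3 x 2, 1) + U x 3 * c (T.d3 x 2, 2)) +
    (-1) ^ 3 * (U x 0 * c (T.d3 x 3, 0) + U x 1 * c (T.d3 x 3, 1) + U x 2 * c (T.d3 x 3, 2)) =
    U x 0 * (-c (T.d3 x 1, 0) + c (T.d3 x 2, 0) - c (T.d3 x 3, 0)) +
    U x 1 * (c (T.d3 x 0, 0) + c (T.d3 x 2, 1) - c (T.d3 x 3, 1)) +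
    U x 2 * (c (T.d3 x 0, 1) - c (T.d3 x 1, 1) - c (T.d3 x 3, 2)) +
    U x 3 * (c (T.d3 x 0, 2) - c (T.d3 x 1, 2) + c (T.d3 x 2, 2))
  ring

theorem du_dd (s : X1 × Fin 2 → K) (r : X3 × Fin 4) : b4_d1 T K (b4_d0 T K s) r = 0 := by
  obtain ⟨x, i⟩ := r
  fin_cases i <;>
    simp [b4_d1, b4_d0, b1_ecd, b1_ebd, b1_ebc, b1_ead, b1_eac, b1_eab]
  ring

theorem isum_eq (g : X3 → Fin 4 → K) {x y : X3} {k l : Fin 4} (e : T.d3 x k = T.d3 y l)
    (n : (x, k) ≠ (y, l)) :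
    isum T g (T.d3 x k) = (-1) ^ (k : ℕ) * g x k + (-1) ^ (l : ℕ) * g y l := by
  obtain ⟨c, hc⟩ := b1_inc_surj T x k
  obtain ⟨d, hd⟩ := b1_inc_surj T y l
  rw [← e] at hd
  cases c <;> cases d
  · exact absurd (hc.symm.trans hd) n
  · rw [isum, hc, hd, add_comm]
  · rw [isum, hc, hd]
  · exact absurd (hc.symm.trans hd) n

/-- the links of the vertices have Euler characteristic at most two -/
theorem sph_le (hD : Nv.Disc T) (pure : ∀ e, ∃ f i, T.d2 f i = e) (v : X0) :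
    Nat.card {p : X1 × Fin 2 // v1 T p.1 p.2 = v} + Nat.card {p : X3 × Fin 4 // v3 T p.1 p.2 = v} ≤
      Nat.card {p : X2 × Fin 3 // v2 T p.1 p.2 = v} + 2 := by
  classical
  have f2 : {p : X2 × Fin 3 | v2 T p.1 p.2 = v}.Finite :=
    ((b1_fin_v2 T v).prod (finite_univ (α := Fin 3))).subset fun p hp => ⟨⟨p.2, hp⟩, trivial⟩
  have f3 : {p : X3 × Fin 4 | v3 T p.1 p.2 = v}.Finite :=
    ((b1_fin_v3 T v).prod (finite_univ (α := Fin 4))).subset fun p hp => ⟨⟨p.2, hp⟩, trivial⟩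
  have f1 : {p : X1 × Fin 2 | v1 T p.1 p.2 = v}.Finite := by
    refine ((((b1_fin_v2 T v).prod (finite_univ (α := Fin 3))).image fun r => T.d2 r.1 r.2).prod
      (finite_univ (α := Fin 2))).subset fun p hp => ⟨?_, trivial⟩
    obtain ⟨e, b⟩ := p
    obtain ⟨f, i, rfl⟩ := pure e
    exact ⟨(f, i), ⟨⟨_, (ce_v21 T f i b).symm.trans hp⟩, trivial⟩, rfl⟩
  have : Finite {p : X2 × Fin 3 // v2 T p.1 p.2 = v} := f2
  have : Finite {p : X3 × Fin 4 // v3 T p.1 p.2 = v} := f3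
  have : Finite {p : X1 × Fin 2 // v1 T p.1 p.2 = v} := f1
  have := Fintype.ofFinite {p : X2 × Fin 3 // v2 T p.1 p.2 = v}
  let r := LinearMap.funLeft (ZMod 2) (ZMod 2)
    (Subtype.val : {p : X2 × Fin 3 // v2 T p.1 p.2 = v} → _)
  let d := r ∘ₗ b4_d0 T _ ∘ₗ b4_ext (ZMod 2) fun p : X1 × Fin 2 => v1 T p.1 p.2 = v
  let d' := r ∘ₗ lbd T ∘ₗ (LinearEquiv.curry (ZMod 2) (ZMod 2) X3 (Fin 4)).toLinearMap ∘ₗ
    b4_ext (ZMod 2) fun p : X3 × Fin 4 => v3 T p.1 p.2 = v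
  have neg : ∀ n : ℕ, (-1 : ZMod 2) ^ n = 1 := fun n => by
    rw [show (-1 : ZMod 2) = 1 from rfl, one_pow]
  have ch : ∀ a b : ZMod 2, a + b = 0 → a = b := by decide
  have off : ∀ (U : {p : X3 × Fin 4 // v3 T p.1 p.2 = v} → ZMod 2) (b : X2 × Fin 3),
      v2 T b.1 b.2 ≠ v → lbd T (curry (b4_ext _ _ U)) b = 0 := fun U b hb => by
    refine (isum_congr (g' := fun _ _ => 0) fun x k e =>
      b4_neg U (a := (x, k.succAbove b.2)) fun h => hb (by rw [← e, b1_v2_d3]; exact h)).trans ?_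
    simp [isum]
  have a1 := du_const d fun s hs => by
    have h0 : ∀ f m, b4_d0 T _ (b4_ext _ _ s) (f, m) = 0 := fun f m => by
      by_cases k : v2 T f m = v
      · exact congrFun hs ⟨(f, m), k⟩
      · obtain ⟨a1, a2, a3, a4, a5, a6⟩ := b4_v (T := T) f
        have z : ∀ e i, v1 T e i = v2 T f m → b4_ext (ZMod 2) _ s (e, i) = 0 := fun e i h =>
          b4_neg _ fun h' => k (h.symm.trans h')
        fin_cases m
        · exact (congrArg₂ (fun a b : ZMod 2 => a - b) (z _ _ a1) (z _ _ a2)).trans rfl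
        · exact (congrArg₂ (fun a b : ZMod 2 => -a - b) (z _ _ a3) (z _ _ a4)).trans rfl
        · exact (congrArg₂ (fun a b : ZMod 2 => a - b) (z _ _ a5) (z _ _ a6)).trans rfl
    obtain ⟨σ, hσ⟩ := link_conn1 hD (b4_ext _ _ s) fun f =>
      ⟨sub_eq_zero.1 (h0 f 0), (by decide : ∀ a b : ZMod 2, -a - b = 0 → a = b) _ _ (h0 f 1),
        sub_eq_zero.1 (h0 f 2)⟩
    have k : ∀ a, s a = σ v := by
      rintro ⟨⟨e, b⟩, h⟩
      obtain ⟨f, i, rfl⟩ := pure e
      exact (b4_pos s h).symm.trans ((hσ f i b).trans (congrArg σ h))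
    exact fun a a' => (k a).trans (k a').symm
  have a2 := du_const d' fun U hU => by
    have h0 : ∀ f m, lbd T (curry (b4_ext _ _ U)) (f, m) = 0 := fun f m => by
      by_cases k : v2 T f m = v
      · exact congrFun hU ⟨(f, m), k⟩
      · exact off U _ k
    obtain ⟨σ, hσ⟩ := link_conn3 hD (curry (b4_ext _ _ U)) fun x k y l m e => by
      by_cases n : (x, k) = (y, l)
      · cases n
        rfl
      · have := h0 (T.d3 x k) m
        rw [lbd_apply, isum_eq _ e n, neg, neg, one_mul, one_mul] at this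
        exact ch _ _ this
    have k : ∀ a, U a = σ v := by
      rintro ⟨⟨x, i⟩, h⟩
      exact (b4_pos U h).symm.trans ((hσ x i).trans (congrArg σ h))
    exact fun a a' => (k a).trans (k a').symm
  obtain ⟨Z, z1, z2⟩ := du_perp (LinearMap.range d)
  have a3 : LinearMap.range d' ≤ Z := by
    rintro _ ⟨U, rfl⟩
    refine (z2 _).2 ?_
    rintro _ ⟨s, rfl⟩
    have hU : (support (curry (b4_ext _ _ U))).Finite := (b1_fin_v3 T v).subset fun x hx => by
      by_contra hn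
      simp only [mem_setOf_eq, not_exists] at hn
      exact hx (funext fun i => b4_neg U (hn i))
    have h1 := lbd_pair' (T := T) hU (b4_d0 T _ (b4_ext _ _ s))
    simp only [du_dd, mul_zero, Finset.sum_const_zero, finsum_zero] at h1
    rw [← finsum_eq_sum_of_fintype]
    refine Eq.trans ?_ h1
    refine (finsum_subtype_eq_finsum_cond (f := fun b => lbd T (curry (b4_ext _ _ U)) b *
      b4_d0 T _ (b4_ext _ _ s) b) _).trans (finsum_congr fun b => ?_)
    rw [finsum_eq_if]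
    split_ifs with h
    · rfl
    · rw [off U b h, zero_mul]
  have a4 := Submodule.finrank_mono a3
  omega

/-- the links of the vertices have Euler characteristic two -/
theorem sph_eq (hD : Nv.Disc T) (mid : ∀ v, ∃ f, T.d1 (T.d2 f 2) 0 = v) (v : X0) :
    Nat.card {p : X2 × Fin 3 // v2 T p.1 p.2 = v} + 2 =
      Nat.card {p : X1 × Fin 2 // v1 T p.1 p.2 = v} +
        Nat.card {p : X3 × Fin 4 // v3 T p.1 p.2 = v} :=
  le_antisymm (sph_of hD mid v) (sph_le hD (pure_of mid) v)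

end Pool.Agent.Work.MP_3d425c_gt.Bg
end
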