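import Pool.Agent.Work.MP_3d425c_gt.Bg.Base
import Pool.Agent.Work.MP_3d425c_gt.Bg.Euler

/-! Links are connected, so the boundary has at most twice the Euler characteristic. -/

namespace Pool.Agent.Work.MP_3d425c_gt.Bg
open Set Relation Function Module Pool.Agent.Work.MP_3d425c_gt.Md Pool.Agent.Work.MP_3d425c_gt.Cy

variable {G X0 X1 X2 X3 : Type} [Group G] [MulAction G X0] [MulAction G X1] [MulAction G X2]
  [MulAction G X3] {T : Tri G X0 X1 X2 X3}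

/-- the links are connected -/
theorem el_k0 (hM : Mfd T) {β : Type} (S : X1 × Fin 2 → β)
    (h0 : ∀ f, S (T.d2 f 1, 0) = S (T.d2 f 2, 0)) (h1 : ∀ f, S (T.d2 f 0, 0) = S (T.d2 f 2, 1))
    (h2 : ∀ f, S (T.d2 f 1, 1) = S (T.d2 f 0, 1)) (p q : X1 × Fin 2)
    (e : v1 T p.1 p.2 = v1 T q.1 q.2) : S p = S q := by
  classical
  obtain ⟨R, hR⟩ : ∃ R : X1 × Fin 2 → ℝ, R = fun r => if S r = S p then 1 else 0 := ⟨_, rfl⟩
  have a0 : ∀ f, R (T.d2 f 1, 0) = R (T.d2 f 2, 0) := fun f => by simp only [hR, h0]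
  have a1 : ∀ f, R (T.d2 f 0, 0) = R (T.d2 f 2, 1) := fun f => by simp only [hR, h1]
  have a2 : ∀ f, R (T.d2 f 1, 1) = R (T.d2 f 0, 1) := fun f => by simp only [hR, h2]
  obtain ⟨s, hs⟩ := T.h1 (fun e => R (e, 1) - R (e, 0)) fun f => by
    rw [a0, a1, a2]
    ring
  let τ : X1 → ℝ := fun e => R (e, 0) - s (T.d1 e 1)
  have t1 : ∀ e i, R (e, i) = τ e + s (v1 T e i) := fun e i => by
    fin_cases i
    · exact (sub_add_cancel _ _).symm
    · show R (e, 1) = R (e, 0) - s (T.d1 e 1) + s (T.d1 e 0)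
      linarith [hs e]
  have t2 : ∀ f i, τ (T.d2 f i) = τ (T.d2 f 2) := fun f i => by
    obtain ⟨b1, b2, b3, b4, -⟩ := b4_v (T := T) f
    fin_cases i
    · have := a1 f
      rw [t1, t1, b3, b4] at this
      exact add_right_cancel this
    · have := a0 f
      rw [t1, t1, b1, b2] at this
      exact add_right_cancel this
    · rfl
  have t3 : ∀ x k, τ (T.d2 (T.d3 x k) 2) = τ (T.d2 (T.d3 x 0) 2) := fun x k => by
    fin_cases k
    · rfl
    · exact (t2 _ 0).symm.trans ((congrArg τ (b1_ecd T x)).trans (t2 _ 0))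
    · exact (t2 _ 0).symm.trans ((congrArg τ (b1_ebd T x)).trans (t2 _ 1))
    · exact (t2 _ 0).symm.trans (congrArg τ (b1_ebc T x))
  have t4 : ∀ x y, τ (T.d2 (T.d3 x 0) 2) = τ (T.d2 (T.d3 y 0) 2) := fun x y => by
    induction T.conn x y with
    | rel x y h =>
      obtain ⟨k, l, h⟩ := h
      rw [← t3 x k, h, t3]
    | refl => rfl
    | symm _ _ _ ih => exact ih.symm
    | trans _ _ _ _ _ i j => exact i.trans j
  have t5 : ∀ e, ∃ x, τ e = τ (T.d2 (T.d3 x 0) 2) := fun e => by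
    obtain ⟨f, i, rfl⟩ := hM.pure e
    obtain ⟨x, k, rfl⟩ := T.face_surj f
    exact ⟨x, (t2 _ i).trans (t3 x k)⟩
  obtain ⟨x, hx⟩ := t5 p.1
  obtain ⟨y, hy⟩ := t5 q.1
  have k : R (q.1, q.2) = R (p.1, p.2) := by rw [t1, t1, e, hx, hy, t4 x y]
  by_contra n
  simp [hR, Ne.symm n] at k

/-- the links are strongly connected -/
theorem el_k2 (hM : Mfd T) {β : Type} (U : X3 × Fin 4 → β)
    (h : ∀ x k y l (m : Fin 3), T.d3 x k = T.d3 y l → U (x, k.succAbove m) = U (y, l.succAbove m))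
    (p q : X3 × Fin 4) (e : v3 T p.1 p.2 = v3 T q.1 q.2) : U p = U q := by
  choose fx fk hf using T.face_surj
  choose ef ek he using hM.pure
  let F : X2 → Fin 3 → β := fun f m => U (fx f, (fk f).succAbove m)
  have F1 : ∀ x k m, F (T.d3 x k) m = U (x, k.succAbove m) := fun x k m => h _ _ _ _ m (hf _)
  have F2 : ∀ (p q : X2 × Fin 3) (i : Fin 2), T.d2 p.1 p.2 = T.d2 q.1 q.2 →
      F p.1 (p.2.succAbove i) = F q.1 (q.2.succAbove i) := by
    intro p q b e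
    have := T.link p q e
    clear e
    induction this with
    | rel p q h =>
      obtain ⟨x, i, j, hij, rfl, rfl⟩ := h
      have a : ∀ i j : Fin 3, i ≤ j → ∀ b : Fin 2, j.succ.succAbove (i.succAbove b) =
        i.castSucc.succAbove (j.succAbove b) := by decide
      simp only [F1, a i j hij]
    | refl => rfl
    | symm _ _ _ ih => exact ih.symm
    | trans _ _ _ _ _ i j => exact i.trans j
  let S : X1 × Fin 2 → β := fun r => F (ef r.1) ((ek r.1).succAbove r.2)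
  have S1 : ∀ f k i, S (T.d2 f k, i) = F f (k.succAbove i) := fun f k i =>
    F2 (ef _, ek _) (f, k) i (he _)
  have S2 := el_k0 hM S (fun f => (S1 f 1 0).trans (S1 f 2 0).symm)
    (fun f => (S1 f 0 0).trans (S1 f 2 1).symm) fun f => (S1 f 1 1).trans (S1 f 0 1).symm
  have S3 : ∀ r : X3 × Fin 4, ∃ t : X1 × Fin 2, U r = S t ∧ v1 T t.1 t.2 = v3 T r.1 r.2 := by
    rintro ⟨x, j⟩
    obtain ⟨k, l, i, rfl⟩ := (by decide : ∀ j : Fin 4, ∃ (k : Fin 4) (l : Fin 3) (i : Fin 2),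
      k.succAbove (l.succAbove i) = j) j
    exact ⟨(T.d2 (T.d3 x k) l, i), ((S1 _ l i).trans (F1 x k _)).symm,
      (ce_v21 T _ l i).trans (ce_v32 T x k _)⟩
  obtain ⟨t, a, b⟩ := S3 p
  obtain ⟨t', a', b'⟩ := S3 q
  rw [a, a', S2 t t' (b.trans (e.trans b'.symm))]

theorem el_one {K A W : Type} [Field K] [Finite A] [AddCommGroup W] [Module K W]
    (d : (A → K) →ₗ[K] W) (h : ∀ s, d s = 0 → ∀ a b, s a = s b) :
    Nat.card A ≤ finrank K (LinearMap.range d) + 1 := by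
  have := Fintype.ofFinite A
  have a1 := d.finrank_range_add_finrank_ker
  have a2 : LinearMap.ker d ≤ K ∙ (1 : A → K) := fun s hs => by
    rcases isEmpty_or_nonempty A with _ | ⟨⟨a⟩⟩
    · rw [Subsingleton.elim s 0]
      exact Submodule.zero_mem _
    · exact Submodule.mem_span_singleton.2 ⟨s a, funext fun b => by simp [h s hs a b]⟩
  have a3 := (Submodule.finrank_mono a2).trans (finrank_span_le_card ({1} : Set (A → K)))
  rw [finrank_fintype_fun_eq_card] at a1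
  simp only [toFinset_singleton, Finset.card_singleton] at a3
  rw [Nat.card_eq_fintype_card]
  omega

theorem el_orth {K B : Type} [Field K] [Fintype B] (P Q : Submodule K (B → K))
    (h : ∀ p ∈ P, ∀ q ∈ Q, q ⬝ᵥ p = 0) : finrank K P + finrank K Q ≤ Nat.card B := by
  classical
  have a1 := Subspace.finrank_add_finrank_dualAnnihilator_eq P
  have a2 : Q.map (dotProductEquiv K B).toLinearMap ≤ P.dualAnnihilator := by
    rintro _ ⟨q, hq, rfl⟩
    exact (Submodule.mem_dualAnnihilator _).2 fun p hp => h p hp q hq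
  have a3 := Submodule.finrank_mono a2
  rw [LinearEquiv.finrank_map_eq] at a3
  rw [finrank_fintype_fun_eq_card] at a1
  rw [Nat.card_eq_fintype_card]
  omega

/-- the links of the vertices have Euler characteristic at most two -/
theorem el_sph (hM : Mfd T) (v : X0) :
    Nat.card {p : X1 × Fin 2 // v1 T p.1 p.2 = v} + Nat.card {p : X3 × Fin 4 // v3 T p.1 p.2 = v} ≤
      Nat.card {p : X2 × Fin 3 // v2 T p.1 p.2 = v} + 2 := by
  classical
  have f2 : {p : X2 × Fin 3 | v2 T p.1 p.2 = v}.Finite :=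
    ((b1_fin_v2 T v).prod (finite_univ (α := Fin 3))).subset fun p hp => ⟨⟨p.2, hp⟩, trivial⟩
  have f3 : {p : X3 × Fin 4 | v3 T p.1 p.2 = v}.Finite :=
    ((b1_fin_v3 T v).prod (finite_univ (α := Fin 4))).subset fun p hp => ⟨⟨p.2, hp⟩, trivial⟩
  have f1 : {p : X1 × Fin 2 | v1 T p.1 p.2 = v}.Finite := by
    refine (((hM.edges_finite v 1).union (hM.edges_finite v 0)).prod
      (finite_univ (α := Fin 2))).subset ?_
    rintro ⟨e, i⟩ hp
    fin_cases i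
    · exact ⟨Or.inl hp, trivial⟩
    · exact ⟨Or.inr hp, trivial⟩
  have : Finite {p : X2 × Fin 3 // v2 T p.1 p.2 = v} := f2
  have : Finite {p : X3 × Fin 4 // v3 T p.1 p.2 = v} := f3
  have : Finite {p : X1 × Fin 2 // v1 T p.1 p.2 = v} := f1
  have := Fintype.ofFinite {p : X2 × Fin 3 // v2 T p.1 p.2 = v}
  let cu : (X3 × Fin 4 → ZMod 2) →ₗ[ZMod 2] (X3 → Fin 4 → ZMod 2) :=
    ⟨⟨fun U x i => U (x, i), fun _ _ => rfl⟩, fun _ _ => rfl⟩
  let e1 := b4_ext (ZMod 2) fun p : X1 × Fin 2 => v1 T p.1 p.2 = v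
  let e3 := b4_ext (ZMod 2) fun p : X3 × Fin 4 => v3 T p.1 p.2 = v
  let rs : (X2 × Fin 3 → ZMod 2) →ₗ[ZMod 2] ({p : X2 × Fin 3 // v2 T p.1 p.2 = v} → ZMod 2) :=
    LinearMap.funLeft _ _ Subtype.val
  have off : ∀ c (b : X2 × Fin 3), v2 T b.1 b.2 ≠ v → lbd T (cu (e3 c)) b = 0 := fun c b n => by
    refine (lbd_apply _ _).trans ((isum_congr (g' := fun _ _ => 0) fun x k e => ?_).trans ?_)
    · exact b4_neg c (a := (x, k.succAbove b.2)) fun h => n (by rw [← e, b1_v2_d3]; exact h)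
    · simp [isum]
  have a1 := el_one (rs ∘ₗ b4_d0 T _ ∘ₗ e1) fun s hs a b => by
    have z : ∀ f m, b4_d0 T _ (e1 s) (f, m) = 0 := fun f m => by
      by_cases k : v2 T f m = v
      · exact congrFun hs ⟨(f, m), k⟩
      obtain ⟨a1, a2, a3, a4, a5, a6⟩ := b4_v (T := T) f
      have y : ∀ e i, v1 T e i = v2 T f m → e1 s (e, i) = 0 := fun e i h =>
        b4_neg _ fun c => k (h.symm.trans c)
      fin_cases m
      · exact (congrArg₂ (fun a b : ZMod 2 => a - b) (y _ _ a1) (y _ _ a2)).trans rfl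
      · exact (congrArg₂ (fun a b : ZMod 2 => -a - b) (y _ _ a3) (y _ _ a4)).trans rfl
      · exact (congrArg₂ (fun a b : ZMod 2 => a - b) (y _ _ a5) (y _ _ a6)).trans rfl
    have := el_k0 hM (e1 s) (fun f => sub_eq_zero.1 (z f 0))
      (fun f => (by decide : ∀ a b : ZMod 2, -a - b = 0 → a = b) _ _ (z f 1))
      (fun f => sub_eq_zero.1 (z f 2)) a.1 b.1 (a.2.trans b.2.symm)
    exact (b4_pos s a.2).symm.trans (this.trans (b4_pos s b.2))
  have a2 := el_one (rs ∘ₗ lbd T ∘ₗ cu ∘ₗ e3) fun c hc a b => by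
    have z : ∀ b, lbd T (cu (e3 c)) b = 0 := fun b => by
      by_cases k : v2 T b.1 b.2 = v
      · exact congrFun hc ⟨b, k⟩
      · exact off c b k
    have := el_k2 hM (e3 c) (fun x k y l m e => by
      obtain ⟨i, hi⟩ := b1_inc_surj T x k
      obtain ⟨j, hj⟩ := b1_inc_surj T y l
      rw [← e] at hj
      have w := z (T.d3 x k, m)
      simp only [lbd_apply, isum, show (-1 : ZMod 2) = 1 from rfl, one_pow, one_mul] at w
      have two : ∀ a b : ZMod 2, a + b = 0 → a = b ∧ b = a := by decide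
      cases i <;> cases j
      · obtain ⟨rfl, rfl⟩ := Prod.mk.inj (hi.symm.trans hj)
        rfl
      · rw [hi, hj] at w
        exact (two _ _ w).2
      · rw [hi, hj] at w
        exact (two _ _ w).1
      · obtain ⟨rfl, rfl⟩ := Prod.mk.inj (hi.symm.trans hj)
        rfl) a.1 b.1 (a.2.trans b.2.symm)
    exact (b4_pos c a.2).symm.trans (this.trans (b4_pos c b.2))
  have a3 := el_orth (LinearMap.range (rs ∘ₗ b4_d0 T _ ∘ₗ e1))
      (LinearMap.range (rs ∘ₗ lbd T ∘ₗ cu ∘ₗ e3)) (by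
    rintro _ ⟨s, rfl⟩ _ ⟨c, rfl⟩
    have hU : (support (cu (e3 c))).Finite := (b1_fin_v3 T v).subset fun x hx => by
      by_contra hn
      exact hx (funext fun i => b4_neg c (a := (x, i)) fun h => hn ⟨i, h⟩)
    have h1 := lbd_pair (T := T) hU (b4_d0 T _ (e1 s))
    have h2 : ∀ x, ∑ k : Fin 4, (-1 : ZMod 2) ^ (k : ℕ) *
        ∑ m, cu (e3 c) x (k.succAbove m) * b4_d0 T _ (e1 s) (T.d3 x k, m) = 0 := fun x => by
      generalize cu (e3 c) = U
      generalize e1 s = S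
      simp only [Fin.sum_univ_four, Fin.sum_univ_three]
      show (-1) ^ 0 * (U x 1 * (S (T.d2 (T.d3 x 0) 1, 0) - S (T.d2 (T.d3 x 0) 2, 0)) +
          U x 2 * (-S (T.d2 (T.d3 x 0) 0, 0) - S (T.d2 (T.d3 x 0) 2, 1)) +
          U x 3 * (S (T.d2 (T.d3 x 0) 1, 1) - S (T.d2 (T.d3 x 0) 0, 1))) +
        (-1) ^ 1 * (U x 0 * (S (T.d2 (T.d3 x 1) 1, 0) - S (T.d2 (T.d3 x 1) 2, 0)) +
          U x 2 * (-S (T.d2 (T.d3 x 1) 0, 0) - S (T.d2 (T.d3 x 1) 2, 1)) +
          U x 3 * (S (T.d2 (T.d3 x 1) 1, 1) - S (T.d2 (T.d3 x 1) 0, 1))) +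
        (-1) ^ 2 * (U x 0 * (S (T.d2 (T.d3 x 2) 1, 0) - S (T.d2 (T.d3 x 2) 2, 0)) +
          U x 1 * (-S (T.d2 (T.d3 x 2) 0, 0) - S (T.d2 (T.d3 x 2) 2, 1)) +
          U x 3 * (S (T.d2 (T.d3 x 2) 1, 1) - S (T.d2 (T.d3 x 2) 0, 1))) +
        (-1) ^ 3 * (U x 0 * (S (T.d2 (T.d3 x 3) 1, 0) - S (T.d2 (T.d3 x 3) 2, 0)) +
          U x 1 * (-S (T.d2 (T.d3 x 3) 0, 0) - S (T.d2 (T.d3 x 3) 2, 1)) +
          U x 2 * (S (T.d2 (T.d3 x 3) 1, 1) - S (T.d2 (T.d3 x 3) 0, 1))) = 0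
      simp only [b1_ecd, b1_ebd, b1_ebc, b1_ead, b1_eac, b1_eab]
      ring
    simp only [h2, finsum_zero] at h1
    refine Eq.trans ?_ h1
    refine (finsum_eq_sum_of_fintype _).symm.trans
      ((finsum_subtype_eq_finsum_cond (f := fun b => lbd T (cu (e3 c)) b * b4_d0 T _ (e1 s) b)
        fun p : X2 × Fin 3 => v2 T p.1 p.2 = v).trans (finsum_congr fun b => ?_))
    by_cases k : v2 T b.1 b.2 = v
    · simp only [k, finsum_true]
    · simp only [k, off c b k, zero_mul, finsum_zero])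
  omega

/-- the Euler characteristic of the boundary is twice that of the stage -/
theorem el_euler {E : Subgroup G} {Ω : Type} [MulAction E Ω] (hM : Mfd T) (W : Et T E Ω)
    [Finite (Ob E Ω)] : 2 * (oc E Ω + oc E (W.C2 3 3)) + oc E (W.C2 1 2) =
      2 * (oc E (W.C1 2 2) + oc E (W.C3 4 4)) + oc E (W.C1 1 1) + oc E (W.C3 1 3) := by
  classical
  have i0 := Fintype.ofFinite (Ob E Ω)
  have j1 := hM.finC1 W one_pos 2
  have j2 := W.finC2 one_pos 3
  have j3 := W.finC3 one_pos 4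
  have j4 := W.finC2 two_pos 3
  have i1 := Fintype.ofFinite (Ob E (W.C1 1 2))
  have i2 := Fintype.ofFinite (Ob E (W.C2 1 3))
  have i3 := Fintype.ofFinite (Ob E (W.C3 1 4))
  have i4 := Fintype.ofFinite (Ob E (W.C2 2 3))
  have f1 := eu_free W (W.C1 1 2) fun c hc => hc.2.1
  have f2' := eu_free W (W.C2 1 3) fun c hc => hc.2.1
  have f3' := eu_free W (W.C3 1 4) fun c hc => hc.2.1
  have f4 := eu_free W (W.C2 2 3) fun c hc => two_pos.trans_le hc.2.1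
  have c1 := eu_corner W W.V1 (fun g c => W.V1_smul g) (v1 T) (W.C1 1 2)
    (fun c => ⟨fun h => ⟨h.1, h.2.1⟩, fun h => ⟨h.1, h.2, eu_np_le _⟩⟩)
    (fun c i a h ha => W.v1_pr h ha) fun x i a h => W.ext1 h
  have c2 := eu_corner W W.V2 (fun g c => W.V2_smul g) (v2 T) (W.C2 1 3)
    (fun c => ⟨fun h => ⟨h.1, h.2.1⟩, fun h => ⟨h.1, h.2, eu_np_le _⟩⟩)
    (fun c i a h ha => W.v2_pr h ha) fun x i a h => W.ext2 h
  have c3 := eu_corner W W.V3 (fun g c => W.V3_smul g) (v3 T) (W.C3 1 4)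
    (fun c => ⟨fun h => ⟨h.1, h.2.1⟩, fun h => ⟨h.1, h.2, eu_np_le _⟩⟩)
    (fun c i a h ha => W.v3_pr h ha) fun x i a h => W.ext3 h
  have s0 : ∑ q : Ob E (W.C2 1 3), np q.out.1.2 + 2 * oc E Ω =
      ∑ q : Ob E (W.C1 1 2), np q.out.1.2 + ∑ q : Ob E (W.C3 1 4), np q.out.1.2 := by
    rw [← c1, ← c2, ← c3, ← Finset.sum_add_distrib]
    refine Eq.trans ?_ (Finset.sum_congr rfl fun q _ =>
      le_antisymm (hM.sph (W.pr q.out)) (el_sph hM (W.pr q.out)))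
    rw [Finset.sum_add_distrib, Finset.sum_const, Finset.card_univ, smul_eq_mul, mul_comm,
      ← Nat.card_eq_fintype_card]
  have s1 : ∑ q : Ob E (W.C1 1 2), np q.out.1.2 = oc E (W.C1 1 1) + 2 * oc E (W.C1 2 2) := by
    rw [eu_ind (W.C1 1 2) (W.C1 1 1) f1 fun c h => ⟨h.1, h.2.1, h.2.2.trans one_le_two⟩,
      eu_ind (W.C1 1 2) (W.C1 2 2) f1 fun c h => ⟨h.1, one_le_two.trans h.2.1, h.2.2⟩,
      Finset.mul_sum, ← Finset.sum_add_distrib]
    refine Finset.sum_congr rfl fun q _ => ?_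
    obtain ⟨h1, h2, h3⟩ := q.out.2
    have k : ∀ m n, q.out.1 ∈ W.C1 m n ↔ m ≤ np q.out.1.2 ∧ np q.out.1.2 ≤ n := fun m n =>
      ⟨fun h => h.2, fun h => ⟨h1, h⟩⟩
    simp only [k]
    split_ifs <;> omega
  have s2 : ∑ q : Ob E (W.C2 1 3), np q.out.1.2 =
      oc E (W.C2 1 2) + 2 * oc E (W.C2 3 3) + oc E (W.C2 2 3) := by
    rw [eu_ind (W.C2 1 3) (W.C2 1 2) f2' fun c h => ⟨h.1, h.2.1, h.2.2.trans (by norm_num)⟩,
      eu_ind (W.C2 1 3) (W.C2 3 3) f2' fun c h => ⟨h.1, le_trans (by norm_num) h.2.1, h.2.2⟩,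
      eu_ind (W.C2 1 3) (W.C2 2 3) f2' fun c h => ⟨h.1, le_trans (by norm_num) h.2.1, h.2.2⟩,
      Finset.mul_sum, ← Finset.sum_add_distrib, ← Finset.sum_add_distrib]
    refine Finset.sum_congr rfl fun q _ => ?_
    obtain ⟨h1, h2, h3⟩ := q.out.2
    have k : ∀ m n, q.out.1 ∈ W.C2 m n ↔ m ≤ np q.out.1.2 ∧ np q.out.1.2 ≤ n := fun m n =>
      ⟨fun h => h.2, fun h => ⟨h1, h⟩⟩
    simp only [k]
    split_ifs <;> omega
  have hP : ∀ (g : E) (c : X3 × (Fin 4 → Option Ω)) (k : Fin 4),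
      (W.V3 c ∧ 2 ≤ np (f3 T c k).2) → (W.V3 (g • c) ∧ 2 ≤ np (f3 T (g • c) k).2) :=
    fun g c k h => ⟨W.V3_smul g h.1, (np_smul g (f3 T c k).2).symm ▸ h.2⟩
  obtain ⟨fin, e1⟩ := eu_idx (W.C3 1 4) f3' _ hP fun c k h =>
    ⟨h.1, eu_face c.2 k (two_pos.trans_le h.2), eu_np_le _⟩
  have s3 : 2 * ∑ q : Ob E (W.C3 1 4), np q.out.1.2 =
      2 * oc E (W.C3 1 3) + 4 * oc E (W.C3 4 4) + oc E (euS E _ hP) := by
    rw [eu_ind (W.C3 1 4) (W.C3 1 3) f3' fun c h => ⟨h.1, h.2.1, h.2.2.trans (by norm_num)⟩,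
      eu_ind (W.C3 1 4) (W.C3 4 4) f3' fun c h => ⟨h.1, le_trans (by norm_num) h.2.1, h.2.2⟩,
      e1, Finset.mul_sum, Finset.mul_sum, Finset.mul_sum, ← Finset.sum_add_distrib,
      ← Finset.sum_add_distrib]
    refine Finset.sum_congr rfl fun q _ => ?_
    obtain ⟨h1, h2, h3⟩ := q.out.2
    have k : ∀ m n, q.out.1 ∈ W.C3 m n ↔ m ≤ np q.out.1.2 ∧ np q.out.1.2 ≤ n := fun m n =>
      ⟨fun h => h.2, fun h => ⟨h1, h⟩⟩
    have k1 : q.out.1 ∈ W.C3 1 3 ↔ np q.out.1.2 ≤ 3 := (k 1 3).trans ⟨fun h => h.2, fun h => ⟨h2, h⟩⟩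
    have k2 : q.out.1 ∈ W.C3 4 4 ↔ 4 ≤ np q.out.1.2 := (k 4 4).trans ⟨fun h => h.1, fun h => ⟨h, h3⟩⟩
    simp only [k1, k2, h1, true_and]
    exact eu_bool (fun i => (q.out.1.2 i).isSome) h2
  have s4 : oc E (euS E _ hP) = 2 * oc E (W.C2 2 3) := by
    let f : euS E _ hP → W.C2 2 3 := fun x =>
      ⟨f3 T x.1.c x.1.i, x.2.1 x.1.i, x.2.2, eu_np_le _⟩
    have hf : ∀ (g : E) x, f (g • x) = g • f x := fun g x =>
      Subtype.ext (Et.f3_smul g x.1.c x.1.i)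
    rw [oc_fib f4 f hf (fib_finite f4 f hf), mul_comm, oc, Nat.card_eq_fintype_card,
      ← Finset.card_univ, ← smul_eq_mul, ← Finset.sum_const]
    refine Finset.sum_congr rfl fun q _ => ?_
    obtain ⟨h1, h2, h3⟩ := q.out.2
    obtain ⟨p, p', ne, hp⟩ := W.two h1 (two_pos.trans_le h2)
    have mk : ∀ r : (X3 × (Fin 4 → Option Ω)) × Fin 4, (r = p ∨ r = p') →
        ∃ x : {x // f x = q.out}, (x.1.1.c, x.1.1.i) = r := fun r hr => by
      obtain ⟨k1, k2⟩ := (hp r).2 hr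
      exact ⟨⟨⟨⟨r.1, r.2⟩, k1, k2.symm ▸ h2⟩, Subtype.ext k2⟩, rfl⟩
    obtain ⟨x, hx⟩ := mk p (.inl rfl)
    obtain ⟨y, hy⟩ := mk p' (.inr rfl)
    have inj : ∀ z w : {x // f x = q.out}, (z.1.1.c, z.1.1.i) = (w.1.1.c, w.1.1.i) → z = w :=
      fun z w h => Subtype.ext (Subtype.ext (EuP.ext (congrArg Prod.fst h) (congrArg Prod.snd h)))
    refine Nat.card_eq_two_iff.2 ⟨x, y, fun h => ne (hx.symm.trans (h ▸ hy)), ?_⟩
    refine eq_univ_of_forall fun z => ?_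
    rcases (hp (z.1.1.c, z.1.1.i)).1 ⟨z.1.2.1, congrArg Subtype.val z.2⟩ with h | h
    · exact .inl (inj z x (h.trans hx.symm))
    · exact .inr (inj z y (h.trans hy.symm))
  omega

end Pool.Agent.Work.MP_3d425c_gt.Bg
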