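import Pool.Agent.Work.MP_3d425c_gt.Bg.LatEnd

-- merged part: Pool.Agent.Work.MP_3d425c_gt.Bq.Sum
section
/-! Summation over the cosets of a subgroup, and the invariant that it is injective. -/

namespace Pool.Agent.Work.MP_3d425c_gt.Bg
open Set Relation Pool.Agent.Work.MP_3d425c_gt.Md Pool.Agent.Work.MP_3d425c_gt.Cy

variable {G X0 X1 X2 X3 : Type} [Group G] [MulAction G X0] [MulAction G X1] [MulAction G X2]
  [MulAction G X3] {T : Tri G X0 X1 X2 X3} {E : Subgroup G} {Ω : Type} [MulAction E Ω]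

/-- finite modulo `P` -/
def SmP {D Ω : Type} [Group D] [MulAction D Ω] (P : Subgroup D) (S : Set Ω) : Prop :=
  ∃ K : Set Ω, K.Finite ∧ ∀ x ∈ S, ∃ k ∈ K, ∃ p ∈ P, x = p • k

/-- the sum of the translates of `s` -/
noncomputable def sm0 {D A : Type} [Group D] [MulAction D A] (P : Subgroup D) (s : A → ℝ)
    (a : A) : ℝ := ∑ᶠ q : D ⧸ P, s (q.out⁻¹ • a)

/-- the sum of the translates of `z` -/
noncomputable def sm1 (P : Subgroup E) (z : Option Ω → X1 → Option Ω → ℝ) (a : Option Ω) (e : X1)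
    (b : Option Ω) : ℝ := ∑ᶠ q : E ⧸ P, z (q.out⁻¹ • a) (q.out⁻¹ • e) (q.out⁻¹ • b)

/-- a relative cocycle, invariant under `P`, with support finite modulo `P` -/
structure Et.Rq (W : Et T E Ω) (P : Subgroup E) (z : Option Ω → X1 → Option Ω → ℝ) : Prop where
  zero : ∀ e, z none e none = 0
  coc : ∀ f a b c, W.Rp a (T.d2 f 2) b → W.Rp b (T.d2 f 0) c → W.Rp a (T.d2 f 1) c →
    z a (T.d2 f 1) c = z a (T.d2 f 2) b + z b (T.d2 f 0) c
  inv : ∀ p ∈ P, ∀ a e b, W.Rp a e b → z (p • a) (p • e) (p • b) = z a e b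
  sup : ∃ S, SmP P S ∧ ∀ a e b, W.Rp a e b → z a e b ≠ 0 → ∃ x ∈ S, a = some x ∨ b = some x

/-- summation is injective on classes -/
def Et.I4 (W : Et T E Ω) (P : Subgroup E) : Prop := ∀ z, W.Rq P z →
  (∃ u : Option Ω → ℝ, u none = 0 ∧ SmP (⊤ : Subgroup E) {x | u (some x) ≠ 0} ∧
    (∀ (g : E) a, u (g • a) = u a) ∧ ∀ a e b, W.Rp a e b → sm1 P z a e b = u b - u a) →
  ∃ s : Option Ω → ℝ, s none = 0 ∧ SmP P {x | s (some x) ≠ 0} ∧
    ∀ a e b, W.Rp a e b → z a e b = s b - s a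

section
variable {D A : Type} [Group D] [MulAction D A] {P : Subgroup D}

theorem SmP.mono {S S' : Set A} (h : SmP P S) (h' : S' ⊆ S) : SmP P S' :=
  let ⟨K, a, b⟩ := h; ⟨K, a, fun x hx => b x (h' hx)⟩

theorem SmP.union {S S' : Set A} (h : SmP P S) (h' : SmP P S') : SmP P (S ∪ S') := by
  obtain ⟨K, a, b⟩ := h
  obtain ⟨K', a', b'⟩ := h'
  refine ⟨K ∪ K', a.union a', ?_⟩
  rintro x (hx | hx)
  · obtain ⟨k, hk, c⟩ := b x hx
    exact ⟨k, Or.inl hk, c⟩
  · obtain ⟨k, hk, c⟩ := b' x hx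
    exact ⟨k, Or.inr hk, c⟩

theorem SmP.empty : SmP P (∅ : Set A) := ⟨∅, finite_empty, fun _ h => h.elim⟩

theorem SmP.le {Q : Subgroup D} {S : Set A} (h : SmP P S) (hQ : P ≤ Q) : SmP Q S :=
  let ⟨K, a, b⟩ := h
  ⟨K, a, fun x hx => let ⟨k, hk, p, hp, c⟩ := b x hx; ⟨k, hk, p, hQ hp, c⟩⟩

theorem SmP.image {B : Type} [MulAction D B] {S : Set A} (h : SmP P S) (f : A → B)
    (hf : ∀ p ∈ P, ∀ a, f (p • a) = p • f a) : SmP P (f '' S) := by
  obtain ⟨K, a, b⟩ := h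
  refine ⟨f '' K, a.image f, ?_⟩
  rintro _ ⟨x, hx, rfl⟩
  obtain ⟨k, hk, p, hp, rfl⟩ := b x hx
  exact ⟨f k, ⟨k, hk, rfl⟩, p, hp, hf p hp k⟩

theorem smP_zpowers {a : D} {S : Set A} : SmP (Subgroup.zpowers a) S ↔ Sm a S :=
  ⟨fun ⟨K, h, b⟩ => ⟨K, h, fun x hx => let ⟨k, hk, _, ⟨n, rfl⟩, c⟩ := b x hx; ⟨k, hk, n, c⟩⟩,
    fun ⟨K, h, b⟩ => ⟨K, h, fun x hx => let ⟨k, hk, n, c⟩ := b x hx; ⟨k, hk, _, ⟨n, rfl⟩, c⟩⟩⟩

theorem smP_top [Finite (Ob D A)] (S : Set A) : SmP (⊤ : Subgroup D) S :=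
  ⟨range (Quotient.out : Ob D A → A), finite_range _, fun x _ =>
    let ⟨g, hg⟩ := (MulAction.orbitRel D A).symm (Quotient.mk_out (s := MulAction.orbitRel D A) x)
    ⟨_, ⟨_, rfl⟩, g, trivial, hg.symm⟩⟩

/-- the translates of a set that is finite modulo `P` are finite modulo the group -/
theorem SmP.sat {S : Set A} (h : SmP P S) : SmP (⊤ : Subgroup D) {x | ∃ g : D, g • x ∈ S} := by
  obtain ⟨K, a, b⟩ := h
  refine ⟨K, a, ?_⟩
  rintro x ⟨g, hx⟩
  obtain ⟨k, hk, p, -, c⟩ := b _ hx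
  exact ⟨k, hk, g⁻¹ * p, trivial, by rw [mul_smul, ← c, inv_smul_smul]⟩

theorem SmP.fin (fr : ∀ (g : D) (a : A), g • a = a → g = 1) {S : Set A} (h : SmP P S) (x : A) :
    {q : D ⧸ P | q.out⁻¹ • x ∈ S}.Finite := by
  obtain ⟨K, a, b⟩ := h
  refine (a.biUnion (t := fun k => {q : D ⧸ P | ∃ p ∈ P, q.out⁻¹ • x = p • k})
    fun k _ => Set.Subsingleton.finite ?_).subset fun q hq => ?_
  · rintro q ⟨p, hp, c⟩ q' ⟨p', hp', c'⟩
    have e : (q'.out * p')⁻¹ * (q.out * p) = 1 := fr _ k (by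
      rw [mul_smul, mul_smul q.out, ← c, smul_inv_smul, inv_smul_eq_iff, mul_smul, ← c',
        smul_inv_smul])
    rw [← QuotientGroup.out_eq' q, ← QuotientGroup.out_eq' q',
      ← QuotientGroup.mk_mul_of_mem q.out hp, ← QuotientGroup.mk_mul_of_mem q'.out hp',
      inv_mul_eq_one.1 e]
  · obtain ⟨k, hk, c⟩ := b _ hq
    exact mem_biUnion hk c

theorem SmP.fin' (fr : ∀ (g : D) (a : A), g • a = a → g = 1) {S : Set A} (h : SmP P S)
    (a : Option A) : {q : D ⧸ P | ∃ x ∈ S, q.out⁻¹ • a = some x}.Finite := by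
  cases a with
  | none => exact finite_empty.subset fun _ ⟨_, _, c⟩ => nomatch c
  | some y =>
    refine (h.fin fr y).subset ?_
    rintro q ⟨x, hx, c⟩
    have : q.out⁻¹ • y = x := Option.some.inj c
    exact show q.out⁻¹ • y ∈ S from this ▸ hx

theorem sm0_fin (fr : ∀ (g : D) (a : A), g • a = a → g = 1) {s : Option A → ℝ} (s0 : s none = 0)
    (h : SmP P {x | s (some x) ≠ 0}) (a : Option A) :
    (Function.support fun q : D ⧸ P => s (q.out⁻¹ • a)).Finite := by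
  cases a with
  | none => exact finite_empty.subset fun _ c => c s0
  | some y => exact h.fin fr y

theorem sm0_none {s : Option A → ℝ} (s0 : s none = 0) : sm0 P s none = 0 :=
  finsum_eq_zero_of_forall_eq_zero fun _ => s0

theorem sm0_smul {s : A → ℝ} {a : A} (h : ∀ p ∈ P, ∀ g : D, s (p • g • a) = s (g • a)) (g : D) :
    sm0 P s (g • a) = sm0 P s a := by
  unfold sm0
  rw [← finsum_comp_equiv (MulAction.toPerm g : Equiv.Perm (D ⧸ P))]
  refine finsum_congr fun q => ?_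
  obtain ⟨p, hp⟩ := QuotientGroup.mk_out_eq_mul P (g * q.out)
  have e : MulAction.toPerm g q = QuotientGroup.mk (g * q.out) :=
    (MulAction.Quotient.mk_smul_out P g q).symm
  rw [e, hp, mul_inv_rev, mul_inv_rev, mul_smul, mul_smul, inv_smul_smul]
  exact h _ (P.inv_mem p.2) _

theorem sm0_ne {s : A → ℝ} {a : A} (h : sm0 P s a ≠ 0) : ∃ g : D, s (g • a) ≠ 0 := by
  by_contra k
  push Not at k
  exact h (finsum_eq_zero_of_forall_eq_zero fun _ => k _)

theorem sm0_sm {s : Option A → ℝ} (h : SmP P {x | s (some x) ≠ 0}) :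
    SmP (⊤ : Subgroup D) {x | sm0 P s (some x) ≠ 0} :=
  h.sat.mono fun _ hx => sm0_ne hx

end

variable {W : Et T E Ω} {P : Subgroup E} {z z' : Option Ω → X1 → Option Ω → ℝ}

theorem Et.rq_zpowers {a : E} : W.Rq (Subgroup.zpowers a) z ↔ W.Rc a z := by
  refine ⟨fun h => ⟨h.zero, h.coc, h.inv a (Subgroup.mem_zpowers a),
    let ⟨S, b, c⟩ := h.sup; ⟨S, smP_zpowers.1 b, c⟩⟩, fun h => ⟨h.zero, h.coc, fun p hp => ?_,
    let ⟨S, b, c⟩ := h.sup; ⟨S, smP_zpowers.2 b, c⟩⟩⟩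
  rw [Subgroup.zpowers_eq_closure] at hp
  induction hp using Subgroup.closure_induction with
  | mem x hx => exact hx ▸ h.inv
  | one => intro a e b _; simp only [one_smul]
  | mul x y _ _ i j =>
    intro a e b k
    simp only [mul_smul]
    rw [i _ _ _ (W.Rp_smul y k), j _ _ _ k]
  | inv x _ i =>
    intro a e b k
    simpa only [smul_inv_smul] using (i _ _ _ (W.Rp_smul x⁻¹ k)).symm

theorem Et.Rq.fin (h : W.Rq P z) {a : Option Ω} {e : X1} {b : Option Ω} (k : W.Rp a e b) :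
    (Function.support fun q : E ⧸ P => z (q.out⁻¹ • a) (q.out⁻¹ • e) (q.out⁻¹ • b)).Finite := by
  obtain ⟨S, hS, hs⟩ := h.sup
  refine ((hS.fin' W.free a).union (hS.fin' W.free b)).subset fun q hq => ?_
  obtain ⟨x, hx, c | c⟩ := hs _ _ _ (W.Rp_smul _ k) hq
  · exact Or.inl ⟨x, hx, c⟩
  · exact Or.inr ⟨x, hx, c⟩

theorem Et.Rq.lin (h : W.Rq P z) (h' : W.Rq P z') (c c' : ℝ) :
    W.Rq P fun a e b => c * z a e b + c' * z' a e b := by
  obtain ⟨S, hS, hs⟩ := h.sup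
  obtain ⟨S', hS', hs'⟩ := h'.sup
  refine ⟨fun e => by rw [h.zero, h'.zero]; ring, fun f a b d k2 k0 k1 => ?_,
    fun p hp a e b k => by rw [h.inv p hp _ _ _ k, h'.inv p hp _ _ _ k], _, hS.union hS',
    fun a e b k d => ?_⟩
  · rw [h.coc f a b d k2 k0 k1, h'.coc f a b d k2 k0 k1]
    ring
  · by_cases d1 : z a e b = 0
    · obtain ⟨x, hx, e1⟩ := hs' a e b k fun d2 => d (by rw [d1, d2]; ring)
      exact ⟨x, Or.inr hx, e1⟩
    · obtain ⟨x, hx, e1⟩ := hs a e b k d1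
      exact ⟨x, Or.inl hx, e1⟩

/-- coboundaries -/
theorem Et.rq_d (W : Et T E Ω) {s : Option Ω → ℝ} (si : ∀ p ∈ P, ∀ a, s (p • a) = s a)
    (s0 : s none = 0) (hs : SmP P {x | s (some x) ≠ 0}) : W.Rq P fun a _ b => s b - s a := by
  refine ⟨fun _ => sub_self _, fun _ _ _ _ _ _ _ => by ring,
    fun p hp a e b _ => by rw [si p hp, si p hp], _, hs, fun a e b _ d => ?_⟩
  have one : ∀ A, s A ≠ 0 → ∃ x, s (some x) ≠ 0 ∧ A = some x := fun A d => by
    cases A with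
    | none => exact (d s0).elim
    | some x => exact ⟨x, d, rfl⟩
  by_cases d2 : s a = 0
  · obtain ⟨x, hx, e1⟩ := one b fun d3 => d (by rw [d2, d3, sub_self])
    exact ⟨x, hx, Or.inr e1⟩
  · obtain ⟨x, hx, e1⟩ := one a d2
    exact ⟨x, hx, Or.inl e1⟩

theorem Et.Rq.sm1_lin (h : W.Rq P z) (h' : W.Rq P z') (c c' : ℝ) {a : Option Ω} {e : X1}
    {b : Option Ω} (k : W.Rp a e b) : sm1 P (fun a e b => c * z a e b + c' * z' a e b) a e b =
      c * sm1 P z a e b + c' * sm1 P z' a e b := by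
  unfold sm1
  rw [mul_finsum, mul_finsum]
  exact finsum_add_distrib ((h.fin k).subset fun _ d => right_ne_zero_of_mul d)
    ((h'.fin k).subset fun _ d => right_ne_zero_of_mul d)

theorem Et.sm1_congr (W : Et T E Ω) (h : ∀ a e b, W.Rp a e b → z a e b = z' a e b) {a : Option Ω}
    {e : X1} {b : Option Ω} (k : W.Rp a e b) : sm1 P z a e b = sm1 P z' a e b :=
  finsum_congr fun _ => h _ _ _ (W.Rp_smul _ k)

theorem Et.sm1_d (W : Et T E Ω) {s : Option Ω → ℝ} (s0 : s none = 0)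
    (hs : SmP P {x | s (some x) ≠ 0}) (a : Option Ω) (e : X1) (b : Option Ω) :
    sm1 P (fun a _ b => s b - s a) a e b = sm0 P s b - sm0 P s a :=
  finsum_sub_distrib (sm0_fin W.free s0 hs b) (sm0_fin W.free s0 hs a)

theorem Et.Rq.sm1_smul (h : W.Rq P z) (g : E) {a : Option Ω} {e : X1} {b : Option Ω}
    (k : W.Rp a e b) : sm1 P z (g • a) (g • e) (g • b) = sm1 P z a e b :=
  sm0_smul (s := fun τ : Option Ω × X1 × Option Ω => z τ.1 τ.2.1 τ.2.2) (a := (a, e, b))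
    (fun p hp g => h.inv p hp _ _ _ (W.Rp_smul g k)) g

/-- the sum is an invariant relative cocycle -/
theorem Et.Rq.sum (h : W.Rq P z) : W.Rq ⊤ (sm1 P z) := by
  refine ⟨fun e => finsum_eq_zero_of_forall_eq_zero fun _ => h.zero _, fun f a b c k2 k0 k1 => ?_,
    fun g _ a e b k => h.sm1_smul g k, ?_⟩
  · unfold sm1
    rw [← finsum_add_distrib (h.fin k2) (h.fin k0)]
    refine finsum_congr fun q => ?_
    have e : ∀ i, q.out⁻¹ • T.d2 f i = T.d2 (q.out⁻¹ • f) i := fun i => (T.e2 _ f i).symm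
    have := h.coc (q.out⁻¹ • f) _ _ _ (e 2 ▸ W.Rp_smul _ k2) (e 0 ▸ W.Rp_smul _ k0)
      (e 1 ▸ W.Rp_smul _ k1)
    rwa [e, e, e]
  · obtain ⟨S, hS, hs⟩ := h.sup
    refine ⟨_, hS.sat, fun a e b k d => ?_⟩
    obtain ⟨g, d⟩ := sm0_ne (P := P)
      (s := fun τ : Option Ω × X1 × Option Ω => z τ.1 τ.2.1 τ.2.2) (a := (a, e, b)) d
    have one : ∀ (A : Option Ω) x, x ∈ S → g • A = some x →
        ∃ y, g • y ∈ S ∧ A = some y := fun A x hx c => by
      cases A with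
      | none => exact nomatch c
      | some y => exact ⟨y, (Option.some.inj c : g • y = x) ▸ hx, rfl⟩
    obtain ⟨x, hx, c | c⟩ := hs _ _ _ (W.Rp_smul g k) d
    · obtain ⟨y, h1, h2⟩ := one a x hx c
      exact ⟨y, ⟨g, h1⟩, Or.inl h2⟩
    · obtain ⟨y, h1, h2⟩ := one b x hx c
      exact ⟨y, ⟨g, h1⟩, Or.inr h2⟩

end Pool.Agent.Work.MP_3d425c_gt.Bg
end

-- merged part: Pool.Agent.Work.MP_3d425c_gt.Bg.Zbase
section
/-! The invariant holds for the complex itself (Wang sequence). -/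

namespace Pool.Agent.Work.MP_3d425c_gt.Bg
open Set Relation Pool.Agent.Work.MP_3d425c_gt.Md Pool.Agent.Work.MP_3d425c_gt.Cy

variable {G X0 X1 X2 X3 : Type} [Group G] [MulAction G X0] [MulAction G X1] [MulAction G X2]
  [MulAction G X3] {T : Tri G X0 X1 X2 X3} {E : Subgroup G} {Ω : Type} [MulAction E Ω]

section Gen
variable {X : Type} [MulAction G X] {a : G}

/-- the powers of `a` move every point to different points -/
def zb_Fr (a : G) (X : Type) [MulAction G X] : Prop :=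
  ∀ x : X, Function.Injective fun n : ℤ => a ^ n • x

/-- sum over the orbit -/
noncomputable def zb_P (a : G) (f : X → ℝ) (x : X) : ℝ := ∑' n : ℤ, f (a ^ n • x)

theorem zb_fr (hG : Hyp G) (ha : a ≠ 1) (hX : ∀ (g : G) (x : X), g • x = x → g = 1) :
    zb_Fr a X := fun x i j e => by
  have e' : a ^ i • x = a ^ j • x := e
  have : ((a ^ j)⁻¹ * a ^ i) • x = x := by rw [mul_smul, e', inv_smul_smul]
  exact hG.zpow_inj ha (inv_mul_eq_one.1 (hX _ _ this)).symm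

theorem zb_sum (h : zb_Fr a X) {f : X → ℝ} (hf : (Function.support f).Finite) (x : X) :
    Summable fun n : ℤ => f (a ^ n • x) :=
  summable_of_hasFiniteSupport (hf.preimage (h x).injOn)

theorem zb_P_smul (f : X → ℝ) (x : X) : zb_P a f (a • x) = zb_P a f x := by
  unfold zb_P
  rw [← (Equiv.addRight (1 : ℤ)).tsum_eq fun n : ℤ => f (a ^ n • x)]
  exact tsum_congr fun n => by rw [Equiv.coe_addRight, zpow_add_one, mul_smul]

theorem zb_P_sm (f : X → ℝ) (hf : (Function.support f).Finite) :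
    Sm a (Function.support (zb_P a f)) := by
  refine ⟨_, hf, fun x hx => ?_⟩
  by_contra hn
  refine hx ((tsum_congr fun n => ?_).trans tsum_zero)
  by_contra k
  exact hn ⟨_, k, -n, by rw [zpow_neg, inv_smul_smul]⟩

theorem zb_inv {z : X → ℝ} (hz : ∀ x, z (a • x) = z x) (n : ℤ) (x : X) : z (a ^ n • x) = z x := by
  induction n using Int.induction_on with
  | zero => rw [zpow_zero, one_smul]
  | succ n ih => rw [add_comm, zpow_one_add, mul_smul, hz, ih]
  | pred n ih =>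
    rw [← ih, ← hz (a ^ (-(n : ℤ) - 1) • x), ← mul_smul, ← zpow_one_add]
    congr 3
    ring

theorem zb_zero (h : zb_Fr a X) {z : X → ℝ} (hf : (Function.support z).Finite)
    (hz : ∀ x, z (a • x) = z x) (x : X) : z x = 0 := by
  by_contra k
  exact Set.infinite_of_injective_forall_mem (h x)
    (fun n => show z (a ^ n • x) ≠ 0 by rwa [zb_inv hz]) hf

theorem zb_rep (h : zb_Fr a X) {z : X → ℝ} (hz : ∀ x, z (a • x) = z x)
    (hs : Sm a (Function.support z)) :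
    ∃ y : X → ℝ, (Function.support y).Finite ∧ ∀ x, zb_P a y x = z x := by
  classical
  obtain ⟨K, hK, hs⟩ := hs
  obtain ⟨r, hr⟩ : ∃ r : X → X, r = fun x => Quotient.out (ob (Subgroup.zpowers a) x) := ⟨_, rfl⟩
  have r1 : ∀ (n : ℤ) x, r (a ^ n • x) = r x := fun n x => by
    rw [hr]
    exact congrArg Quotient.out
      (ob_smul (⟨a ^ n, Subgroup.zpow_mem_zpowers a n⟩ : Subgroup.zpowers a) x)
  have r2 : ∀ x, ∃ n : ℤ, a ^ n • x = r x := fun x => by
    obtain ⟨⟨_, n, rfl⟩, e⟩ := ob_eq_iff.1 (ob_out (ob (Subgroup.zpowers a) x))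
    exact ⟨n, by rw [hr]; exact e⟩
  refine ⟨fun x => if r x = x then z x else 0, (hK.image r).subset fun x hx => ?_, fun x => ?_⟩
  · by_cases k : r x = x
    · obtain ⟨c, hc, n, e⟩ := hs x fun k' => hx ((if_pos k).trans k')
      exact ⟨c, hc, by rw [← k, e, r1]⟩
    · exact absurd (if_neg k) hx
  · obtain ⟨n, hn⟩ := r2 x
    refine (tsum_eq_single n fun m hm => if_neg fun k => hm (h x ?_)).trans ?_
    · show a ^ m • x = a ^ n • x
      rw [hn, ← k, r1]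
    · exact (if_pos ((r1 n x).trans hn.symm)).trans (zb_inv hz n x)

theorem zb_ker (h : zb_Fr a X) {f : X → ℝ} (hf : (Function.support f).Finite)
    (h0 : ∀ x, zb_P a f x = 0) :
    ∃ w : X → ℝ, (Function.support w).Finite ∧ ∀ x, f x = w x - w (a • x) := by
  have s1 : ∀ x, Summable fun n : ℕ => f (a ^ (n : ℤ) • x) := fun x =>
    (zb_sum h hf x).comp_injective Nat.cast_injective
  have s2 : ∀ x, Summable fun n : ℕ => f (a ^ (-((n : ℤ) + 1)) • x) := fun x =>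
    (zb_sum h hf x).comp_injective (i := fun n : ℕ => -((n : ℤ) + 1)) fun i j e => by
      have : -((i : ℤ) + 1) = -((j : ℤ) + 1) := e
      omega
  refine ⟨fun x => ∑' n : ℕ, f (a ^ (n : ℤ) • x), ?_, fun x => ?_⟩
  · have fin : ∀ k k' : X, {x | ∃ n m : ℕ, a ^ (n : ℤ) • x = k ∧
        a ^ (-((m : ℤ) + 1)) • x = k'}.Finite := fun k k' => by
      rcases Set.eq_empty_or_nonempty {x | ∃ n m : ℕ, a ^ (n : ℤ) • x = k ∧
        a ^ (-((m : ℤ) + 1)) • x = k'} with e | ⟨x₀, n₀, m₀, e1, e2⟩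
      · rw [e]
        exact finite_empty
      refine ((finite_Iic (n₀ + m₀)).image fun n : ℕ => a ^ (-(n : ℤ)) • k).subset ?_
      rintro x ⟨n, m, k1, k2⟩
      have t : ∀ (x : X) (n m : ℕ), a ^ (n : ℤ) • x = k → a ^ (-((m : ℤ) + 1)) • x = k' →
          a ^ (-((m : ℤ) + 1) - n) • k = k' := fun x n m k1 k2 => by
        rw [← k1, ← mul_smul, ← zpow_add, sub_add_cancel, k2]
      have := h k ((t x n m k1 k2).trans (t x₀ n₀ m₀ e1 e2).symm)
      refine ⟨n, show n ≤ n₀ + m₀ by omega, ?_⟩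
      show a ^ (-(n : ℤ)) • k = x
      rw [← k1, zpow_neg, inv_smul_smul]
    refine (hf.biUnion fun k _ => hf.biUnion fun k' _ => fin k k').subset fun x hx => ?_
    have e := (tsum_of_nat_of_neg_add_one (f := fun n : ℤ => f (a ^ n • x)) (s1 x)
      (s2 x)).symm.trans (h0 x)
    have p1 : ∃ n : ℕ, f (a ^ (n : ℤ) • x) ≠ 0 := by
      by_contra k
      exact hx ((tsum_congr fun n => not_not.1 fun k' => k ⟨n, k'⟩).trans tsum_zero)
    have p2 : ∃ m : ℕ, f (a ^ (-((m : ℤ) + 1)) • x) ≠ 0 := by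
      by_contra k
      rw [(tsum_congr fun n => not_not.1 fun k' => k ⟨n, k'⟩).trans tsum_zero, add_zero] at e
      exact hx e
    obtain ⟨n, p1⟩ := p1
    obtain ⟨m, p2⟩ := p2
    exact mem_biUnion p1 (mem_biUnion p2 ⟨n, m, rfl, rfl⟩)
  · show f x = ∑' n : ℕ, f (a ^ (n : ℤ) • x) - ∑' n : ℕ, f (a ^ (n : ℤ) • a • x)
    rw [(s1 x).tsum_eq_zero_add, Nat.cast_zero, zpow_zero, one_smul, eq_sub_iff_add_eq]
    congr 1
    exact tsum_congr fun n => by rw [Nat.cast_succ, zpow_add_one, mul_smul]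

theorem zb_pull {Y : Type} {f : X → ℝ} (hf : (Function.support f).Finite) {d : Y → X}
    (hd : ∀ x, {y | d y = x}.Finite) : (Function.support fun y => f (d y)).Finite :=
  (hf.biUnion fun x _ => hd x).subset fun y hy => mem_biUnion (x := d y) hy rfl

theorem zb_add {Y : Type} {f g : Y → ℝ} (hf : (Function.support f).Finite)
    (hg : (Function.support g).Finite) : (Function.support fun y => f y + g y).Finite :=
  (hf.union hg).subset (Function.support_add f g)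

theorem zb_sub {Y : Type} {f g : Y → ℝ} (hf : (Function.support f).Finite)
    (hg : (Function.support g).Finite) : (Function.support fun y => f y - g y).Finite :=
  (hf.union hg).subset (Function.support_sub f g)

end Gen

theorem zb_wang (hM : Mfd T) (hG : Hyp G) (a : G) {z : X1 → ℝ}
    (hc : ∀ f, z (T.d2 f 1) = z (T.d2 f 2) + z (T.d2 f 0)) (hz : ∀ e, z (a • e) = z e)
    (hs : Sm a (Function.support z)) :
    ∃ s : X0 → ℝ, Sm a (Function.support s) ∧ ∀ e, z e = s (T.d1 e 0) - s (T.d1 e 1) := by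
  rcases eq_or_ne a 1 with rfl | ha
  · obtain ⟨K, hK, hs⟩ := hs
    obtain ⟨s, h1, h2⟩ := hM.hc1 z (hK.subset fun e he => by
      obtain ⟨k, hk, n, rfl⟩ := hs e he
      rwa [one_zpow, one_smul]) hc
    exact ⟨s, ⟨_, h1, fun x hx => ⟨x, hx, 0, by rw [zpow_zero, one_smul]⟩⟩, h2⟩
  have F0 := zb_fr hG ha T.free
  have F1 := zb_fr hG ha T.free1
  have F2 := zb_fr hG ha T.free2
  have F3 := zb_fr hG ha T.free3
  have := T.fin
  have := T.fin2
  have d2 : ∀ i e, {f | T.d2 f i = e}.Finite := fun i =>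
    fib_finite T.free1 (fun f => T.d2 f i) fun g f => T.e2 g f i
  have d3 : ∀ i f, {x | T.d3 x i = f}.Finite := fun i =>
    fib_finite T.free2 (fun x => T.d3 x i) fun g x => T.e3 g x i
  obtain ⟨y, hy, Py⟩ := zb_rep F1 hz hs
  obtain ⟨w, hw, ew⟩ := zb_ker F2 (f := fun f => y (T.d2 f 2) + y (T.d2 f 0) - y (T.d2 f 1))
    (zb_sub (zb_add (zb_pull hy (d2 2)) (zb_pull hy (d2 0))) (zb_pull hy (d2 1))) fun f => by
      unfold zb_P
      simp only [T.e2]
      rw [((zb_sum F1 hy _).add (zb_sum F1 hy _)).tsum_sub (zb_sum F1 hy _),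
        (zb_sum F1 hy _).tsum_add (zb_sum F1 hy _)]
      have h1 := Py (T.d2 f 2)
      have h2 := Py (T.d2 f 0)
      have h3 := Py (T.d2 f 1)
      unfold zb_P at h1 h2 h3
      rw [h1, h2, h3, hc, sub_self]
  have dw := zb_zero F3
    (z := fun x => w (T.d3 x 0) + w (T.d3 x 2) - (w (T.d3 x 1) + w (T.d3 x 3)))
    (zb_sub (zb_add (zb_pull hw (d3 0)) (zb_pull hw (d3 2)))
      (zb_add (zb_pull hw (d3 1)) (zb_pull hw (d3 3)))) fun x => by
      have e00 : y (T.d2 (T.d3 x 1) 0) = y (T.d2 (T.d3 x 0) 0) := congrArg y (T.s3 x 0 0 le_rfl)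
      have e01 : y (T.d2 (T.d3 x 2) 0) = y (T.d2 (T.d3 x 0) 1) :=
        congrArg y (T.s3 x 0 1 (by decide))
      have e02 : y (T.d2 (T.d3 x 3) 0) = y (T.d2 (T.d3 x 0) 2) :=
        congrArg y (T.s3 x 0 2 (by decide))
      have e11 : y (T.d2 (T.d3 x 2) 1) = y (T.d2 (T.d3 x 1) 1) := congrArg y (T.s3 x 1 1 le_rfl)
      have e12 : y (T.d2 (T.d3 x 3) 1) = y (T.d2 (T.d3 x 1) 2) :=
        congrArg y (T.s3 x 1 2 (by decide))
      have e22 : y (T.d2 (T.d3 x 3) 2) = y (T.d2 (T.d3 x 2) 2) := congrArg y (T.s3 x 2 2 le_rfl)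
      simp only [T.e3]
      linarith only [e00, e01, e02, e11, e12, e22, ew (T.d3 x 0), ew (T.d3 x 1), ew (T.d3 x 2),
        ew (T.d3 x 3)]
  obtain ⟨u, hu, eu⟩ := hM.hc2 w hw fun x => sub_eq_zero.1 (dw x)
  have hu' : (Function.support fun e => u (a • e)).Finite :=
    hu.preimage (MulAction.injective a).injOn
  obtain ⟨s, h1, h2⟩ := hM.hc1 (fun e => y e - (u e - u (a • e))) (zb_sub hy (zb_sub hu hu'))
    fun f => by
      have k := eu (a • f)
      simp only [T.e2] at k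
      linarith only [k, eu f, ew f]
  refine ⟨zb_P a s, zb_P_sm s h1, fun e => ?_⟩
  have k1 : zb_P a (fun e => y e - (u e - u (a • e))) e =
      zb_P a s (T.d1 e 0) - zb_P a s (T.d1 e 1) := by
    unfold zb_P
    rw [← (zb_sum F0 h1 _).tsum_sub (zb_sum F0 h1 _)]
    exact tsum_congr fun n => (h2 _).trans (by rw [T.e1, T.e1])
  have k2 : zb_P a (fun e => u (a • e)) e = zb_P a u e := by
    rw [← zb_P_smul u e]
    exact tsum_congr fun n => by
      show u (a • a ^ n • e) = u (a ^ n • a • e)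
      rw [← mul_smul, ← mul_smul, ← zpow_one_add, ← zpow_add_one, add_comm]
  have k3 := Py e
  unfold zb_P at k1 k2 k3
  rw [(zb_sum F1 hy e).tsum_sub ((zb_sum F1 hu e).sub (zb_sum F1 hu' e)),
    (zb_sum F1 hu e).tsum_sub (zb_sum F1 hu' e), k2, k3, sub_self, sub_zero] at k1
  exact k1

theorem zbase (hM : Mfd T) (hG : Hyp G) (E : Subgroup G) : (base T E).Zp := by
  intro a z hz
  have ok : ∀ e, (base T E).Rp (some (T.d1 e 1)) e (some (T.d1 e 0)) := fun e => ⟨rfl, rfl⟩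
  obtain ⟨s, h1, h2⟩ := zb_wang hM hG (a : G)
    (z := fun e => z (some (T.d1 e 1)) e (some (T.d1 e 0)))
    (fun f => by
      have := hz.coc f _ _ (some (T.d1 (T.d2 f 0) 0)) (ok (T.d2 f 2)) ⟨(sb T f).symm, rfl⟩
        ⟨(sa T f).symm, (sc' T f).symm⟩
      show z _ _ _ = z _ _ _ + z _ _ _
      rw [sa, sc', sb]
      exact this)
    (fun e => by
      show z _ _ _ = z _ _ _
      rw [T.e1, T.e1]
      exact hz.inv _ _ _ (ok e))
    (by
      obtain ⟨S, ⟨K, hK, hS⟩, k⟩ := hz.sup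
      refine ⟨_, hK.biUnion fun v _ => (hM.edges_finite v 1).union (hM.edges_finite v 0),
        fun e he => ?_⟩
      obtain ⟨x, hx, k⟩ := k _ _ _ (ok e) he
      obtain ⟨v, hv, n, ev⟩ := hS x hx
      have ev' : x = (a : G) ^ n • v := ev
      refine ⟨((a : G) ^ n)⁻¹ • e, mem_biUnion hv (k.imp (fun k => ?_) fun k => ?_), n,
        (smul_inv_smul _ _).symm⟩ <;>
      · show T.d1 _ _ = v
        rw [T.e1, Option.some.inj k, ev', inv_smul_smul])
  refine ⟨fun o => o.elim 0 s, rfl, h1, fun p e q h => ?_⟩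
  cases p <;> cases q
  · exact (hz.zero e).trans (sub_self _).symm
  · exact absurd ⟨rfl, h.1⟩ (h.2 _)
  · exact absurd ⟨h.1, rfl⟩ (h.2 _)
  · obtain ⟨rfl, rfl⟩ := h
    exact h2 e

end Pool.Agent.Work.MP_3d425c_gt.Bg
end

-- merged part: Pool.Agent.Work.MP_3d425c_gt.Bq.D1
section
/-! Compactly supported cohomology of the quotient by a rank two lattice: rank at most one in
degree one (Wang sequence twice). -/

namespace Pool.Agent.Work.MP_3d425c_gt.Bq
open Set Relation Pool.Agent.Work.MP_3d425c_gt.Md Pool.Agent.Work.MP_3d425c_gt.Cy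
  Pool.Agent.Work.MP_3d425c_gt.Bg

variable {G X0 X1 X2 X3 : Type} [Group G] [MulAction G X0] [MulAction G X1] [MulAction G X2]
  [MulAction G X3] {T : Tri G X0 X1 X2 X3}

section Gen
variable {X : Type} [MulAction G X] {a b : G}

theorem d1_fr (ha : ∀ n : ℤ, a ^ n = 1 → n = 0) (hX : ∀ (g : G) (x : X), g • x = x → g = 1) :
    zb_Fr a X := fun x i j e => by
  have e' : a ^ i • x = a ^ j • x := e
  have : a ^ (-j + i) • x = x := by rw [zpow_add, zpow_neg, mul_smul, e', inv_smul_smul]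
  have := ha _ (hX _ _ this)
  omega

/-- summable along the orbits -/
def d1_Sb (a : G) (f : X → ℝ) : Prop := ∀ x, Summable fun n : ℤ => f (a ^ n • x)

theorem d1_comm (a : G) (n : ℤ) (x : X) : a • a ^ n • x = a ^ n • a • x := by
  rw [← mul_smul, ← mul_smul, ← zpow_one_add, ← zpow_add_one, add_comm]

theorem d1_Sb.shift {f : X → ℝ} (h : d1_Sb a f) : d1_Sb a fun x => f (a • x) := fun x =>
  (h (a • x)).congr fun n => by
    show f (a ^ n • a • x) = f (a • a ^ n • x)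
    rw [d1_comm]

theorem d1_P_shift {y t : X → ℝ} (hy : d1_Sb a y) (ht : d1_Sb a t) (x : X) :
    zb_P a (fun x => y x - (t x - t (a • x))) x = zb_P a y x := by
  have k2 : zb_P a (fun e => t (a • e)) x = zb_P a t x := by
    rw [← zb_P_smul t x]
    exact tsum_congr fun n => by
      show t (a • a ^ n • x) = t (a ^ n • a • x)
      rw [d1_comm]
  unfold zb_P at k2 ⊢
  rw [(hy x).tsum_sub ((ht x).sub (ht.shift x)), (ht x).tsum_sub (ht.shift x), k2, sub_self,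
    sub_zero]

theorem d1_Sb.lin {y t : X → ℝ} (hy : d1_Sb a y) (ht : d1_Sb a t) (c c' : ℝ) :
    d1_Sb a fun x => c * y x + c' * t x := fun x => ((hy x).mul_left c).add ((ht x).mul_left c')

theorem d1_P_lin {y t : X → ℝ} (hy : d1_Sb a y) (ht : d1_Sb a t) (c c' : ℝ) (x : X) :
    zb_P a (fun x => c * y x + c' * t x) x = c * zb_P a y x + c' * zb_P a t x := by
  unfold zb_P
  rw [((hy x).mul_left c).tsum_add ((ht x).mul_left c'), tsum_mul_left, tsum_mul_left]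

theorem d1_fin_lin {y t : X → ℝ} (hy : (Function.support y).Finite)
    (ht : (Function.support t).Finite) (c c' : ℝ) :
    (Function.support fun x => c * y x + c' * t x).Finite :=
  (hy.union ht).subset fun x hx => by
    by_contra k
    rw [mem_union, not_or, Function.notMem_support, Function.notMem_support] at k
    exact hx (by simp only [k.1, k.2, mul_zero, add_zero])

/-- invariant under `a`, with support finite modulo `a` -/
structure Fa (a : G) (f : X → ℝ) : Prop where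
  inv : ∀ x, f (a • x) = f x
  sm : Sm a (Function.support f)

/-- finite modulo the products of powers of `a` and `b` -/
def Sm2 (a b : G) (S : Set X) : Prop :=
  ∃ K : Set X, K.Finite ∧ ∀ x ∈ S, ∃ k ∈ K, ∃ m n : ℤ, x = (a ^ m * b ^ n) • k

/-- orbits of the powers of `a` -/
def Qa (a : G) (X : Type) [MulAction G X] : Type := Ob (Subgroup.zpowers a) X

/-- the orbit of a point -/
def qa (a : G) (x : X) : Qa a X := ob (Subgroup.zpowers a) x

theorem qa_eq {x y : X} : qa a x = qa a y ↔ ∃ n : ℤ, a ^ n • y = x := by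
  refine ob_eq_iff.trans ⟨?_, fun ⟨n, e⟩ => ⟨⟨a ^ n, Subgroup.zpow_mem_zpowers a n⟩, e⟩⟩
  rintro ⟨⟨_, n, rfl⟩, e⟩
  exact ⟨n, e⟩

theorem qa_surj (q : Qa a X) : ∃ x, qa a x = q := ob_surj q

theorem d1_cen (g : Subgroup.centralizer ({a} : Set G)) (n : ℤ) (x : X) :
    (g : G) • a ^ n • x = a ^ n • (g : G) • x := by
  have : Commute a (g : G) := g.2 a rfl
  rw [← mul_smul, ← mul_smul, (this.zpow_left n).eq]

instance qaAct (a : G) (X : Type) [MulAction G X] :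
    MulAction (Subgroup.centralizer ({a} : Set G)) (Qa a X) where
  smul g := Quotient.map' (fun x => (g : G) • x) fun x y h => by
    obtain ⟨n, e⟩ := qa_eq.1 (show qa a x = qa a y from Quotient.sound' h)
    exact Quotient.exact' (qa_eq.2 ⟨n, by rw [← e, d1_cen]⟩ : qa a ((g : G) • x) = qa a _)
  one_smul q := by
    obtain ⟨x, rfl⟩ := qa_surj q
    exact congrArg (qa a) (one_smul G x)
  mul_smul g h q := by
    obtain ⟨x, rfl⟩ := qa_surj q
    exact congrArg (qa a) (mul_smul (g : G) (h : G) x)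

theorem qa_smul (g : Subgroup.centralizer ({a} : Set G)) (x : X) :
    g • qa a x = qa a ((g : G) • x) := rfl

/-- `b` as an element of the centraliser of `a` -/
def cb (h : Commute a b) : Subgroup.centralizer ({a} : Set G) :=
  ⟨b, fun _ k => by rw [mem_singleton_iff.1 k]; exact h.eq⟩

theorem cb_pow (h : Commute a b) (n : ℤ) (x : X) : cb h ^ n • qa a x = qa a (b ^ n • x) := by
  rw [qa_smul, Subgroup.coe_zpow]
  rfl

theorem cb_smul (h : Commute a b) (x : X) : cb h • qa a x = qa a (b • x) := rfl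

theorem cb_fr (h : Commute a b) (ind : ∀ m n : ℤ, a ^ m * b ^ n = 1 → m = 0 ∧ n = 0)
    (hX : ∀ (g : G) (x : X), g • x = x → g = 1) : zb_Fr (cb h) (Qa a X) := fun q i j e => by
  obtain ⟨x, rfl⟩ := qa_surj q
  have e' : cb h ^ i • qa a x = cb h ^ j • qa a x := e
  rw [cb_pow, cb_pow] at e'
  obtain ⟨n, e'⟩ := qa_eq.1 e'
  have : (a ^ n * b ^ (-i + j)) • x = x := by
    rw [zpow_add, ← mul_assoc, ((h.zpow_zpow n (-i))).eq, mul_assoc, mul_smul, mul_smul, e',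
      zpow_neg, inv_smul_smul]
  have := (ind _ _ (hX _ _ this)).2
  omega

theorem d1_down {f : X → ℝ} (hf : ∀ x, f (a • x) = f x) :
    ∃ g : Qa a X → ℝ, ∀ x, g (qa a x) = f x := by
  refine ⟨fun q => f (qa_surj q).choose, fun x => ?_⟩
  obtain ⟨n, e⟩ := qa_eq.1 (qa_surj (qa a x)).choose_spec
  show f _ = _
  rw [← e, zb_inv hf]

theorem Fa.down {f : X → ℝ} (hf : Fa a f) :
    ∃ g : Qa a X → ℝ, (Function.support g).Finite ∧ ∀ x, g (qa a x) = f x := by
  obtain ⟨g, hg⟩ := d1_down hf.inv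
  obtain ⟨K, hK, hs⟩ := hf.sm
  refine ⟨g, (hK.image (qa a)).subset fun q hq => ?_, hg⟩
  obtain ⟨x, rfl⟩ := qa_surj q
  obtain ⟨k, hk, n, e⟩ := hs x fun k => hq ((hg x).trans k)
  exact ⟨k, hk, (qa_eq.2 ⟨n, e.symm⟩).symm⟩

theorem Fa.up {g : Qa a X → ℝ} (hg : (Function.support g).Finite) :
    Fa a fun x : X => g (qa a x) := by
  refine ⟨fun x => congrArg g (qa_eq.2 ⟨1, by rw [zpow_one]⟩),
    _, hg.image fun q => (qa_surj q).choose, fun x hx => ?_⟩
  obtain ⟨n, e⟩ := qa_eq.1 (qa_surj (qa a x)).choose_spec.symm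
  exact ⟨_, ⟨qa a x, hx, rfl⟩, n, e.symm⟩

theorem d1_P_q (h : Commute a b) {g : Qa a X → ℝ} {f : X → ℝ} (e : ∀ x, g (qa a x) = f x) (x : X) :
    zb_P (cb h) g (qa a x) = zb_P b f x :=
  tsum_congr fun n => by rw [cb_pow, e]

theorem Fa.sb {h : Commute a b} (F : zb_Fr (cb h) (Qa a X)) {f : X → ℝ} (hf : Fa a f) :
    d1_Sb b f := fun x => by
  obtain ⟨g, hg, e⟩ := hf.down
  exact (zb_sum F hg (qa a x)).congr fun n => by rw [cb_pow, e]

theorem Fa.zero {h : Commute a b} (F : zb_Fr (cb h) (Qa a X)) {f : X → ℝ} (hf : Fa a f)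
    (hb : ∀ x, f (b • x) = f x) (x : X) : f x = 0 := by
  obtain ⟨g, hg, e⟩ := hf.down
  rw [← e]
  refine zb_zero F hg (fun q => ?_) _
  obtain ⟨y, rfl⟩ := qa_surj q
  rw [cb_smul, e, e, hb]

theorem Fa.ker {h : Commute a b} (F : zb_Fr (cb h) (Qa a X)) {f : X → ℝ} (hf : Fa a f)
    (h0 : ∀ x, zb_P b f x = 0) : ∃ w : X → ℝ, Fa a w ∧ ∀ x, f x = w x - w (b • x) := by
  obtain ⟨g, hg, e⟩ := hf.down
  obtain ⟨w, hw, ew⟩ := zb_ker F hg fun q => by
    obtain ⟨y, rfl⟩ := qa_surj q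
    rw [d1_P_q h e, h0]
  exact ⟨_, Fa.up hw, fun x => (e x).symm.trans (ew _)⟩

theorem d1_rep {h : Commute a b} (F : zb_Fr (cb h) (Qa a X)) {z : X → ℝ}
    (ha : ∀ x, z (a • x) = z x) (hb : ∀ x, z (b • x) = z x) (hs : Sm2 a b (Function.support z)) :
    ∃ y : X → ℝ, Fa a y ∧ ∀ x, zb_P b y x = z x := by
  obtain ⟨g, e⟩ := d1_down ha
  obtain ⟨K, hK, hs⟩ := hs
  obtain ⟨y, hy, ey⟩ := zb_rep F (z := g) (fun q => by
      obtain ⟨x, rfl⟩ := qa_surj q
      rw [cb_smul, e, e, hb])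
    ⟨_, hK.image (qa a), fun q hq => by
      obtain ⟨x, rfl⟩ := qa_surj q
      obtain ⟨k, hk, m, n, e'⟩ := hs x fun k => hq ((e x).trans k)
      exact ⟨_, ⟨k, hk, rfl⟩, n, by
        rw [cb_pow]
        exact qa_eq.2 ⟨m, by rw [e', mul_smul]⟩⟩⟩
  exact ⟨_, Fa.up hy, fun x => (d1_P_q h (fun _ => rfl) x).symm.trans ((ey _).trans (e x))⟩

theorem Fa.P (h : Commute a b) {f : X → ℝ} (hf : Fa a f) : (∀ x, zb_P b f (a • x) = zb_P b f x) ∧
    Sm2 a b (Function.support (zb_P b f)) := by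
  refine ⟨fun x => tsum_congr fun n => ?_, ?_⟩
  · rw [← hf.inv (b ^ n • x), ← mul_smul, ← mul_smul, (h.zpow_right n).eq]
  · obtain ⟨K, hK, hs⟩ := hf.sm
    refine ⟨K, hK, fun x hx => ?_⟩
    by_contra hn
    refine hx ((tsum_congr fun n => ?_).trans tsum_zero)
    by_contra k
    obtain ⟨c, hc, m, e⟩ := hs _ k
    refine hn ⟨c, hc, m, -n, ?_⟩
    rw [(h.zpow_zpow m (-n)).eq, mul_smul, ← e, zpow_neg, inv_smul_smul]

theorem Fa.of_fin {f : X → ℝ} (hf : (Function.support f).Finite) : Fa a (zb_P a f) :=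
  ⟨zb_P_smul f, zb_P_sm f hf⟩

theorem Fa.lin {y t : X → ℝ} (hy : Fa a y) (ht : Fa a t) (c c' : ℝ) :
    Fa a fun x => c * y x + c' * t x := by
  obtain ⟨g, hg, e⟩ := hy.down
  obtain ⟨g', hg', e'⟩ := ht.down
  have := Fa.up (d1_fin_lin hg hg' c c')
  simpa only [e, e'] using this

theorem Fa.shift (h : Commute a b) {t : X → ℝ} (ht : Fa a t) : Fa a fun x => t (b • x) := by
  obtain ⟨g, hg, e⟩ := ht.down
  have := Fa.up (g := fun q => g (cb h • q)) (hg.preimage (MulAction.injective (cb h)).injOn)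
  simpa only [cb_smul, e] using this

theorem Fa.pull {Y : Type} [MulAction G Y] {f : X → ℝ} (hf : Fa a f) {d : Y → X}
    (he : ∀ (g : G) y, d (g • y) = g • d y) (hd : ∀ x, {y | d y = x}.Finite) :
    Fa a fun y => f (d y) := by
  obtain ⟨K, hK, hs⟩ := hf.sm
  refine ⟨fun y => by rw [he, hf.inv], _, hK.biUnion fun x _ => hd x, fun y hy => ?_⟩
  obtain ⟨k, hk, n, e⟩ := hs (d y) hy
  exact ⟨(a ^ n)⁻¹ • y, mem_biUnion hk (show d _ = k by rw [he, e, inv_smul_smul]), n,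
    (smul_inv_smul _ _).symm⟩

end Gen

/-- coboundaries -/
def d1_c0 (T : Tri G X0 X1 X2 X3) (s : X0 → ℝ) (e : X1) : ℝ := s (T.d1 e 0) - s (T.d1 e 1)
def d1_c1 (T : Tri G X0 X1 X2 X3) (u : X1 → ℝ) (f : X2) : ℝ :=
  u (T.d2 f 2) + u (T.d2 f 0) - u (T.d2 f 1)
def d1_c2 (T : Tri G X0 X1 X2 X3) (w : X2 → ℝ) (x : X3) : ℝ :=
  w (T.d3 x 0) + w (T.d3 x 2) - (w (T.d3 x 1) + w (T.d3 x 3))

theorem d1_c21 (y : X1 → ℝ) (x : X3) : d1_c2 T (d1_c1 T y) x = 0 := by
  have e00 : y (T.d2 (T.d3 x 1) 0) = y (T.d2 (T.d3 x 0) 0) := congrArg y (T.s3 x 0 0 le_rfl)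
  have e01 : y (T.d2 (T.d3 x 2) 0) = y (T.d2 (T.d3 x 0) 1) := congrArg y (T.s3 x 0 1 (by decide))
  have e02 : y (T.d2 (T.d3 x 3) 0) = y (T.d2 (T.d3 x 0) 2) := congrArg y (T.s3 x 0 2 (by decide))
  have e11 : y (T.d2 (T.d3 x 2) 1) = y (T.d2 (T.d3 x 1) 1) := congrArg y (T.s3 x 1 1 le_rfl)
  have e12 : y (T.d2 (T.d3 x 3) 1) = y (T.d2 (T.d3 x 1) 2) := congrArg y (T.s3 x 1 2 (by decide))
  have e22 : y (T.d2 (T.d3 x 3) 2) = y (T.d2 (T.d3 x 2) 2) := congrArg y (T.s3 x 2 2 le_rfl)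
  unfold d1_c2 d1_c1
  linarith only [e00, e01, e02, e11, e12, e22]

theorem d1_P0 {a : G} {s : X0 → ℝ} (h : d1_Sb a s) (e : X1) :
    zb_P a (d1_c0 T s) e = d1_c0 T (zb_P a s) e := by
  unfold zb_P d1_c0
  simp only [T.e1]
  rw [(h _).tsum_sub (h _)]

theorem d1_P1 {a : G} {u : X1 → ℝ} (h : d1_Sb a u) (f : X2) :
    zb_P a (d1_c1 T u) f = d1_c1 T (zb_P a u) f := by
  unfold zb_P d1_c1
  simp only [T.e2]
  rw [((h _).add (h _)).tsum_sub (h _), (h _).tsum_add (h _)]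

theorem d1_P2 {a : G} {w : X2 → ℝ} (h : d1_Sb a w) (x : X3) :
    zb_P a (d1_c2 T w) x = d1_c2 T (zb_P a w) x := by
  unfold zb_P d1_c2
  simp only [T.e3]
  rw [((h _).add (h _)).tsum_sub ((h _).add (h _)), (h _).tsum_add (h _), (h _).tsum_add (h _)]

theorem d1_f2 (T : Tri G X0 X1 X2 X3) (i : Fin 3) (e : X1) : {f | T.d2 f i = e}.Finite := by
  have := T.fin2
  exact fib_finite T.free1 (fun f => T.d2 f i) (fun g f => T.e2 g f i) e

theorem d1_f3 (T : Tri G X0 X1 X2 X3) (i : Fin 4) (f : X2) : {x | T.d3 x i = f}.Finite := by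
  have := T.fin
  exact fib_finite T.free2 (fun x => T.d3 x i) (fun g x => T.e3 g x i) f

theorem d1_fin1 {y : X1 → ℝ} (hy : (Function.support y).Finite) :
    (Function.support (d1_c1 T y)).Finite :=
  zb_sub (zb_add (zb_pull hy (d1_f2 T 2)) (zb_pull hy (d1_f2 T 0))) (zb_pull hy (d1_f2 T 1))

theorem d1_fin2 {w : X2 → ℝ} (hw : (Function.support w).Finite) :
    (Function.support (d1_c2 T w)).Finite :=
  zb_sub (zb_add (zb_pull hw (d1_f3 T 0)) (zb_pull hw (d1_f3 T 2)))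
    (zb_add (zb_pull hw (d1_f3 T 1)) (zb_pull hw (d1_f3 T 3)))

theorem Fa.c1 {a : G} {y : X1 → ℝ} (hy : Fa a y) : Fa a (d1_c1 T y) := by
  have p := fun i => hy.pull (d := fun f => T.d2 f i) (fun g f => T.e2 g f i) (d1_f2 T i)
  have := ((p 2).lin (p 0) 1 1).lin (p 1) 1 (-1)
  refine (show d1_c1 T y = _ from funext fun f => ?_) ▸ this
  unfold d1_c1
  ring

theorem Fa.c2 {a : G} {w : X2 → ℝ} (hw : Fa a w) : Fa a (d1_c2 T w) := by
  have p := fun i => hw.pull (d := fun x => T.d3 x i) (fun g x => T.e3 g x i) (d1_f3 T i)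
  have := ((p 0).lin (p 2) 1 1).lin ((p 1).lin (p 3) 1 1) 1 (-1)
  refine (show d1_c2 T w = _ from funext fun f => ?_) ▸ this
  unfold d1_c2
  ring

/-- degree one, one element of infinite order -/
theorem wang1 (hM : Mfd T) {a : G} (ha : ∀ n : ℤ, a ^ n = 1 → n = 0) {z : X1 → ℝ}
    (hc : ∀ f, d1_c1 T z f = 0) (hz : Fa a z) :
    ∃ s : X0 → ℝ, Fa a s ∧ ∀ e, z e = d1_c0 T s e := by
  have F0 := d1_fr ha T.free
  have F1 := d1_fr ha T.free1
  have F2 := d1_fr ha T.free2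
  have F3 := d1_fr ha T.free3
  obtain ⟨y, hy, Py⟩ := zb_rep F1 hz.inv hz.sm
  obtain ⟨w, hw, ew⟩ := zb_ker F2 (d1_fin1 (T := T) hy) fun f => by
    rw [d1_P1 (zb_sum F1 hy), funext Py, hc]
  have dw := zb_zero F3 (d1_fin2 (T := T) hw) fun x => by
    have k := d1_c21 (T := T) y x
    unfold d1_c2 at k ⊢
    simp only [T.e3]
    linarith only [k, ew (T.d3 x 0), ew (T.d3 x 1), ew (T.d3 x 2), ew (T.d3 x 3)]
  obtain ⟨u, hu, eu⟩ := hM.hc2 w hw fun x => sub_eq_zero.1 (dw x)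
  have hu' : (Function.support fun e => u (a • e)).Finite :=
    hu.preimage (MulAction.injective a).injOn
  obtain ⟨s, h1, h2⟩ := hM.hc1 (fun e => y e - (u e - u (a • e))) (zb_sub hy (zb_sub hu hu'))
    fun f => by
      have k := eu (a • f)
      have k' := ew f
      simp only [T.e2] at k
      unfold d1_c1 at k'
      linarith only [k, eu f, k']
  refine ⟨zb_P a s, Fa.of_fin h1, fun e => ?_⟩
  rw [← d1_P0 (zb_sum F0 h1), ← Py, ← d1_P_shift (zb_sum F1 hy) (zb_sum F1 hu)]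
  exact congrArg (fun t => zb_P a t e) (funext h2)

open Classical in
/-- degree three, finite supports -/
theorem d1_top (T : Tri G X0 X1 X2 X3) : ∃ x₀ : X3, ∀ v : X3 → ℝ, (Function.support v).Finite →
    ∃ (l : ℝ) (u : X2 → ℝ), (Function.support u).Finite ∧
      ∀ x, v x = d1_c2 T u x + l * (if x = x₀ then 1 else 0) := by
  obtain ⟨x₀⟩ := T.ne
  refine ⟨x₀, ?_⟩
  obtain ⟨S, hS⟩ : ∃ S : (X3 → ℝ) → Prop, S = fun v => ∃ (l : ℝ) (u : X2 → ℝ),
    (Function.support u).Finite ∧ ∀ x, v x = d1_c2 T u x + l * (if x = x₀ then 1 else 0) :=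
    ⟨_, rfl⟩
  have lin : ∀ v v' (c c' : ℝ), S v → S v' → S fun x => c * v x + c' * v' x := by
    rw [hS]
    rintro v v' c c' ⟨l, u, hu, e⟩ ⟨l', u', hu', e'⟩
    refine ⟨c * l + c' * l', _, d1_fin_lin hu hu' c c', fun x => ?_⟩
    show c * v x + c' * v' x = _
    rw [e, e']
    unfold d1_c2
    ring
  have cob : ∀ u, (Function.support u).Finite → S (d1_c2 T u) := by
    rw [hS]
    exact fun u hu => ⟨0, u, hu, fun x => by rw [zero_mul, add_zero]⟩
  have one : ∀ (p : X3 × Fin 4) (z : X3), ∃ c : ℝ, c * c = 1 ∧ ∀ z : X3,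
      (if (z, (0 : Fin 4)) = p then (1 : ℝ) else 0) + (if (z, (2 : Fin 4)) = p then 1 else 0) -
        ((if (z, (1 : Fin 4)) = p then 1 else 0) + (if (z, (3 : Fin 4)) = p then 1 else 0)) =
      c * (if z = p.1 then 1 else 0) := by
    rintro ⟨x, k⟩ -
    fin_cases k
    · exact ⟨1, by norm_num, fun z => by by_cases h : z = x <;> simp [h]⟩
    · exact ⟨-1, by norm_num, fun z => by by_cases h : z = x <;> simp [h]⟩
    · exact ⟨1, by norm_num, fun z => by by_cases h : z = x <;> simp [h]⟩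
    · exact ⟨-1, by norm_num, fun z => by by_cases h : z = x <;> simp [h]⟩
  have pq : ∀ (f : X2) (p q : X3 × Fin 4), p ≠ q →
      (∀ r : X3 × Fin 4, T.d3 r.1 r.2 = f ↔ r = p ∨ r = q) →
      S (fun z => if z = p.1 then 1 else 0) → S fun z => if z = q.1 then 1 else 0 := by
    intro f p q hpq h hp
    obtain ⟨c, -, e⟩ := one p x₀
    obtain ⟨c', hc', e'⟩ := one q x₀
    have k : ∀ r : X3 × Fin 4, (if T.d3 r.1 r.2 = f then (1 : ℝ) else 0) =
        (if r = p then 1 else 0) + (if r = q then 1 else 0) := fun r => by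
      by_cases h1 : r = p
      · rw [if_pos ((h r).2 (.inl h1)), if_pos h1, if_neg fun h2 => hpq (h1.symm.trans h2),
          add_zero]
      · by_cases h2 : r = q
        · rw [if_pos ((h r).2 (.inr h2)), if_neg h1, if_pos h2, zero_add]
        · rw [if_neg fun h3 => ((h r).1 h3).elim h1 h2, if_neg h1, if_neg h2, add_zero]
    have := lin _ _ c' (-(c' * c)) (cob (fun g => if g = f then 1 else 0)
      ((finite_singleton f).subset fun g hg => by
        by_contra h1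
        exact hg (if_neg h1))) hp
    refine (congrArg S (funext fun z => ?_)).mp this
    have k0 := k (z, 0)
    have k1 := k (z, 1)
    have k2 := k (z, 2)
    have k3 := k (z, 3)
    have t : d1_c2 T (fun g => if g = f then (1 : ℝ) else 0) z =
        c * (if z = p.1 then 1 else 0) + c' * (if z = q.1 then 1 else 0) := by
      unfold d1_c2
      linarith only [k0, k1, k2, k3, e z, e' z]
    rw [t]
    linear_combination (if z = q.1 then (1 : ℝ) else 0) * hc'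
  have all : ∀ x y, EqvGen (fun x y => ∃ k l, T.d3 x k = T.d3 y l) x y →
      (S (fun z => if z = x then 1 else 0) ↔ S fun z => if z = y then 1 else 0) := by
    intro x y h
    induction h with
    | rel x y h =>
      obtain ⟨k, l, h⟩ := h
      obtain ⟨p, q, hpq, hr⟩ := T.two (T.d3 y l)
      have a1 := pq _ p q hpq hr
      have a2 := pq _ q p hpq.symm fun r => (hr r).trans or_comm
      rcases (hr (x, k)).1 h with h1 | h1 <;> rcases (hr (y, l)).1 rfl with h2 | h2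
      · rw [show x = y from congrArg Prod.fst (h1.trans h2.symm)]
      · subst h1 h2
        exact ⟨a1, a2⟩
      · subst h1 h2
        exact ⟨a2, a1⟩
      · rw [show x = y from congrArg Prod.fst (h1.trans h2.symm)]
    | refl => rfl
    | symm _ _ _ ih => exact ih.symm
    | trans _ _ _ _ _ i1 i2 => exact i1.trans i2
  have sgl : ∀ x, S fun z => if z = x then 1 else 0 := fun x => (all x₀ x (T.conn _ _)).1 (by
    rw [hS]
    exact ⟨1, fun _ => 0, by simp, fun x => by simp [d1_c2]⟩)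
  have fin : ∀ K : Set X3, K.Finite → ∀ v : X3 → ℝ, Function.support v ⊆ K → S v := by
    intro K hK
    induction K, hK using Set.Finite.induction_on with
    | empty =>
      intro v hv
      have := lin _ _ 0 0 (sgl x₀) (sgl x₀)
      refine (congrArg S (funext fun z => ?_)).mp this
      rw [zero_mul, add_zero]
      by_contra k
      exact hv fun k' => k k'.symm
    | @insert x K _ _ ih =>
      intro v hv
      have := lin _ _ 1 (v x) (ih (fun z => if z = x then 0 else v z) fun z hz => by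
        by_cases k : z = x
        · exact absurd (if_pos k) hz
        · exact (hv fun k' => hz ((if_neg k).trans k')).resolve_left k) (sgl x)
      refine (congrArg S (funext fun z => ?_)).mp this
      by_cases k : z = x <;> simp [k]
  intro v hv
  have := fin _ hv v subset_rfl
  rwa [hS] at this

/-- degree two, one element of infinite order -/
theorem wang2 (hM : Mfd T) {a : G} (ha : ∀ n : ℤ, a ^ n = 1 → n = 0) {w w' : X2 → ℝ}
    (hc : ∀ x, d1_c2 T w x = 0) (hw : Fa a w) (hc' : ∀ x, d1_c2 T w' x = 0) (hw' : Fa a w') :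
    ∃ c c' : ℝ, (c ≠ 0 ∨ c' ≠ 0) ∧
      ∃ t : X1 → ℝ, Fa a t ∧ ∀ f, c * w f + c' * w' f = d1_c1 T t f := by
  classical
  have F1 := d1_fr ha T.free1
  have F2 := d1_fr ha T.free2
  have F3 := d1_fr ha T.free3
  obtain ⟨x₀, top⟩ := d1_top T
  obtain ⟨y, hy, Py⟩ := zb_rep F2 hw.inv hw.sm
  obtain ⟨y', hy', Py'⟩ := zb_rep F2 hw'.inv hw'.sm
  obtain ⟨v, hv, ev⟩ := zb_ker F3 (d1_fin2 (T := T) hy) fun f => by
    rw [d1_P2 (zb_sum F2 hy), funext Py, hc]
  obtain ⟨v', hv', ev'⟩ := zb_ker F3 (d1_fin2 (T := T) hy') fun f => by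
    rw [d1_P2 (zb_sum F2 hy'), funext Py', hc']
  obtain ⟨l, u, hu, eu⟩ := top v hv
  obtain ⟨l', u', hu', eu'⟩ := top v' hv'
  obtain ⟨c, c', hcc, e0⟩ : ∃ c c' : ℝ, (c ≠ 0 ∨ c' ≠ 0) ∧ c * l + c' * l' = 0 := by
    by_cases k : l = 0
    · exact ⟨1, 0, .inl one_ne_zero, by rw [k]; ring⟩
    · exact ⟨-l', l, .inr k, by ring⟩
  have hY := d1_fin_lin hy hy' c c'
  have hU := d1_fin_lin hu hu' c c'
  have hU' : (Function.support fun f => c * u (a • f) + c' * u' (a • f)).Finite :=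
    hU.preimage (MulAction.injective a).injOn
  have eV : ∀ x, c * v x + c' * v' x = c * d1_c2 T u x + c' * d1_c2 T u' x := fun x => by
    rw [eu, eu']
    linear_combination (if x = x₀ then (1 : ℝ) else 0) * e0
  obtain ⟨t, ht, et⟩ := hM.hc2 (fun f => c * y f + c' * y' f - (c * u f + c' * u' f -
      (c * u (a • f) + c' * u' (a • f)))) (zb_sub hY (zb_sub hU hU')) fun x => by
    have k1 := eV x
    have k2 := eV (a • x)
    have k3 := ev x
    have k4 := ev' x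
    unfold d1_c2 at k1 k2 k3 k4
    simp only [T.e3] at k2
    linear_combination c * k3 + c' * k4 + k1 - k2
  refine ⟨c, c', hcc, zb_P a t, Fa.of_fin ht, fun f => ?_⟩
  rw [← d1_P1 (zb_sum F1 ht), ← Py, ← Py', ← d1_P_lin (zb_sum F2 hy) (zb_sum F2 hy'),
    ← d1_P_shift (zb_sum F2 hY) (zb_sum F2 hU)]
  exact congrArg (fun t => zb_P a t f) (funext et)

/-- degree one, two commuting independent elements -/
theorem d1_ab (hM : Mfd T) {a b : G} (h : Commute a b)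
    (ind : ∀ m n : ℤ, a ^ m * b ^ n = 1 → m = 0 ∧ n = 0) {z z' : X1 → ℝ}
    (hc : ∀ f, d1_c1 T z f = 0) (za : ∀ e, z (a • e) = z e) (zb : ∀ e, z (b • e) = z e)
    (zs : Sm2 a b (Function.support z))
    (hc' : ∀ f, d1_c1 T z' f = 0) (za' : ∀ e, z' (a • e) = z' e) (zb' : ∀ e, z' (b • e) = z' e)
    (zs' : Sm2 a b (Function.support z')) :
    ∃ c c' : ℝ, (c ≠ 0 ∨ c' ≠ 0) ∧ ∃ s : X0 → ℝ, (∀ v, s (a • v) = s v) ∧ (∀ v, s (b • v) = s v) ∧
      Sm2 a b (Function.support s) ∧ ∀ e, c * z e + c' * z' e = d1_c0 T s e := by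
  have ha : ∀ n : ℤ, a ^ n = 1 → n = 0 := fun n k => (ind n 0 (by rw [k, zpow_zero, one_mul])).1
  have F0 := cb_fr h ind T.free
  have F1 := cb_fr h ind T.free1
  have F2 := cb_fr h ind T.free2
  have F3 := cb_fr h ind T.free3
  have step : ∀ z : X1 → ℝ, (∀ f, d1_c1 T z f = 0) → (∀ e, z (a • e) = z e) →
      (∀ e, z (b • e) = z e) → Sm2 a b (Function.support z) → ∃ (y : X1 → ℝ) (w : X2 → ℝ),
      Fa a y ∧ (∀ e, zb_P b y e = z e) ∧ Fa a w ∧ (∀ f, d1_c1 T y f = w f - w (b • f)) ∧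
      ∀ x, d1_c2 T w x = 0 := fun z hc za zb zs => by
    obtain ⟨y, hy, Py⟩ := d1_rep F1 za zb zs
    obtain ⟨w, hw, ew⟩ := (hy.c1 (T := T)).ker F2 fun f => by
      rw [d1_P1 (hy.sb F1), funext Py, hc]
    refine ⟨y, w, hy, Py, hw, ew, (hw.c2 (T := T)).zero F3 fun x => ?_⟩
    have k := d1_c21 (T := T) y x
    unfold d1_c2 at k ⊢
    simp only [T.e3]
    linarith only [k, ew (T.d3 x 0), ew (T.d3 x 1), ew (T.d3 x 2), ew (T.d3 x 3)]
  obtain ⟨y, w, hy, Py, hw, ew, dw⟩ := step z hc za zb zs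
  obtain ⟨y', w', hy', Py', hw', ew', dw'⟩ := step z' hc' za' zb' zs'
  obtain ⟨c, c', hcc, t, ht, et⟩ := wang2 hM ha dw hw dw' hw'
  have hY := hy.lin hy' c c'
  obtain ⟨s, hs, es⟩ := wang1 hM ha (z := fun e => c * y e + c' * y' e - (t e - t (b • e)))
    (fun f => by
      have k1 := et f
      have k2 := et (b • f)
      have k3 := ew f
      have k4 := ew' f
      unfold d1_c1 at k1 k2 k3 k4 ⊢
      simp only [T.e2] at k2
      linear_combination c * k3 + c' * k4 + k1 - k2)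
    (by
      have := hY.lin (ht.lin (ht.shift h) 1 (-1)) 1 (-1)
      refine (congrArg (Fa a) (funext fun e => ?_)).mp this
      ring)
  refine ⟨c, c', hcc, zb_P b s, (hs.P h).1, zb_P_smul s, (hs.P h).2, fun e => ?_⟩
  rw [← d1_P0 (hs.sb F0), ← Py, ← Py', ← d1_P_lin (hy.sb F1) (hy'.sb F1),
    ← d1_P_shift (hY.sb F1) (ht.sb F1)]
  exact congrArg (fun t => zb_P b t e) (funext es)

/-- Two cocycles invariant under a rank two lattice `P`, with supports finite modulo `P`, are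
linearly dependent modulo coboundaries of the same kind. -/
theorem d1 (hM : Mfd T) (P : Subgroup G) {a b : G} (h : Commute a b)
    (ind : ∀ m n : ℤ, a ^ m * b ^ n = 1 → m = 0 ∧ n = 0)
    (hP : ∀ p, p ∈ P ↔ ∃ m n : ℤ, p = a ^ m * b ^ n) {z z' : X1 → ℝ}
    (hc : ∀ f, z (T.d2 f 1) = z (T.d2 f 2) + z (T.d2 f 0)) (hi : ∀ p ∈ P, ∀ e, z (p • e) = z e)
    (hs : ∃ K : Set X1, K.Finite ∧ ∀ e, z e ≠ 0 → ∃ k ∈ K, ∃ p ∈ P, e = p • k)
    (hc' : ∀ f, z' (T.d2 f 1) = z' (T.d2 f 2) + z' (T.d2 f 0))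
    (hi' : ∀ p ∈ P, ∀ e, z' (p • e) = z' e)
    (hs' : ∃ K : Set X1, K.Finite ∧ ∀ e, z' e ≠ 0 → ∃ k ∈ K, ∃ p ∈ P, e = p • k) :
    ∃ c c' : ℝ, (c ≠ 0 ∨ c' ≠ 0) ∧ ∃ s : X0 → ℝ, (∀ p ∈ P, ∀ v, s (p • v) = s v) ∧
      (∃ K : Set X0, K.Finite ∧ ∀ v, s v ≠ 0 → ∃ k ∈ K, ∃ p ∈ P, v = p • k) ∧
      ∀ e, c * z e + c' * z' e = s (T.d1 e 0) - s (T.d1 e 1) := by
  have ma : a ∈ P := (hP a).2 ⟨1, 0, by rw [zpow_one, zpow_zero, mul_one]⟩
  have mb : b ∈ P := (hP b).2 ⟨0, 1, by rw [zpow_one, zpow_zero, one_mul]⟩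
  have sm : ∀ z : X1 → ℝ, (∃ K : Set X1, K.Finite ∧ ∀ e, z e ≠ 0 → ∃ k ∈ K, ∃ p ∈ P, e = p • k) →
      Sm2 a b (Function.support z) := fun z ⟨K, hK, k⟩ => ⟨K, hK, fun e he => by
    obtain ⟨x, hx, p, hp, e'⟩ := k e he
    obtain ⟨m, n, rfl⟩ := (hP p).1 hp
    exact ⟨x, hx, m, n, e'⟩⟩
  obtain ⟨c, c', hcc, s, sa', sb', ⟨K, hK, ss⟩, es⟩ := d1_ab hM h ind
    (fun f => sub_eq_zero.2 (hc f).symm) (hi a ma) (hi b mb) (sm z hs)
    (fun f => sub_eq_zero.2 (hc' f).symm) (hi' a ma) (hi' b mb) (sm z' hs')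
  refine ⟨c, c', hcc, s, fun p hp v => ?_, ⟨K, hK, fun v hv => ?_⟩, es⟩
  · obtain ⟨m, n, rfl⟩ := (hP p).1 hp
    rw [mul_smul, zb_inv sa', zb_inv sb']
  · obtain ⟨k, hk, m, n, e⟩ := ss v hv
    exact ⟨k, hk, _, (hP _).2 ⟨m, n, rfl⟩, e⟩

/-- a cocycle that is not a coboundary spans -/
theorem d1_span (hM : Mfd T) (P : Subgroup G) {a b : G} (h : Commute a b)
    (ind : ∀ m n : ℤ, a ^ m * b ^ n = 1 → m = 0 ∧ n = 0)
    (hP : ∀ p, p ∈ P ↔ ∃ m n : ℤ, p = a ^ m * b ^ n) {z z' : X1 → ℝ}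
    (hc : ∀ f, z (T.d2 f 1) = z (T.d2 f 2) + z (T.d2 f 0)) (hi : ∀ p ∈ P, ∀ e, z (p • e) = z e)
    (hs : ∃ K : Set X1, K.Finite ∧ ∀ e, z e ≠ 0 → ∃ k ∈ K, ∃ p ∈ P, e = p • k)
    (hc' : ∀ f, z' (T.d2 f 1) = z' (T.d2 f 2) + z' (T.d2 f 0))
    (hi' : ∀ p ∈ P, ∀ e, z' (p • e) = z' e)
    (hs' : ∃ K : Set X1, K.Finite ∧ ∀ e, z' e ≠ 0 → ∃ k ∈ K, ∃ p ∈ P, e = p • k)
    (hn : ∀ s : X0 → ℝ, (∀ p ∈ P, ∀ v, s (p • v) = s v) →
      (∃ K : Set X0, K.Finite ∧ ∀ v, s v ≠ 0 → ∃ k ∈ K, ∃ p ∈ P, v = p • k) →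
      ¬ ∀ e, z' e = s (T.d1 e 0) - s (T.d1 e 1)) :
    ∃ (c : ℝ) (s : X0 → ℝ), (∀ p ∈ P, ∀ v, s (p • v) = s v) ∧
      (∃ K : Set X0, K.Finite ∧ ∀ v, s v ≠ 0 → ∃ k ∈ K, ∃ p ∈ P, v = p • k) ∧
      ∀ e, z e = c * z' e + (s (T.d1 e 0) - s (T.d1 e 1)) := by
  obtain ⟨c, c', hcc, s, si, ⟨K, hK, ss⟩, es⟩ := d1 hM P h ind hP hc hi hs hc' hi' hs'
  have sm : ∀ d : ℝ, ∃ K : Set X0, K.Finite ∧
      ∀ v, d * s v ≠ 0 → ∃ k ∈ K, ∃ p ∈ P, v = p • k :=
    fun d => ⟨K, hK, fun v hv => ss v (right_ne_zero_of_mul hv)⟩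
  by_cases k : c = 0
  · have k' := hcc.resolve_left (not_not.2 k)
    refine absurd (fun e => ?_) (hn (fun v => c'⁻¹ * s v) (fun p hp v => by rw [si p hp]) (sm _))
    have := es e
    rw [k, zero_mul, zero_add] at this
    rw [← mul_sub, ← this, inv_mul_cancel_left₀ k']
  · refine ⟨-(c⁻¹ * c'), fun v => c⁻¹ * s v, fun p hp v => congrArg (c⁻¹ * ·) (si p hp v), sm _,
      fun e => ?_⟩
    rw [← mul_sub, ← es e]
    field_simp
    ring

/-- a subgroup of a rank two lattice is cyclic or has a basis of two elements -/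
theorem d1_basis (Q P : Subgroup G) (hPQ : P ≤ Q) (i : Q ≃* Multiplicative (ℤ × ℤ))
    (hn : ¬ IsCyclic P) : ∃ a b : G, Commute a b ∧
      (∀ m n : ℤ, a ^ m * b ^ n = 1 → m = 0 ∧ n = 0) ∧ ∀ p, p ∈ P ↔ ∃ m n : ℤ, p = a ^ m * b ^ n := by
  classical
  let N : Submodule ℤ (ℤ × ℤ) :=
    { carrier := {x | ((i.symm (Multiplicative.ofAdd x) : Q) : G) ∈ P}
      add_mem' := fun {x y} hx hy => by
        show ((i.symm (Multiplicative.ofAdd (x + y)) : Q) : G) ∈ P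
        rw [ofAdd_add, map_mul, Subgroup.coe_mul]
        exact P.mul_mem hx hy
      zero_mem' := by
        show ((i.symm (Multiplicative.ofAdd 0) : Q) : G) ∈ P
        rw [ofAdd_zero, map_one, Subgroup.coe_one]
        exact P.one_mem
      smul_mem' := fun c x hx => by
        show ((i.symm (Multiplicative.ofAdd (c • x)) : Q) : G) ∈ P
        rw [ofAdd_zsmul, map_zpow, Subgroup.coe_zpow]
        exact P.zpow_mem hx c }
  let j : ℤ × ℤ → G := fun x => ((i.symm (Multiplicative.ofAdd x) : Q) : G)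
  have jadd : ∀ x y, j (x + y) = j x * j y := fun x y => by
    show ((i.symm (Multiplicative.ofAdd (x + y)) : Q) : G) = _
    rw [ofAdd_add, map_mul, Subgroup.coe_mul]
  have jsm : ∀ (c : ℤ) x, j (c • x) = j x ^ c := fun c x => by
    show ((i.symm (Multiplicative.ofAdd (c • x)) : Q) : G) = _
    rw [ofAdd_zsmul, map_zpow, Subgroup.coe_zpow]
  have jinj : ∀ x, j x = 1 → x = 0 := fun x hx => by
    have : i.symm (Multiplicative.ofAdd x) = 1 := Subtype.ext hx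
    exact (map_eq_one_iff _ i.symm.injective).1 this
  have jsurj : ∀ p ∈ P, ∃ x : N, j x = p := fun p hp =>
    ⟨⟨Multiplicative.toAdd (i ⟨p, hPQ hp⟩), by
      show ((i.symm (Multiplicative.ofAdd _) : Q) : G) ∈ P
      rw [ofAdd_toAdd, i.symm_apply_apply]
      exact hp⟩, by
      show ((i.symm (Multiplicative.ofAdd _) : Q) : G) = p
      rw [ofAdd_toAdd, i.symm_apply_apply]⟩
  obtain ⟨n, B⟩ := N.basisOfPid (Module.Basis.finTwoProd ℤ)
  have hn2 : n ≤ 2 := by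
    have e1 := Module.finrank_eq_card_basis B
    have e2 := Submodule.finrank_le N
    rw [Module.finrank_eq_card_basis (Module.Basis.finTwoProd ℤ), e1] at e2
    simpa using e2
  have cyc : ∀ x : N, (∀ y : N, ∃ c : ℤ, y = c • x) → False := fun x hx => hn (by
    refine ⟨⟨⟨j x, x.2⟩, fun p => ?_⟩⟩
    obtain ⟨y, hy⟩ := jsurj p p.2
    obtain ⟨c, rfl⟩ := hx y
    exact ⟨c, Subtype.ext ((jsm c x).symm.trans hy)⟩)
  obtain rfl | rfl | rfl : n = 0 ∨ n = 1 ∨ n = 2 := by omega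
  · exact (cyc 0 fun y => ⟨0, by rw [← B.sum_repr y]; simp⟩).elim
  · exact (cyc (B 0) fun y => ⟨B.repr y 0, by
      have := B.sum_repr y
      rw [Fin.sum_univ_one] at this
      exact this.symm⟩).elim
  · have e : ∀ m n : ℤ, j (B 0) ^ m * j (B 1) ^ n = j (m • B 0 + n • B 1 : N) := fun m n => by
      rw [← jsm, ← jsm, ← jadd]
      rfl
    refine ⟨j (B 0), j (B 1), ?_, fun m n k => ?_, fun p => ⟨fun hp => ?_, ?_⟩⟩
    · show _ * _ = _ * _
      rw [← jadd, ← jadd, add_comm]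
    · rw [e] at k
      have k' : (m • B 0 + n • B 1 : N) = 0 := Subtype.ext (jinj _ k)
      have k0 := congrArg (fun y => B.repr y 0) k'
      have k1 := congrArg (fun y => B.repr y 1) k'
      simp at k0 k1
      exact ⟨k0, k1⟩
    · obtain ⟨y, rfl⟩ := jsurj p hp
      refine ⟨B.repr y 0, B.repr y 1, ?_⟩
      have := B.sum_repr y
      rw [Fin.sum_univ_two] at this
      rw [e, this]
    · rintro ⟨m, n, rfl⟩
      rw [e]
      exact (m • B 0 + n • B 1 : N).2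

end Pool.Agent.Work.MP_3d425c_gt.Bq
end

-- merged part: Pool.Agent.Work.MP_3d425c_gt.Bg.Zres
section
/-! The invariant passes to subobjects without closed-off finite pieces. -/

namespace Pool.Agent.Work.MP_3d425c_gt.Bg
open Set Relation Pool.Agent.Work.MP_3d425c_gt.Md Pool.Agent.Work.MP_3d425c_gt.Cy

variable {G X0 X1 X2 X3 : Type} [Group G] [MulAction G X0] [MulAction G X1] [MulAction G X2]
  [MulAction G X3] {T : Tri G X0 X1 X2 X3} {E : Subgroup G} {Ω : Type} [MulAction E Ω]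

open Classical in
/-- vertices outside `F` become absent -/
noncomputable def zr_r (F : SubMulAction E Ω) : Option Ω → Option F
  | none => none
  | some x => if h : x ∈ F then some ⟨x, h⟩ else none

theorem zr_none (F : SubMulAction E Ω) : zr_r F none = none := rfl

theorem zr_in {F : SubMulAction E Ω} {x : Ω} (h : x ∈ F) : zr_r F (some x) = some ⟨x, h⟩ :=
  dif_pos h

theorem zr_out {F : SubMulAction E Ω} {x : Ω} (h : x ∉ F) : zr_r F (some x) = none := dif_neg h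

theorem zr_some {F : SubMulAction E Ω} {a : Option Ω} {x : F} (h : zr_r F a = some x) :
    a = some x.1 := by
  cases a with
  | none => cases h
  | some y =>
    by_cases k : y ∈ F
    · rw [zr_in k] at h
      cases h
      rfl
    · rw [zr_out k] at h
      cases h

theorem zr_eq_none {F : SubMulAction E Ω} {a : Option Ω} (h : ∀ y ∈ F, a ≠ some y) :
    zr_r F a = none := by
  cases k : zr_r F a with
  | none => rfl
  | some x => exact absurd (zr_some k) (h x.1 x.2)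

theorem zr_smul (F : SubMulAction E Ω) (g : E) (a : Option Ω) :
    zr_r F (g • a) = g • zr_r F a := by
  cases a with
  | none => rfl
  | some y =>
    show zr_r F (some (g • y)) = _
    by_cases k : y ∈ F
    · rw [zr_in k, zr_in (F.smul_mem g k)]
      rfl
    · rw [zr_out k, zr_out fun q => k ((F.smul_mem_iff' g).1 q)]
      rfl

theorem zr_rp (W : Et T E Ω) (F : SubMulAction E Ω) {a b : Option Ω} {e : X1} (h : W.Rp a e b) :
    (W.res F).Rp (zr_r F a) e (zr_r F b) := by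
  cases a with
  | none =>
    cases b with
    | none => trivial
    | some y =>
      by_cases k : y ∈ F
      · rw [zr_in k]
        exact ⟨h.1, fun a => h.2 a.1⟩
      · rw [zr_out k]
        trivial
  | some x =>
    cases b with
    | none =>
      by_cases k : x ∈ F
      · rw [zr_in k]
        exact ⟨h.1, fun a => h.2 a.1⟩
      · rw [zr_out k]
        trivial
    | some y =>
      by_cases k : x ∈ F <;> by_cases k' : y ∈ F
      · rw [zr_in k, zr_in k']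
        exact h
      · rw [zr_in k, zr_out k']
        exact ⟨W.src _ _ _ h, fun b q => k' (W.fn _ _ _ _ q h ▸ b.2)⟩
      · rw [zr_out k, zr_in k']
        exact ⟨W.tgt _ _ _ h, fun b q => k (W.inj _ _ _ _ q h ▸ b.2)⟩
      · rw [zr_out k, zr_out k']
        trivial

theorem zr_lift (W : Et T E Ω) (F : SubMulAction E Ω) {a b : Option F} {e : X1}
    (h : (W.res F).Rp a e b) : ∃ a' b', W.Rp a' e b' ∧ zr_r F a' = a ∧ zr_r F b' = b := by
  cases a with
  | none =>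
    cases b with
    | none => exact ⟨none, none, trivial, rfl, rfl⟩
    | some y =>
      obtain ⟨a, k⟩ := W.rp_tail (b := y.1) h.1
      refine ⟨a, some y.1, k, zr_eq_none fun x hx q => ?_, zr_in y.2⟩
      subst q
      exact h.2 ⟨x, hx⟩ k
  | some x =>
    cases b with
    | none =>
      obtain ⟨b, k⟩ := W.rp_head (a := x.1) h.1
      refine ⟨some x.1, b, k, zr_in x.2, zr_eq_none fun y hy q => ?_⟩
      subst q
      exact h.2 ⟨y, hy⟩ k
    | some y => exact ⟨some x.1, some y.1, h, zr_in x.2, zr_in y.2⟩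

theorem zres (W : Et T E Ω) (F : SubMulAction E Ω) (hW : W.Zp)
    (hF : ∀ x, x ∉ F → ∀ (a₀ : E) (s : Option Ω → ℝ), s none = 0 → Sm a₀ {y | s (some y) ≠ 0} →
      (∀ a e b, W.Rp a e b → (∀ y ∈ F, a ≠ some y ∧ b ≠ some y) → s a = s b) → s (some x) = 0) :
    (W.res F).Zp := by
  intro a₀ z hz
  have hR : W.Rc a₀ fun a e b => z (zr_r F a) e (zr_r F b) := by
    refine ⟨hz.zero, fun f a b c h1 h2 h3 => hz.coc f _ _ _ (zr_rp W F h1) (zr_rp W F h2)
      (zr_rp W F h3), fun a e b h => ?_, ?_⟩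
    · rw [zr_smul, zr_smul]
      exact hz.inv _ _ _ (zr_rp W F h)
    · obtain ⟨S, ⟨K, hK, hS⟩, h⟩ := hz.sup
      refine ⟨Subtype.val '' S, ⟨Subtype.val '' K, hK.image _, ?_⟩, fun a e b k k' => ?_⟩
      · rintro _ ⟨x, hx, rfl⟩
        obtain ⟨k, hk, n, rfl⟩ := hS x hx
        exact ⟨k.1, ⟨k, hk, rfl⟩, n, rfl⟩
      · obtain ⟨x, hx, q⟩ := h _ _ _ (zr_rp W F k) k'
        exact ⟨x.1, ⟨x, hx, rfl⟩, q.imp zr_some zr_some⟩
  obtain ⟨s, h0, hs, h⟩ := hW a₀ _ hR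
  have off : ∀ x, x ∉ F → s (some x) = 0 := fun x hx => hF x hx a₀ s h0 hs fun a e b k q => by
    have k' := h a e b k
    rw [zr_eq_none fun y hy => (q y hy).1, zr_eq_none fun y hy => (q y hy).2, hz.zero] at k'
    linarith
  have key : ∀ a, s ((zr_r F a).map Subtype.val) = s a := fun a => by
    cases a with
    | none => rfl
    | some y =>
      by_cases k : y ∈ F
      · rw [zr_in k]
        rfl
      · rw [zr_out k, off y k]
        exact h0
  refine ⟨fun o => s (o.map Subtype.val), h0, ?_, fun a e b k => ?_⟩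
  · obtain ⟨K, hK, hS⟩ := hs
    refine ⟨Subtype.val ⁻¹' K, hK.preimage Subtype.val_injective.injOn, fun x hx => ?_⟩
    obtain ⟨k, hk, n, q⟩ := hS x.1 hx
    exact ⟨⟨k, (F.smul_mem_iff' (a₀ ^ n)).1 (q ▸ x.2)⟩, hk, n, Subtype.ext q⟩
  · obtain ⟨a', b', k', rfl, rfl⟩ := zr_lift W F k
    beta_reduce
    rw [key, key]
    exact h a' e b' k'

end Pool.Agent.Work.MP_3d425c_gt.Bg
end

-- merged part: Pool.Agent.Work.MP_3d425c_gt.Bg.Start
section
/-! The first stage. -/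

namespace Pool.Agent.Work.MP_3d425c_gt.Bg
open Set Relation Pool.Agent.Work.MP_3d425c_gt.Md Pool.Agent.Work.MP_3d425c_gt.Cy

variable {G X0 X1 X2 X3 : Type} [Group G] [MulAction G X0] [MulAction G X1] [MulAction G X2]
  [MulAction G X3] {T : Tri G X0 X1 X2 X3} {E : Subgroup G} {Ω : Type} [MulAction E Ω]

/-- finite modulo the group -/
def st_FM (E : Subgroup G) {Ω : Type} [MulAction E Ω] (S : Set Ω) : Prop :=
  ∃ K : Set Ω, K.Finite ∧ ∀ x ∈ S, ∃ k ∈ K, ∃ g : E, x = g • k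

/-- the component in the complement of `I` -/
def st_Cp (W : Et T E Ω) (I : Set Ω) (x : Ω) : Set Ω :=
  {y | ReflTransGen (fun a b => W.Adj a b ∧ a ∉ I ∧ b ∉ I) x y}

theorem st_FM.mono {S S' : Set Ω} (h : st_FM E S) (h' : S' ⊆ S) : st_FM E S' :=
  h.imp fun _ k => ⟨k.1, fun x hx => k.2 x (h' hx)⟩

theorem st_adj_smul {W : Et T E Ω} (g : E) {a b : Ω} (h : W.Adj a b) : W.Adj (g • a) (g • b) := by
  obtain ⟨e, h⟩ := h
  exact ⟨g • e, h.imp (W.R_smul g _ _ _) (W.R_smul g _ _ _)⟩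

theorem st_St_adj {W : Et T E Ω} {a b : Ω} {l : X1 × Bool} (h : St W.R a l b) : W.Adj a b := by
  unfold St at h
  split_ifs at h
  · exact ⟨_, Or.inl h⟩
  · exact ⟨_, Or.inr h⟩

theorem st_Pth_rtg {W : Et T E Ω} {a b : Ω} {q : List (X1 × Bool)} (h : Pth W.R a q b) :
    ReflTransGen W.Adj a b := by
  induction h with
  | nil a => exact .refl
  | cons h _ ih => exact .head (st_St_adj h) ih

theorem st_rtg_symm {W : Et T E Ω} {a b : Ω} (h : ReflTransGen W.Adj a b) :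
    ReflTransGen W.Adj b a := by
  induction h with
  | refl => exact .refl
  | tail _ h ih => exact .head h.symm ih

theorem st_rtg_smul {W : Et T E Ω} (g : E) {a b : Ω} (h : ReflTransGen W.Adj a b) :
    ReflTransGen W.Adj (g • a) (g • b) := by
  induction h with
  | refl => exact .refl
  | tail _ h ih => exact .tail ih (st_adj_smul g h)

theorem st_Cp_symm {W : Et T E Ω} {I : Set Ω} {x y : Ω} (h : y ∈ st_Cp W I x) :
    x ∈ st_Cp W I y := by
  induction h with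
  | refl => exact .refl
  | tail _ h ih => exact ReflTransGen.head ⟨h.1.symm, h.2.2, h.2.1⟩ ih

theorem st_Cp_trans {W : Et T E Ω} {I : Set Ω} {x y : Ω} (h : y ∈ st_Cp W I x) :
    st_Cp W I y ⊆ st_Cp W I x := fun _ k => ReflTransGen.trans h k

theorem st_Cp_not {W : Et T E Ω} {I : Set Ω} {x y : Ω} (hx : x ∉ I) (h : y ∈ st_Cp W I x) :
    y ∉ I := by
  induction h with
  | refl => exact hx
  | tail _ h _ => exact h.2.2

theorem st_Cp_smul {W : Et T E Ω} {I : Set Ω} (hI : ∀ (g : E), ∀ x ∈ I, g • x ∈ I) (g : E)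
    {x y : Ω} (h : y ∈ st_Cp W I x) : g • y ∈ st_Cp W I (g • x) := by
  have k : ∀ a, a ∉ I → g • a ∉ I := fun a ha k => ha (by simpa using hI g⁻¹ _ k)
  induction h with
  | refl => exact .refl
  | tail _ h ih => exact ReflTransGen.tail ih ⟨st_adj_smul g h.1, k _ h.2.1, k _ h.2.2⟩

theorem st_FM_smul {W : Et T E Ω} {I : Set Ω} (hI : ∀ (g : E), ∀ x ∈ I, g • x ∈ I) (g : E)
    {x : Ω} (h : st_FM E (st_Cp W I x)) : st_FM E (st_Cp W I (g • x)) := by
  obtain ⟨K, hK, h⟩ := h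
  refine ⟨K, hK, fun y hy => ?_⟩
  have h1 := st_Cp_smul hI g⁻¹ hy
  rw [inv_smul_smul] at h1
  obtain ⟨k, hk, a, ha⟩ := h _ h1
  exact ⟨k, hk, g * a, by rw [mul_smul, ← ha, smul_inv_smul]⟩

/-- the first hit of `I` along a path -/
theorem st_hit {W : Et T E Ω} {I : Set Ω} {x v : Ω} {q : List (X1 × Bool)} (h : Pth W.R x q v)
    (hv : v ∈ I) : x ∈ I ∨ ∃ y ∈ st_Cp W I x, ∃ i ∈ I, W.Adj y i := by
  induction h with
  | nil a => exact Or.inl hv
  | @cons a l b q c h _ ih =>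
    by_cases ha : a ∈ I
    · exact Or.inl ha
    by_cases hb : b ∈ I
    · exact Or.inr ⟨a, .refl, b, hb, st_St_adj h⟩
    obtain ⟨y, hy, k⟩ := (ih hv).resolve_left hb
    exact Or.inr ⟨y, ReflTransGen.head ⟨st_St_adj h, ha, hb⟩ hy, k⟩

/-- the invariant set together with the components of its complement that are finite modulo `E` -/
def st_F (W : Et T E Ω) (I : Set Ω) (hI : ∀ (g : E), ∀ x ∈ I, g • x ∈ I) : SubMulAction E Ω :=
  ⟨{x | x ∈ I ∨ st_FM E (st_Cp W I x)}, fun g _ h => h.imp (hI g _) (st_FM_smul hI g)⟩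

theorem st_F_FM (hM : Mfd T) {W : Et T E Ω} {I : Set Ω} (hI : ∀ (g : E), ∀ x ∈ I, g • x ∈ I)
    (hf : st_FM E I) (hc : ∀ x, x ∈ I ∨ ∃ y ∈ st_Cp W I x, ∃ i ∈ I, W.Adj y i) :
    st_FM E {x | x ∈ st_F W I hI} := by
  classical
  obtain ⟨K, hK, hf⟩ := hf
  obtain ⟨L, hL⟩ : ∃ L : Ω → Set Ω, ∀ n, (L n).Finite ∧ (st_FM E (st_Cp W I n) →
      ∀ x ∈ st_Cp W I n, ∃ k ∈ L n, ∃ g : E, x = g • k) := by
    refine ⟨fun n => if h : st_FM E (st_Cp W I n) then h.choose else ∅, fun n => ?_⟩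
    by_cases h : st_FM E (st_Cp W I n)
    · simp only [dif_pos h]
      exact ⟨h.choose_spec.1, fun _ => h.choose_spec.2⟩
    · simp only [dif_neg h]
      exact ⟨finite_empty, fun k => absurd k h⟩
  refine ⟨K ∪ ⋃ k ∈ K, ⋃ n ∈ {b | W.Adj k b}, L n, hK.union (hK.biUnion fun k _ =>
    (hM.adj_finite W k).biUnion fun n _ => (hL n).1), fun x hx => ?_⟩
  by_cases hxI : x ∈ I
  · obtain ⟨k, hk, h⟩ := hf x hxI
    exact ⟨k, Or.inl hk, h⟩
  have hx' : st_FM E (st_Cp W I x) := Or.resolve_left hx hxI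
  obtain ⟨y, hy, i, hi, ha⟩ := (hc x).resolve_left hxI
  obtain ⟨k, hk, g, rfl⟩ := hf i hi
  have h1 := st_adj_smul g⁻¹ ha.symm
  rw [inv_smul_smul] at h1
  obtain ⟨m, hm, a, h2⟩ := (hL (g⁻¹ • y)).2 (st_FM_smul hI g⁻¹ (hx'.mono (st_Cp_trans hy))) _
    (st_Cp_smul hI g⁻¹ (st_Cp_symm hy))
  exact ⟨m, Or.inr (mem_iUnion₂.2 ⟨k, hk, mem_iUnion₂.2 ⟨_, h1, hm⟩⟩), g * a, by
    rw [mul_smul, ← h2, smul_inv_smul]⟩

theorem st_finite {F : SubMulAction E Ω} (h : st_FM E {x | x ∈ F}) : Finite (Ob E F) := by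
  obtain ⟨K, hK, h⟩ := h
  have h1 : {k : F | k.1 ∈ K}.Finite := hK.preimage Subtype.val_injective.injOn
  have := h1.to_subtype
  refine Finite.of_surjective (fun k : {k : F | k.1 ∈ K} => ob E k.1) fun o => ?_
  obtain ⟨x, rfl⟩ := Quotient.exists_rep o
  obtain ⟨k, hk, g, e⟩ := h x.1 x.2
  have h2 : (g⁻¹ • x).1 = k := by
    show g⁻¹ • x.1 = k
    rw [e, inv_smul_smul]
  exact ⟨⟨g⁻¹ • x, by
    show (g⁻¹ • x).1 ∈ K
    rwa [h2]⟩, Quotient.sound ⟨g⁻¹, rfl⟩⟩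

/-- short paths stay in any invariant set that contains the ends of the short paths -/
theorem st_short {W : Et T E Ω} {F : SubMulAction E Ω} {ω : Ω} {ρ : ℕ}
    (hF : ∀ x ∈ W.Im ω ρ, x ∈ F) {a b : Ω} {q : List (X1 × Bool)} (h : Pth W.R a q b) :
    ∀ p, Pth W.R ω p a → p.length + q.length ≤ ρ →
      ∃ (ha : a ∈ F) (hb : b ∈ F), Pth (W.res F).R ⟨a, ha⟩ q ⟨b, hb⟩ := by
  induction h with
  | nil a =>
    intro p hp hl
    have ha : a ∈ F := hF a ⟨1, p, a, (Nat.le_add_right _ _).trans hl, hp, (one_smul _ _).symm⟩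
    exact ⟨ha, ha, .nil _⟩
  | @cons a l b q c h _ ih =>
    intro p hp hl
    have ha : a ∈ F := hF a ⟨1, p, a, (Nat.le_add_right _ _).trans hl, hp, (one_smul _ _).symm⟩
    obtain ⟨hb, hc, k⟩ := ih (p ++ [l]) (hp.append (.cons h (.nil _))) (by
      simp only [List.length_append, List.length_cons, List.length_nil] at hl ⊢
      omega)
    have h' : St (W.res F).R ⟨a, ha⟩ l ⟨b, hb⟩ := by
      unfold St at h ⊢
      exact h
    exact ⟨ha, hc, .cons h' k⟩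

theorem st_Cp_rtg {W : Et T E Ω} {I : Set Ω} {F : SubMulAction E Ω} {x y : Ω}
    (hF : ∀ y ∈ st_Cp W I x, y ∈ F) (h : y ∈ st_Cp W I x) :
    ReflTransGen (W.res F).Adj ⟨x, hF x .refl⟩ ⟨y, hF y h⟩ := by
  induction h with
  | refl => exact .refl
  | tail k h ih => exact ReflTransGen.tail ih h.1

theorem start (hM : Mfd T) (hG : Hyp G) (D : Dat T E) :
    ∃ (F : SubMulAction E X0) (h : D.v ∈ F), Stg D ((base T E).res F) ⟨D.v, h⟩ := by
  have hI : ∀ (g : E), ∀ x ∈ (base T E).Im D.v D.ρ, g • x ∈ (base T E).Im D.v D.ρ := by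
    rintro g x ⟨a, q, b, h1, h2, rfl⟩
    exact ⟨g * a, q, b, h1, h2, (mul_smul _ _ _).symm⟩
  have hv : D.v ∈ (base T E).Im D.v D.ρ := ⟨1, [], D.v, Nat.zero_le _, .nil _, (one_smul _ _).symm⟩
  have hc : ∀ x, x ∈ (base T E).Im D.v D.ρ ∨ ∃ y ∈ st_Cp (base T E) ((base T E).Im D.v D.ρ) x,
      ∃ i ∈ (base T E).Im D.v D.ρ, (base T E).Adj y i := fun x => by
    obtain ⟨q, hq⟩ := hM.conn x D.v
    exact st_hit (W := base T E) hq hv
  have hf : st_FM E ((base T E).Im D.v D.ρ) := by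
    refine ⟨⋃ q ∈ {q : List (X1 × Bool) | q.length ≤ D.ρ ∧ ∃ u, Pth (bR T) D.v q u},
      {u | Pth (bR T) D.v q u}, (hM.paths_finite D.v D.ρ).biUnion fun q _ =>
        Set.Subsingleton.finite fun u hu u' hu' => Pth.det (base T E) hu hu', ?_⟩
    rintro x ⟨a, q, b, h1, h2, rfl⟩
    exact ⟨b, mem_iUnion₂.2 ⟨q, ⟨h1, b, h2⟩, h2⟩, a, rfl⟩
  obtain ⟨F, hF⟩ : ∃ F, F = st_F (base T E) _ hI := ⟨_, rfl⟩
  have mF : ∀ x, x ∈ F ↔ x ∈ (base T E).Im D.v D.ρ ∨
      st_FM E (st_Cp (base T E) ((base T E).Im D.v D.ρ) x) := fun x => by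
    rw [hF]
    rfl
  have iF : ∀ x ∈ (base T E).Im D.v D.ρ, x ∈ F := fun x hx => (mF x).2 (Or.inl hx)
  have sh : ∀ q b, Pth (bR T) D.v q b → q.length ≤ D.ρ →
      ∃ hb : b ∈ F, Pth ((base T E).res F).R ⟨D.v, iF _ hv⟩ q ⟨b, hb⟩ := fun q b h hl => by
    obtain ⟨_, hb, k⟩ := st_short (W := base T E) iF h [] (.nil _) (by simpa using hl)
    exact ⟨hb, k⟩
  have gen : ∀ g ∈ D.S, Pth ((base T E).res F).R ⟨D.v, iF _ hv⟩ (D.p g)
      (g • (⟨D.v, iF _ hv⟩ : F)) := fun g hg => by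
    obtain ⟨_, k⟩ := sh _ _ (D.pth g hg).1 (D.pth g hg).2
    exact k
  have cg : ∀ g : E, ReflTransGen ((base T E).res F).Adj ⟨D.v, iF _ hv⟩
      (g • (⟨D.v, iF _ hv⟩ : F)) := by
    intro g
    have hg : g ∈ Subgroup.closure D.S := D.gen ▸ Subgroup.mem_top g
    induction hg using Subgroup.closure_induction with
    | mem g hg => exact st_Pth_rtg (gen g hg)
    | one => rw [one_smul]
    | mul g g' _ _ k k' =>
      rw [mul_smul]
      exact k.trans (st_rtg_smul g k')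
    | inv g _ k =>
      have k' := st_rtg_smul g⁻¹ k
      rw [inv_smul_smul] at k'
      exact st_rtg_symm k'
  have cI : ∀ x (hx : x ∈ (base T E).Im D.v D.ρ),
      ReflTransGen ((base T E).res F).Adj ⟨D.v, iF _ hv⟩ ⟨x, iF x hx⟩ := by
    rintro x ⟨a, q, b, h1, h2, rfl⟩
    obtain ⟨hb, k⟩ := sh q b h2 h1
    exact (cg a).trans (st_rtg_smul a (st_Pth_rtg k))
  refine ⟨F, iF _ hv, ⟨st_finite (hF ▸ st_F_FM hM hI hf hc), fun x => ?_⟩, ?_, rfl,
    fun q u h hl => (sh q u h hl).elim fun hb k => ⟨_, k⟩, gen⟩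
  · by_cases hx : x.1 ∈ (base T E).Im D.v D.ρ
    · exact cI x.1 hx
    have hx' := ((mF x.1).1 x.2).resolve_left hx
    obtain ⟨y, hy, i, hi, ha⟩ := (hc x.1).resolve_left hx
    have k := st_Cp_rtg (F := F) (fun y hy => (mF y).2 (Or.inr (hx'.mono (st_Cp_trans hy)))) hy
    have ha' : ((base T E).res F).Adj ⟨i, iF i hi⟩
        ⟨y, (mF y).2 (Or.inr (hx'.mono (st_Cp_trans hy)))⟩ := ha.symm
    exact ((cI i hi).tail ha').trans (st_rtg_symm k)
  · refine zres _ F (zbase hM hG E) fun x hx a₀ s _ hs he => by_contra fun hn => ?_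
    have hx1 : x ∉ (base T E).Im D.v D.ρ := fun k => hx (iF x k)
    have hy : ∀ y ∈ st_Cp (base T E) ((base T E).Im D.v D.ρ) x, y ∉ F := fun y hy k =>
      ((mF y).1 k).elim (st_Cp_not hx1 hy) fun k' =>
        hx ((mF x).2 (Or.inr (k'.mono (st_Cp_trans (st_Cp_symm hy)))))
    have hs' : ∀ y ∈ st_Cp (base T E) ((base T E).Im D.v D.ρ) x, s (some y) = s (some x) := by
      intro y h
      induction h with
      | refl => rfl
      | @tail b c k h ih =>
        have hb := hy b k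
        have hc' := hy c (ReflTransGen.tail k h)
        rw [← ih]
        obtain ⟨e, h1 | h1⟩ := h.1
        · exact (he (some b) e (some c) h1 fun y hy' =>
            ⟨fun t => hb (Option.some.inj t ▸ hy'), fun t => hc' (Option.some.inj t ▸ hy')⟩).symm
        · exact he (some c) e (some b) h1 fun y hy' =>
            ⟨fun t => hc' (Option.some.inj t ▸ hy'), fun t => hb (Option.some.inj t ▸ hy')⟩
    obtain ⟨K, hK, h⟩ := hs
    refine hx ((mF x).2 (Or.inr ⟨K, hK, fun y k => ?_⟩))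
    obtain ⟨m, hm, n, e⟩ := h y (fun t => hn ((hs' y k).symm.trans t))
    exact ⟨m, hm, a₀ ^ n, e⟩

end Pool.Agent.Work.MP_3d425c_gt.Bg
end

-- merged part: Pool.Agent.Work.MP_3d425c_gt.Bg.Zcov
section
/-! The invariant passes to the cover along a real cocycle. -/

namespace Pool.Agent.Work.MP_3d425c_gt.Bg
open Set Relation Pool.Agent.Work.MP_3d425c_gt.Md Pool.Agent.Work.MP_3d425c_gt.Cy

variable {G X0 X1 X2 X3 : Type} [Group G] [MulAction G X0] [MulAction G X1] [MulAction G X2]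
  [MulAction G X3] {T : Tri G X0 X1 X2 X3} {E : Subgroup G} {Ω : Type} [MulAction E Ω]

/-- the moment of `f` against a polynomial -/
noncomputable def zc_mo (P : Polynomial ℝ) (f : ℝ → ℝ) : ℝ := ∑ᶠ r, P.eval r * f r

theorem zc_fs (φ : ℝ → ℝ) {f : ℝ → ℝ} (hf : (Function.support f).Finite) :
    (Function.support fun r => φ r * f r).Finite :=
  hf.subset fun _ hr => right_ne_zero_of_mul hr

theorem zc_mo_add (P : Polynomial ℝ) {f g : ℝ → ℝ} (hf : (Function.support f).Finite)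
    (hg : (Function.support g).Finite) :
    zc_mo P (fun r => f r + g r) = zc_mo P f + zc_mo P g := by
  unfold zc_mo
  rw [← finsum_add_distrib (zc_fs _ hf) (zc_fs _ hg)]
  exact finsum_congr fun r => mul_add _ _ _

theorem zc_mo_mul (P : Polynomial ℝ) (c : ℝ) (f : ℝ → ℝ) :
    zc_mo P (fun r => c * f r) = c * zc_mo P f := by
  unfold zc_mo
  rw [mul_finsum]
  exact finsum_congr fun r => by ring

theorem zc_mo_zero (P : Polynomial ℝ) : zc_mo P (fun _ => 0) = 0 := by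
  simp [zc_mo]

theorem zc_mo_ne {P : Polynomial ℝ} {f : ℝ → ℝ} (h : zc_mo P f ≠ 0) : ∃ r, f r ≠ 0 := by
  by_contra k
  push Not at k
  exact h (by simp [zc_mo, k])

theorem zc_mo_shift {k : ℕ} {f : ℝ → ℝ} (hf : (Function.support f).Finite)
    (hk : ∀ Q : Polynomial ℝ, Q.degree < k → zc_mo Q f = 0) {P : Polynomial ℝ}
    (hP : P.degree < (k + 1 : ℕ)) (t : ℝ) : zc_mo P (fun r => f (t + r)) = zc_mo P f := by
  by_cases h0 : P = 0
  · simp [zc_mo, h0]
  have e1 : zc_mo P (fun r => f (t + r)) = zc_mo (Polynomial.taylor (-t) P) f := by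
    unfold zc_mo
    rw [← finsum_comp_equiv (Equiv.addLeft t) (f := fun r => (Polynomial.taylor (-t) P).eval r * f r)]
    refine finsum_congr fun r => ?_
    rw [Polynomial.taylor_eval, Equiv.coe_addLeft]
    congr 2
    ring
  have e2 : (P - Polynomial.taylor (-t) P).degree < k := by
    have a := Polynomial.degree_sub_lt_left (Polynomial.degree_taylor P (-t)).symm h0
      (Polynomial.leadingCoeff_taylor (-t) P).symm
    rw [Polynomial.degree_eq_natDegree h0] at a hP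
    have b : P.natDegree ≤ k := Nat.lt_succ_iff.1 (by exact_mod_cast hP)
    exact a.trans_le (by exact_mod_cast b)
  have e3 := hk _ e2
  rw [e1]
  unfold zc_mo at e3 ⊢
  simp only [Polynomial.eval_sub, sub_mul] at e3
  rw [finsum_sub_distrib (zc_fs _ hf) (zc_fs _ hf)] at e3
  linarith

theorem zc_mo_sep {f : ℝ → ℝ} (hf : (Function.support f).Finite) (h : ∀ P, zc_mo P f = 0)
    (r : ℝ) : f r = 0 := by
  classical
  by_contra k
  have e := h (Lagrange.basis hf.toFinset id r)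
  have hr : r ∈ hf.toFinset := hf.mem_toFinset.2 k
  unfold zc_mo at e
  rw [finsum_eq_single _ r fun x hx => ?_] at e
  · have := Lagrange.eval_basis_self (v := id) (Set.injOn_id _) hr
    rw [id] at this
    rw [this, one_mul] at e
    exact k e
  · by_cases c : f x = 0
    · rw [c, mul_zero]
    · have := Lagrange.eval_basis_of_ne (v := id) hx.symm (hf.mem_toFinset.2 c)
      rw [id] at this
      rw [this, zero_mul]

/-- the value of `f` on a chain -/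
def zc_ev {A : Type} (f : A → ℝ) (l : List (ℝ × A)) : ℝ := (l.map fun p => p.1 * f p.2).sum

theorem zc_ev_cons {A : Type} (f : A → ℝ) (p : ℝ × A) (l : List (ℝ × A)) :
    zc_ev f (p :: l) = p.1 * f p.2 + zc_ev f l := by
  simp [zc_ev]

theorem zc_ev_congr {A : Type} {f g : A → ℝ} {l : List (ℝ × A)} (h : ∀ p ∈ l, f p.2 = g p.2) :
    zc_ev f l = zc_ev g l :=
  congrArg List.sum (List.map_congr_left fun p hp => by rw [h p hp])

theorem zc_ev_map {A : Type} (f : A → ℝ) (φ : A → A) (l : List (ℝ × A)) :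
    zc_ev f (l.map fun p => (p.1, φ p.2)) = zc_ev (fun a => f (φ a)) l := by
  simp [zc_ev, Function.comp_def]

theorem zc_ev_sub {A : Type} (f g : A → ℝ) (l : List (ℝ × A)) :
    zc_ev (fun a => f a - g a) l = zc_ev f l - zc_ev g l := by
  induction l with
  | nil => simp [zc_ev]
  | cons p l ih => rw [zc_ev_cons, zc_ev_cons, zc_ev_cons, ih]; ring

theorem zc_ev_ne {A : Type} {f : A → ℝ} {l : List (ℝ × A)} (h : zc_ev f l ≠ 0) :
    ∃ p ∈ l, f p.2 ≠ 0 := by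
  by_contra k
  push Not at k
  apply h
  rw [zc_ev_congr (g := fun _ => 0) k]
  simp [zc_ev]

theorem zc_mo_ev {A : Type} (P : Polynomial ℝ) (f : A → ℝ → ℝ) (l : List (ℝ × A))
    (h : ∀ p ∈ l, (Function.support (f p.2)).Finite) :
    (Function.support fun r => zc_ev (fun a => f a r) l).Finite ∧
      zc_mo P (fun r => zc_ev (fun a => f a r) l) = zc_ev (fun a => zc_mo P (f a)) l := by
  induction l with
  | nil => simp [zc_ev, zc_mo]
  | cons p l ih =>
    obtain ⟨i1, i2⟩ := ih fun q hq => h q (List.mem_cons_of_mem _ hq)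
    have a := zc_fs (fun _ => p.1) (h p List.mem_cons_self)
    simp only [zc_ev_cons]
    refine ⟨(a.union i1).subset (Function.support_add _ _), ?_⟩
    rw [zc_mo_add P a i1, i2, zc_mo_mul]

/-- change of level -/
def zc_sh (r : ℝ) : Option (Lv Ω) → Option (Lv Ω) := Option.map fun x => ⟨x.p, x.r + r⟩

/-- forget the level -/
def zc_dn : Option (Lv Ω) → Option Ω := Option.map Lv.p

theorem zc_sh_smul (r : ℝ) (g : E) (A : Option (Lv Ω)) : zc_sh r (g • A) = g • zc_sh r A := by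
  cases A <;> rfl

theorem zc_dn_smul (g : E) (A : Option (Lv Ω)) : zc_dn (g • A) = g • zc_dn A := by
  cases A <;> rfl

omit [MulAction E Ω] in
theorem zc_sh_sh (r t : ℝ) (A : Option (Lv Ω)) : zc_sh r (zc_sh t A) = zc_sh (t + r) A := by
  cases A with
  | none => rfl
  | some a => exact congrArg some (Lv.ext rfl (add_assoc _ _ _))

omit [MulAction E Ω] in
theorem zc_sh_zero (A : Option (Lv Ω)) : zc_sh 0 A = A := by
  cases A with
  | none => rfl
  | some a => exact congrArg some (Lv.ext rfl (add_zero _))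

variable {W : Et T E Ω} {χ : Ω → X1 → Ω → ℝ}

theorem zc_rp (h : W.Coc χ) (A : Option (Lv Ω)) (e : X1) (B : Option (Lv Ω)) :
    (W.cov h).Rp A e B ↔ W.Rp (zc_dn A) e (zc_dn B) ∧
      ∀ a b, A = some a → B = some b → b.r = a.r + χ a.p e b.p := by
  cases A with
  | none =>
    cases B with
    | none => exact ⟨fun _ => ⟨trivial, fun _ _ k => nomatch k⟩, fun _ => trivial⟩
    | some b =>
      exact ⟨fun k => ⟨⟨k.1, fun a c => k.2 ⟨a, b.r - χ a e b.p⟩ ⟨c, (sub_add_cancel _ _).symm⟩⟩,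
        fun _ _ k => nomatch k⟩, fun k => ⟨k.1.1, fun a c => k.1.2 a.p c.1⟩⟩
  | some a =>
    cases B with
    | none =>
      exact ⟨fun k => ⟨⟨k.1, fun b c => k.2 ⟨b, a.r + χ a.p e b⟩ ⟨c, rfl⟩⟩,
        fun _ _ _ k => nomatch k⟩, fun k => ⟨k.1.1, fun b c => k.1.2 b.p c.1⟩⟩
    | some b =>
      refine ⟨fun k => ⟨k.1, fun a' b' e1 e2 => ?_⟩, fun k => ⟨k.1, k.2 a b rfl rfl⟩⟩
      cases e1
      cases e2
      exact k.2

theorem zc_rp_sh (h : W.Coc χ) (r : ℝ) {A : Option (Lv Ω)} {e : X1} {B : Option (Lv Ω)}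
    (k : (W.cov h).Rp A e B) : (W.cov h).Rp (zc_sh r A) e (zc_sh r B) := by
  rw [zc_rp] at k ⊢
  cases A with
  | none => exact ⟨by cases B <;> exact k.1, fun _ _ c => nomatch c⟩
  | some a =>
    cases B with
    | none => exact ⟨k.1, fun _ _ _ c => nomatch c⟩
    | some b =>
      refine ⟨k.1, fun a' b' e1 e2 => ?_⟩
      cases e1
      cases e2
      show b.r + r = a.r + r + χ a.p e b.p
      rw [k.2 a b rfl rfl]
      ring

theorem zc_uniq (h : W.Coc χ) {A A' : Option (Lv Ω)} {e : X1} {B B' : Option (Lv Ω)}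
    (k : (W.cov h).Rp A e B) (k' : (W.cov h).Rp A' e B') (hA : zc_dn A' = zc_dn A)
    (hB : zc_dn B' = zc_dn B) : ∃ t, A' = zc_sh t A ∧ B' = zc_sh t B := by
  have one : ∀ a a' : Lv Ω, zc_dn (some a') = zc_dn (some a) →
      some a' = zc_sh (a'.r - a.r) (some a) := fun a a' c =>
    congrArg some (Lv.ext (Option.some.inj c) (add_sub_cancel _ _).symm)
  cases A with
  | none =>
    cases A' with
    | some a' => exact nomatch hA
    | none =>
      cases B with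
      | none =>
        cases B' with
        | some b' => exact nomatch hB
        | none => exact ⟨0, rfl, rfl⟩
      | some b =>
        cases B' with
        | none => exact nomatch hB
        | some b' => exact ⟨_, rfl, one b b' hB⟩
  | some a =>
    cases A' with
    | none => exact nomatch hA
    | some a' =>
      refine ⟨_, one a a' hA, ?_⟩
      cases B with
      | none =>
        cases B' with
        | some b' => exact nomatch hB
        | none => rfl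
      | some b =>
        cases B' with
        | none => exact nomatch hB
        | some b' =>
          have e1 : a'.p = a.p := Option.some.inj hA
          have e2 : b'.p = b.p := Option.some.inj hB
          refine congrArg some (Lv.ext e2 ?_)
          show b'.r = b.r + (a'.r - a.r)
          rw [k.2, k'.2, e1, e2]
          ring

theorem zc_lift1 (h : W.Coc χ) {a : Option Ω} {e : X1} {b : Option Ω} (k : W.Rp a e b) :
    ∃ A B, zc_dn A = a ∧ zc_dn B = b ∧ (W.cov h).Rp A e B := by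
  simp only [zc_rp]
  cases a with
  | none =>
    refine ⟨none, b.map fun x => ⟨x, 0⟩, rfl, by cases b <;> rfl, ?_, fun _ _ c => nomatch c⟩
    cases b <;> exact k
  | some a =>
    refine ⟨some ⟨a, 0⟩, b.map fun x => ⟨x, 0 + χ a e x⟩, rfl, by cases b <;> rfl,
      by cases b <;> exact k, fun a' b' e1 e2 => ?_⟩
    cases b <;> cases e2
    cases e1
    rfl

theorem zc_lift2 (h : W.Coc χ) {f : X2} {a b c : Option Ω} (k2 : W.Rp a (T.d2 f 2) b)
    (k0 : W.Rp b (T.d2 f 0) c) (k1 : W.Rp a (T.d2 f 1) c) :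
    ∃ A B C, zc_dn A = a ∧ zc_dn B = b ∧ zc_dn C = c ∧ (W.cov h).Rp A (T.d2 f 2) B ∧
      (W.cov h).Rp B (T.d2 f 0) C ∧ (W.cov h).Rp A (T.d2 f 1) C := by
  cases a with
  | none =>
    obtain ⟨B, C, rfl, rfl, k⟩ := zc_lift1 h k0
    exact ⟨none, B, C, rfl, rfl, rfl, (zc_rp h _ _ _).2 ⟨k2, fun _ _ c => nomatch c⟩, k,
      (zc_rp h _ _ _).2 ⟨k1, fun _ _ c => nomatch c⟩⟩
  | some a =>
    have e2 : zc_dn (b.map fun x => (⟨x, 0 + χ a (T.d2 f 2) x⟩ : Lv Ω)) = b := by cases b <;> rfl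
    have e1 : zc_dn (c.map fun x => (⟨x, 0 + χ a (T.d2 f 1) x⟩ : Lv Ω)) = c := by cases c <;> rfl
    refine ⟨some ⟨a, 0⟩, _, _, rfl, e2, e1, (zc_rp h _ _ _).2 ⟨e2.symm ▸ k2, fun a' b' d1 d2 => ?_⟩,
      (zc_rp h _ _ _).2 ⟨e2.symm ▸ e1.symm ▸ k0, fun a' b' d1 d2 => ?_⟩,
      (zc_rp h _ _ _).2 ⟨e1.symm ▸ k1, fun a' b' d1 d2 => ?_⟩⟩
    · cases b <;> cases d2
      cases d1
      rfl
    · cases b <;> cases d1
      cases c <;> cases d2
      show 0 + χ _ _ _ = 0 + χ _ _ _ + χ _ _ _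
      rw [h.coc f _ _ _ k2 k0, add_assoc]
    · cases c <;> cases d2
      cases d1
      rfl

theorem zc_chain (h : W.Coc χ) {ω : Ω} (fc : W.Fc ω) (bd : ∃ x, W.Bd x) (x : Ω) (r : ℝ) :
    ∃ l : List (ℝ × (Option (Lv Ω) × X1 × Option (Lv Ω))),
      (∀ p ∈ l, (W.cov h).Rp p.2.1 p.2.2.1 p.2.2.2) ∧ ∀ s : Option (Lv Ω) → ℝ,
        zc_ev (fun τ => s τ.2.2 - s τ.1) l = s none - s (some ⟨x, r⟩) := by
  let P : Option (Lv Ω) → Prop := fun A =>
    ∃ l : List (ℝ × (Option (Lv Ω) × X1 × Option (Lv Ω))),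
      (∀ p ∈ l, (W.cov h).Rp p.2.1 p.2.2.1 p.2.2.2) ∧ ∀ s : Option (Lv Ω) → ℝ,
        zc_ev (fun τ => s τ.2.2 - s τ.1) l = s none - s A
  have p0 : P none := ⟨[], fun _ k => (nomatch k), fun s => by simp [zc_ev]⟩
  have pf : ∀ A e B, (W.cov h).Rp A e B → P B → P A := fun A e B k ⟨l, h1, h2⟩ =>
    ⟨(1, A, e, B) :: l, List.forall_mem_cons.2 ⟨k, h1⟩, fun s => by
      rw [zc_ev_cons, h2]; ring⟩
  have pb : ∀ A e B, (W.cov h).Rp A e B → P A → P B := fun A e B k ⟨l, h1, h2⟩ =>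
    ⟨(-1, A, e, B) :: l, List.forall_mem_cons.2 ⟨k, h1⟩, fun s => by
      rw [zc_ev_cons, h2]; ring⟩
  have adj : ∀ a b, W.Adj a b → (∀ r, P (some ⟨a, r⟩)) → ∀ r, P (some ⟨b, r⟩) := by
    rintro a b ⟨e, k | k⟩ ha r
    · exact pb (some ⟨a, r - χ a e b⟩) e _ ⟨k, (sub_add_cancel _ _).symm⟩ (ha _)
    · exact pf _ e (some ⟨a, r + χ b e a⟩) ⟨k, rfl⟩ (ha _)
  have all : ∀ y, (∀ r, P (some ⟨ω, r⟩)) ↔ ∀ r, P (some ⟨y, r⟩) := fun y => by
    induction fc.conn y with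
    | refl => rfl
    | tail _ k ih => exact ih.trans ⟨adj _ _ k, adj _ _ k.symm⟩
  obtain ⟨y, e, k | k⟩ := bd
  · exact (all x).1 ((all y).2 fun t => pf _ e none
      ((zc_rp h _ _ _).2 ⟨k, fun _ _ _ c => nomatch c⟩) p0) r
  · exact (all x).1 ((all y).2 fun t => pb none e _
      ((zc_rp h _ _ _).2 ⟨k, fun _ _ c => nomatch c⟩) p0) r

theorem zc_fin (h : W.Coc χ) {a₀ : E} {z : Option (Lv Ω) → X1 → Option (Lv Ω) → ℝ}
    (hz : (W.cov h).Rc a₀ z) {A : Option (Lv Ω)} {e : X1} {B : Option (Lv Ω)}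
    (k : (W.cov h).Rp A e B) : (Function.support fun r => z (zc_sh r A) e (zc_sh r B)).Finite := by
  obtain ⟨S, ⟨K, hK, hS⟩, hs⟩ := hz.sup
  have one : ∀ C : Option (Lv Ω), {r | ∃ x ∈ S, zc_sh r C = some x}.Finite := fun C => by
    cases C with
    | none => exact Set.finite_empty.subset fun r ⟨_, _, c⟩ => nomatch c
    | some c =>
      refine (hK.image fun y => y.r - c.r).subset ?_
      rintro r ⟨x, hx, d⟩
      obtain ⟨y, hy, n, rfl⟩ := hS x hx
      have : c.r + r = y.r := congrArg Lv.r (Option.some.inj d)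
      exact ⟨y, hy, by show y.r - c.r = r; linarith⟩
  refine ((one A).union (one B)).subset fun r hr => ?_
  obtain ⟨x, hx, c | c⟩ := hs _ _ _ (zc_rp_sh h r k) hr
  · exact Or.inl ⟨x, hx, c⟩
  · exact Or.inr ⟨x, hx, c⟩

theorem zc_core (h : W.Coc χ) (hW : W.Zp) {a₀ : E} {z : Option (Lv Ω) → X1 → Option (Lv Ω) → ℝ}
    (hz : (W.cov h).Rc a₀ z)
    (ch : ∀ x : Ω, ∃ l : List (ℝ × (Option (Lv Ω) × X1 × Option (Lv Ω))),
      (∀ p ∈ l, (W.cov h).Rp p.2.1 p.2.2.1 p.2.2.2) ∧ (∀ s : Option Ω → ℝ,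
        zc_ev (fun τ => s (zc_dn τ.2.2) - s (zc_dn τ.1)) l = s none - s (some x)) ∧
        ∀ r, zc_ev (fun τ => z (zc_sh r τ.1) τ.2.1 (zc_sh r τ.2.2)) l = 0)
    {A : Option (Lv Ω)} {e : X1} {B : Option (Lv Ω)} (k : (W.cov h).Rp A e B) : z A e B = 0 := by
  classical
  have main : ∀ (n : ℕ) (P : Polynomial ℝ), P.degree < n → ∀ A e B, (W.cov h).Rp A e B →
      zc_mo P (fun r => z (zc_sh r A) e (zc_sh r B)) = 0 := by
    intro n
    induction n with
    | zero =>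
      intro P hP A e B _
      have : P = 0 := Polynomial.degree_eq_bot.1 (Nat.WithBot.lt_zero_iff.1 (by exact_mod_cast hP))
      simp [zc_mo, this]
    | succ n ih =>
      intro P hP
      have ex : ∀ (a : Option Ω) (e : X1) (b : Option Ω), ∃ m : ℝ, ∀ A B, zc_dn A = a →
          zc_dn B = b → (W.cov h).Rp A e B →
          m = zc_mo P fun r => z (zc_sh r A) e (zc_sh r B) := fun a e b => by
        by_cases c : ∃ A B, zc_dn A = a ∧ zc_dn B = b ∧ (W.cov h).Rp A e B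
        · obtain ⟨A, B, rfl, rfl, c⟩ := c
          refine ⟨zc_mo P fun r => z (zc_sh r A) e (zc_sh r B), fun A' B' e1 e2 c' => ?_⟩
          obtain ⟨t, rfl, rfl⟩ := zc_uniq h c c' e1 e2
          simp only [zc_sh_sh]
          exact (zc_mo_shift (zc_fin h hz c) (fun Q hQ => ih Q hQ _ _ _ c) hP t).symm
        · exact ⟨0, fun A B e1 e2 c' => (c ⟨A, B, e1, e2, c'⟩).elim⟩
      choose μ hμ using ex
      have rc : W.Rc a₀ μ := by
        refine ⟨fun e => ?_, fun f a b c k2 k0 k1 => ?_, fun a e b k => ?_, ?_⟩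
        · rw [hμ none e none none none rfl rfl trivial]
          exact (congrArg (zc_mo P) (funext fun r => hz.zero e)).trans (zc_mo_zero P)
        · obtain ⟨A, B, C, rfl, rfl, rfl, c2, c0, c1⟩ := zc_lift2 h k2 k0 k1
          rw [hμ _ _ _ A C rfl rfl c1, hμ _ _ _ A B rfl rfl c2, hμ _ _ _ B C rfl rfl c0,
            ← zc_mo_add P (zc_fin h hz c2) (zc_fin h hz c0)]
          exact congrArg (zc_mo P) (funext fun r =>
            hz.coc f _ _ _ (zc_rp_sh h r c2) (zc_rp_sh h r c0) (zc_rp_sh h r c1))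
        · obtain ⟨A, B, rfl, rfl, c⟩ := zc_lift1 h k
          rw [hμ _ _ _ A B rfl rfl c, hμ _ _ _ (a₀ • A) (a₀ • B) (zc_dn_smul _ _) (zc_dn_smul _ _)
            ((W.cov h).Rp_smul a₀ c)]
          refine congrArg (zc_mo P) (funext fun r => ?_)
          rw [zc_sh_smul, zc_sh_smul]
          exact hz.inv _ _ _ (zc_rp_sh h r c)
        · obtain ⟨S, ⟨K, hK, hS⟩, hs⟩ := hz.sup
          refine ⟨Lv.p '' S, ⟨Lv.p '' K, hK.image _, ?_⟩, fun a e b k c => ?_⟩
          · rintro _ ⟨x, hx, rfl⟩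
            obtain ⟨y, hy, n, rfl⟩ := hS x hx
            exact ⟨y.p, ⟨y, hy, rfl⟩, n, rfl⟩
          · obtain ⟨A, B, rfl, rfl, d⟩ := zc_lift1 h k
            rw [hμ _ _ _ A B rfl rfl d] at c
            obtain ⟨r, hr⟩ := zc_mo_ne c
            have one : ∀ (C : Option (Lv Ω)) (x : Lv Ω), zc_sh r C = some x →
                zc_dn C = some x.p := fun C x d => by
              cases C <;> cases d
              rfl
            obtain ⟨x, hx, d | d⟩ := hs _ _ _ (zc_rp_sh h r d) hr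
            · exact ⟨x.p, ⟨x, hx, rfl⟩, Or.inl (one _ _ d)⟩
            · exact ⟨x.p, ⟨x, hx, rfl⟩, Or.inr (one _ _ d)⟩
      obtain ⟨s, s0, -, hs⟩ := hW a₀ μ rc
      have sz : ∀ a, s a = 0 := fun a => by
        cases a with
        | none => exact s0
        | some x =>
          obtain ⟨l, l1, l2, l3⟩ := ch x
          have e1 := (zc_mo_ev P (fun (τ : Option (Lv Ω) × X1 × Option (Lv Ω)) r =>
            z (zc_sh r τ.1) τ.2.1 (zc_sh r τ.2.2)) l fun p hp => zc_fin h hz (l1 p hp)).2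
          simp only [l3, zc_mo_zero] at e1
          rw [zc_ev_congr (g := fun τ => s (zc_dn τ.2.2) - s (zc_dn τ.1)) fun p hp =>
            (hμ _ _ _ _ _ rfl rfl (l1 p hp)).symm.trans
              (hs _ _ _ ((zc_rp h _ _ _).1 (l1 p hp)).1), l2, s0] at e1
          linarith
      intro A e B c
      rw [← hμ _ _ _ A B rfl rfl c, hs _ _ _ ((zc_rp h _ _ _).1 c).1, sz, sz, sub_zero]
  have := zc_mo_sep (zc_fin h hz k) (fun P => main (P.natDegree + 1) P
    (Polynomial.degree_le_natDegree.trans_lt (by exact_mod_cast Nat.lt_succ_self _)) A e B k) 0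
  simpa only [zc_sh_zero] using this

theorem zcov (hM : Mfd T) {W : Et T E Ω} {ω : Ω} (fc : W.Fc ω) (bd : ∃ x, W.Bd x) (hW : W.Zp)
    {χ : Ω → X1 → Ω → ℝ} (h : W.Coc χ) : (W.cov h).Zp := by
  have _ := hM
  intro a₀ z hz
  have := fc.fin
  let ρ : Ω → Ω := fun x => (Quotient.mk (MulAction.orbitRel E Ω) x).out
  have hρ : ∀ (g : E) x, ρ (g • x) = ρ x := fun g x =>
    congrArg Quotient.out (Quotient.sound (MulAction.mem_orbit x g))
  have fρ : (range ρ).Finite :=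
    (Set.finite_range (Quotient.out : Ob E Ω → Ω)).subset (by rintro _ ⟨x, rfl⟩; exact ⟨_, rfl⟩)
  have ex : ∀ x, ∃ g : E, g • ρ x = x := fun x =>
    (MulAction.orbitRel E Ω).symm (Quotient.mk_out (s := MulAction.orbitRel E Ω) x)
  choose γ hγ using ex
  have uq : ∀ (g g' : E) (x : Ω), g • x = g' • x → g = g' := fun g g' x c =>
    (inv_mul_eq_one.1 (W.free (g'⁻¹ * g) x (by rw [mul_smul, c, inv_smul_smul]))).symm
  have γm : ∀ (g : E) x, γ (g • x) = g * γ x := fun g x =>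
    uq _ _ (ρ x) (by rw [mul_smul, hγ, ← hρ g x, hγ])
  choose c c1 c2 using fun x => zc_chain h fc bd x 0
  let s : Option (Lv Ω) → ℝ := fun A => A.elim 0 fun y =>
    -zc_ev (fun τ => z (zc_sh y.r (γ y.p • τ.1)) (γ y.p • τ.2.1) (zc_sh y.r (γ y.p • τ.2.2)))
      (c (ρ y.p))
  have s0 : s none = 0 := rfl
  have s1 : ∀ y : Lv Ω, s (some y) = -zc_ev (fun τ => z (zc_sh y.r (γ y.p • τ.1)) (γ y.p • τ.2.1)
      (zc_sh y.r (γ y.p • τ.2.2))) (c (ρ y.p)) := fun _ => rfl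
  have val : ∀ (g : E) (r : ℝ) x, ∀ p ∈ c x,
      (W.cov h).Rp (zc_sh r (g • p.2.1)) (g • p.2.2.1) (zc_sh r (g • p.2.2.2)) := fun g r x p hp =>
    zc_rp_sh h r ((W.cov h).Rp_smul g (c1 x p hp))
  have si : ∀ A, s (a₀ • A) = s A := fun A => by
    cases A with
    | none => rfl
    | some y =>
      refine (s1 (a₀ • y)).trans ?_
      rw [s1, Lv.smul_p, Lv.smul_r, hρ, γm]
      refine congrArg Neg.neg (zc_ev_congr fun p hp => ?_)
      simp only [mul_smul, zc_sh_smul _ a₀]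
      exact hz.inv _ _ _ (val _ _ _ p hp)
  obtain ⟨S, hS, hs⟩ := hz.sup
  have sm : Sm a₀ {x | s (some x) ≠ 0} := by
    obtain ⟨K, hK, hS⟩ := hS
    refine ⟨⋃ x ∈ range ρ, ⋃ p ∈ {p | p ∈ c x}, ⋃ A ∈ ({p.2.1, p.2.2.2} : Set (Option (Lv Ω))),
      ⋃ k ∈ K, {y | ∃ (u : Lv Ω) (g : E), A = some u ∧ g • u.p = k.p ∧ y = ⟨g • x, k.r - u.r⟩},
      fρ.biUnion fun x _ => (List.finite_toSet _).biUnion fun p _ =>
        (Set.toFinite _).biUnion fun A _ => hK.biUnion fun k _ => Set.Subsingleton.finite ?_,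
      fun y hy => ?_⟩
    · rintro _ ⟨u, g, rfl, e1, rfl⟩ _ ⟨u', g', e2, e3, rfl⟩
      cases e2
      rw [uq g g' _ (e1.trans e3.symm)]
    · obtain ⟨p, hp, d⟩ := zc_ev_ne (neg_ne_zero.1 hy)
      obtain ⟨x, hx, d⟩ := hs _ _ _ (val _ _ _ p hp) d
      obtain ⟨k, hk, n, rfl⟩ := hS x hx
      have one : ∀ A ∈ ({p.2.1, p.2.2.2} : Set (Option (Lv Ω))),
          zc_sh y.r (γ y.p • A) = some (a₀ ^ n • k) → ∃ y' ∈ ⋃ x ∈ range ρ, ⋃ p ∈ {p | p ∈ c x},
            ⋃ A ∈ ({p.2.1, p.2.2.2} : Set (Option (Lv Ω))), ⋃ k ∈ K, {y : Lv Ω | ∃ (u : Lv Ω) (g : E),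
              A = some u ∧ g • u.p = k.p ∧ y = ⟨g • x, k.r - u.r⟩}, ∃ n : ℤ, y = a₀ ^ n • y' := by
        intro A hA d
        cases A with
        | none => exact nomatch d
        | some u =>
          have e1 : γ y.p • u.p = a₀ ^ n • k.p := congrArg Lv.p (Option.some.inj d)
          have e2 : u.r + y.r = k.r := congrArg Lv.r (Option.some.inj d)
          refine ⟨⟨((a₀ ^ n)⁻¹ * γ y.p) • ρ y.p, k.r - u.r⟩, mem_biUnion ⟨y.p, rfl⟩
            (mem_biUnion hp (mem_biUnion hA (mem_biUnion hk ⟨u, _, rfl, ?_, rfl⟩))), n,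
            Lv.ext ?_ ?_⟩
          · rw [mul_smul, e1, inv_smul_smul]
          · rw [Lv.smul_p, mul_smul, smul_inv_smul, hγ]
          · show y.r = k.r - u.r
            linarith
      rcases d with d | d
      · exact one _ (Or.inl rfl) d
      · exact one _ (Or.inr rfl) d
  have rc : (W.cov h).Rc a₀ fun A e B => z A e B - (s B - s A) := by
    refine ⟨fun e => by rw [hz.zero, sub_self, sub_self], fun f a b c k2 k0 k1 => ?_,
      fun a e b k => by rw [hz.inv _ _ _ k, si, si], _, hS.union sm, fun a e b k d => ?_⟩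
    · rw [hz.coc f a b c k2 k0 k1]
      ring
    · by_cases d1 : z a e b = 0
      · have one : ∀ A, s A ≠ 0 → ∃ x, s (some x) ≠ 0 ∧ A = some x := fun A d => by
          cases A with
          | none => exact (d rfl).elim
          | some x => exact ⟨x, d, rfl⟩
        by_cases d2 : s a = 0
        · obtain ⟨x, hx, e1⟩ := one b fun d3 => d (by rw [d1, d2, d3, sub_self, sub_self])
          exact ⟨x, Or.inr hx, Or.inr e1⟩
        · obtain ⟨x, hx, e1⟩ := one a d2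
          exact ⟨x, Or.inr hx, Or.inl e1⟩
      · obtain ⟨x, hx, e1⟩ := hs a e b k d1
        exact ⟨x, Or.inl hx, e1⟩
  refine ⟨s, s0, sm, fun A e B k => sub_eq_zero.1 (zc_core h hW rc (fun x => ?_) k)⟩
  refine ⟨(c (ρ x)).map fun p => (p.1, γ x • p.2), List.forall_mem_map.2 fun p hp =>
    (W.cov h).Rp_smul _ (c1 _ p hp), fun u => ?_, fun r => ?_⟩
  · rw [zc_ev_map _ fun τ => γ x • τ]
    refine (c2 (ρ x) fun A => u (zc_dn (γ x • A))).trans ?_
    show u none - u (some (γ x • ρ x)) = _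
    rw [hγ]
  · rw [zc_ev_map _ fun τ => γ x • τ, zc_ev_sub]
    have e1 := s1 ⟨x, r⟩
    have e2 : _ = s none - s (some ⟨γ x • ρ x, 0 + r⟩) := c2 (ρ x) fun A => s (zc_sh r (γ x • A))
    rw [hγ, zero_add, s0, e1, zero_sub, neg_neg] at e2
    exact sub_eq_zero.2 e2.symm

end Pool.Agent.Work.MP_3d425c_gt.Bg
end

-- merged part: Pool.Agent.Work.MP_3d425c_gt.Bg.Step
section
/-! The next stage. -/

namespace Pool.Agent.Work.MP_3d425c_gt.Bg
open Set Relation Pool.Agent.Work.MP_3d425c_gt.Md Pool.Agent.Work.MP_3d425c_gt.Cy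

variable {G X0 X1 X2 X3 : Type} [Group G] [MulAction G X0] [MulAction G X1] [MulAction G X2]
  [MulAction G X3] {T : Tri G X0 X1 X2 X3} {E : Subgroup G} {Ω : Type} [MulAction E Ω]

/-- vertices within distance `n` of `S` -/
def sp_near (W : Et T E Ω) (S : Set Ω) : ℕ → Set Ω
  | 0 => S
  | n + 1 => sp_near W S n ∪ {a | ∃ b ∈ sp_near W S n, W.Adj a b}

theorem sp_near_le (W : Et T E Ω) (S : Set Ω) {m n : ℕ} (h : m ≤ n) :
    sp_near W S m ⊆ sp_near W S n := by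
  induction h with
  | refl => exact Subset.rfl
  | step _ ih => exact ih.trans subset_union_left

theorem sp_adj_smul (W : Et T E Ω) (g : E) {a b : Ω} (h : W.Adj a b) : W.Adj (g • a) (g • b) := by
  obtain ⟨e, h | h⟩ := h
  exacts [⟨g • e, Or.inl (W.R_smul g _ _ _ h)⟩, ⟨g • e, Or.inr (W.R_smul g _ _ _ h)⟩]

theorem sp_bd_smul (W : Et T E Ω) (g : E) {a : Ω} (h : W.Bd a) : W.Bd (g • a) := by
  obtain ⟨e, h | h⟩ := h
  exacts [⟨g • e, Or.inl (W.Rp_smul g h)⟩, ⟨g • e, Or.inr (W.Rp_smul g h)⟩]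

theorem sp_near_smul (W : Et T E Ω) {S : Set Ω} (hS : ∀ (g : E), ∀ a ∈ S, g • a ∈ S) (g : E)
    (n : ℕ) : ∀ a ∈ sp_near W S n, g • a ∈ sp_near W S n := by
  induction n with
  | zero => exact hS g
  | succ n ih =>
    rintro a (h | ⟨b, hb, h⟩)
    exacts [Or.inl (ih a h), Or.inr ⟨g • b, ih b hb, sp_adj_smul W g h⟩]

theorem sp_depth (W : Et T E Ω) {ω : Ω} (fc : W.Fc ω) (bd : ∃ x, W.Bd x) :
    ∃ N, ∀ a, a ∈ sp_near W {x | W.Bd x} N := by
  obtain ⟨x, hx⟩ := bd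
  have h0 : ∀ a b, ReflTransGen W.Adj a b → (∃ n, b ∈ sp_near W {x | W.Bd x} n) →
      ∃ n, a ∈ sp_near W {x | W.Bd x} n := fun a b h => by
    induction h with
    | refl => exact id
    | tail _ k ih => exact fun ⟨n, hn⟩ => ih ⟨n + 1, Or.inr ⟨_, hn, k⟩⟩
  have h1 : ∀ a b, ReflTransGen W.Adj a b → ReflTransGen W.Adj b a := fun a b h => by
    induction h with
    | refl => exact .refl
    | tail _ k ih => exact .head k.symm ih
  have h2 : ∀ a, ∃ n, a ∈ sp_near W {x | W.Bd x} n := fun a =>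
    h0 a x ((h1 _ _ (fc.conn a)).trans (fc.conn x)) ⟨0, hx⟩
  choose d hd using h2
  have := fc.fin
  obtain ⟨N, hN⟩ := (Set.finite_range fun o : Ob E Ω => d o.out).bddAbove
  refine ⟨N, fun a => ?_⟩
  obtain ⟨g, hg⟩ := MulAction.orbitRel_apply.1 (Quotient.mk_out (s := MulAction.orbitRel E Ω) a)
  have e : a = g⁻¹ • (ob E a).out := eq_inv_smul_iff.2 hg
  rw [e]
  exact sp_near_smul W (S := {x | W.Bd x}) (fun g a (h : W.Bd a) => sp_bd_smul W g h) _ _ _
    (sp_near_le W _ (hN ⟨ob E a, rfl⟩) (hd _))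

/-- finite modulo the group -/
def sp_fin (E : Subgroup G) {Ω : Type} [MulAction E Ω] (S : Set Ω) : Prop :=
  ∃ K : Set Ω, K.Finite ∧ ∀ x ∈ S, ∃ k ∈ K, ∃ g : E, x = g • k

theorem sp_fin_near (hM : Mfd T) (W : Et T E Ω) {S : Set Ω} (h : sp_fin E S) (n : ℕ) :
    sp_fin E (sp_near W S n) := by
  induction n with
  | zero => exact h
  | succ n ih =>
    obtain ⟨K, hK, k⟩ := ih
    refine ⟨K ∪ ⋃ c ∈ K, {b | W.Adj c b}, hK.union (hK.biUnion fun c _ => hM.adj_finite W c), ?_⟩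
    rintro x (hx | ⟨b, hb, hx⟩)
    · obtain ⟨c, hc, g, e⟩ := k x hx
      exact ⟨c, Or.inl hc, g, e⟩
    · obtain ⟨c, hc, g, rfl⟩ := k b hb
      refine ⟨g⁻¹ • x, Or.inr (mem_biUnion hc ?_), g, (smul_inv_smul g x).symm⟩
      have := sp_adj_smul W g⁻¹ hx.symm
      rwa [inv_smul_smul] at this

theorem sp_fin_im (hM : Mfd T) (W : Et T E Ω) (ω : Ω) (ρ : ℕ) : sp_fin E (W.Im ω ρ) := by
  refine ⟨⋃ q ∈ {q : List (X1 × Bool) | q.length ≤ ρ ∧ ∃ u, Pth (bR T) (W.pr ω) q u},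
    {b | Pth W.R ω q b}, (hM.paths_finite _ ρ).biUnion fun q _ =>
      Set.Subsingleton.finite fun b hb b' hb' => Pth.det W hb hb', ?_⟩
  rintro x ⟨g, q, b, hq, hb, rfl⟩
  exact ⟨b, mem_biUnion (x := q) ⟨hq, W.pr b, Pth.map W.pr
    (fun a e b k => ⟨W.src _ _ _ k, W.tgt _ _ _ k⟩) hb⟩ hb, g, rfl⟩

theorem sp_im_smul (W : Et T E Ω) (ω : Ω) (ρ : ℕ) (g : E) :
    ∀ a ∈ W.Im ω ρ, g • a ∈ W.Im ω ρ := by
  rintro _ ⟨g', q, b, hq, hb, rfl⟩
  exact ⟨g * g', q, b, hq, hb, (mul_smul _ _ _).symm⟩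

theorem sp_st_adj (W : Et T E Ω) {a b : Ω} {l : X1 × Bool} (h : St W.R a l b) : W.Adj a b := by
  unfold St at h
  split_ifs at h
  exacts [⟨_, Or.inl h⟩, ⟨_, Or.inr h⟩]

/-- adjacency inside a set -/
def sp_in (W : Et T E Ω) (S : Set Ω) (a b : Ω) : Prop := a ∈ S ∧ b ∈ S ∧ W.Adj a b

theorem sp_in_symm (W : Et T E Ω) {S : Set Ω} {a b : Ω} (h : ReflTransGen (sp_in W S) a b) :
    ReflTransGen (sp_in W S) b a := by
  induction h with
  | refl => exact .refl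
  | tail _ k ih => exact .head ⟨k.2.1, k.1, k.2.2.symm⟩ ih

theorem sp_rtg (W : Et T E Ω) {S : Set Ω} {a b : Ω} {q : List (X1 × Bool)} (h : Pth W.R a q b)
    (hS : ∀ q1 q2 c, q = q1 ++ q2 → Pth W.R a q1 c → c ∈ S) : ReflTransGen (sp_in W S) a b := by
  induction h with
  | nil => exact .refl
  | @cons a l b q c k _ ih =>
    exact .head ⟨hS [] _ _ rfl (.nil _), hS [l] q _ rfl (.cons k (.nil _)), sp_st_adj W k⟩
      (ih fun q1 q2 d e p => hS (l :: q1) q2 d (by rw [e]; rfl) (.cons k p))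

theorem sp_res (W : Et T E Ω) (F : SubMulAction E Ω) {a b : Ω} {q : List (X1 × Bool)}
    (h : Pth W.R a q b) (hS : ∀ q1 q2 c, q = q1 ++ q2 → Pth W.R a q1 c → c ∈ F) :
    ∀ ha hb, Pth (W.res F).R ⟨a, ha⟩ q ⟨b, hb⟩ := by
  induction h with
  | nil => exact fun _ _ => .nil _
  | @cons a l b q c k _ ih =>
    intro ha hc
    have hb : b ∈ F := hS [l] q _ rfl (.cons k (.nil _))
    have k' : St (W.res F).R ⟨a, ha⟩ l ⟨b, hb⟩ := by
      unfold St at k ⊢
      split_ifs at k ⊢ <;> exact k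
    exact .cons k'
      (ih (fun q1 q2 d e p => hS (l :: q1) q2 d (by rw [e]; rfl) (.cons k p)) hb hc)

theorem sp_pre (W : Et T E Ω) (ω : Ω) {ρ : ℕ} {q : List (X1 × Bool)} (hq : q.length ≤ ρ) :
    ∀ q1 q2 c, q = q1 ++ q2 → Pth W.R ω q1 c → c ∈ W.Im ω ρ := by
  rintro q1 q2 c rfl p
  refine ⟨1, q1, c, le_trans ?_ hq, p, (one_smul _ _).symm⟩
  simp

theorem sp_im_conn (W : Et T E Ω) {ω : Ω} {ρ : ℕ} {S : Set E} (hS : Subgroup.closure S = ⊤)
    (hp : ∀ g ∈ S, ∃ q, q.length ≤ ρ ∧ Pth W.R ω q (g • ω)) :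
    ∀ a ∈ W.Im ω ρ, ReflTransGen (sp_in W (W.Im ω ρ)) ω a := by
  have sm : ∀ (g : E) a b, ReflTransGen (sp_in W (W.Im ω ρ)) a b →
      ReflTransGen (sp_in W (W.Im ω ρ)) (g • a) (g • b) := fun g a b h => by
    induction h with
    | refl => exact .refl
    | tail _ k ih =>
      exact ih.tail ⟨sp_im_smul W ω ρ g _ k.1, sp_im_smul W ω ρ g _ k.2.1, sp_adj_smul W g k.2.2⟩
  have h1 : ∀ g : E, ReflTransGen (sp_in W (W.Im ω ρ)) ω (g • ω) := fun g => by
    have hg : g ∈ Subgroup.closure S := hS ▸ Subgroup.mem_top g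
    induction hg using Subgroup.closure_induction with
    | mem g hg =>
      obtain ⟨q, hq, p⟩ := hp g hg
      exact sp_rtg W p (sp_pre W ω hq)
    | one => rw [one_smul]
    | mul g g' _ _ i j =>
      rw [mul_smul]
      exact i.trans (sm g _ _ j)
    | inv g _ i =>
      have := sm g⁻¹ _ _ i
      rw [inv_smul_smul] at this
      exact sp_in_symm W this
  rintro _ ⟨g, q, b, hq, hb, rfl⟩
  exact (h1 g).trans (sm g _ _ (sp_rtg W hb (sp_pre W ω hq)))

/-- escaping to the boundary outside `I` -/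
def sp_esc (W : Et T E Ω) (I : Set Ω) (x : Ω) : Prop :=
  ∃ y, W.Bd y ∧ y ∉ I ∧ ReflTransGen (fun a b => a ∉ I ∧ W.Adj a b) x y

theorem sp_esc_head {W : Et T E Ω} {I : Set Ω} {a b : Ω} (ha : a ∉ I) (h : W.Adj a b)
    (hb : sp_esc W I b) : sp_esc W I a := by
  obtain ⟨y, h1, h2, h3⟩ := hb
  exact ⟨y, h1, h2, .head ⟨ha, h⟩ h3⟩

theorem sp_esc_ind {W : Et T E Ω} {I : Set Ω} (P : Ω → Prop)
    (h0 : ∀ y, W.Bd y → sp_esc W I y → P y)
    (h1 : ∀ a b, W.Adj a b → sp_esc W I a → sp_esc W I b → P b → P a) {x : Ω}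
    (hx : sp_esc W I x) : P x := by
  obtain ⟨y, k1, k2, k3⟩ := hx
  induction k3 using ReflTransGen.head_induction_on with
  | refl => exact h0 y k1 ⟨y, k1, k2, .refl⟩
  | head k p ih => exact h1 _ _ k.2 ⟨y, k1, k2, .head k p⟩ ⟨y, k1, k2, p⟩ ih

theorem sp_esc_not {W : Et T E Ω} {I : Set Ω} {x : Ω} (hx : sp_esc W I x) : x ∉ I := by
  obtain ⟨y, -, k2, k3⟩ := hx
  rcases k3.cases_head with rfl | ⟨c, k, -⟩
  exacts [k2, k.1]

section Cov
variable {W : Et T E Ω} {χ : Ω → X1 → Ω → ℝ} (h : W.Coc χ)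

theorem sp_cov_adj {a b : Ω} (k : W.Adj a b) (r : ℝ) : ∃ s, (W.cov h).Adj ⟨a, r⟩ ⟨b, s⟩ := by
  obtain ⟨e, k | k⟩ := k
  · exact ⟨r + χ a e b, e, Or.inl ⟨k, rfl⟩⟩
  · exact ⟨r - χ b e a, e, Or.inr ⟨k, by simp⟩⟩

theorem sp_cov_bd (x : Lv Ω) : (W.cov h).Bd x ↔ W.Bd x.p := by
  refine exists_congr fun e => or_congr (and_congr Iff.rfl ⟨fun k b p => ?_, fun k b p => k _ p.1⟩)
    (and_congr Iff.rfl ⟨fun k b p => ?_, fun k b p => k _ p.1⟩)
  · exact k ⟨b, x.r + χ x.p e b⟩ ⟨p, rfl⟩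
  · exact k ⟨b, x.r - χ b e x.p⟩ ⟨p, by simp⟩

theorem sp_cov_near (n : ℕ) : ∀ a ∈ sp_near W {x | W.Bd x} n, ∀ r,
    (⟨a, r⟩ : Lv Ω) ∈ sp_near (W.cov h) {x | (W.cov h).Bd x} n := by
  induction n with
  | zero => exact fun a ha r => (sp_cov_bd h _).2 ha
  | succ n ih =>
    rintro a (ha | ⟨b, hb, k⟩) r
    · exact Or.inl (ih a ha r)
    · obtain ⟨s, hs⟩ := sp_cov_adj h k r
      exact Or.inr ⟨_, ih b hb s, hs⟩

/-- the shift of levels -/
def sp_sh (r : ℝ) (x : Lv Ω) : Lv Ω := ⟨x.p, x.r + r⟩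

omit [MulAction E Ω] in
theorem sp_sh_neg (r : ℝ) (x : Lv Ω) : sp_sh (-r) (sp_sh r x) = x := Lv.ext rfl (by simp [sp_sh])

omit [MulAction E Ω] in
theorem sp_sh_neg' (r : ℝ) (x : Lv Ω) : sp_sh r (sp_sh (-r) x) = x := Lv.ext rfl (by simp [sp_sh])

theorem sp_sh_adj (r : ℝ) {a b : Lv Ω} (k : (W.cov h).Adj a b) :
    (W.cov h).Adj (sp_sh r a) (sp_sh r b) := by
  obtain ⟨e, k | k⟩ := k
  · exact ⟨e, Or.inl ⟨k.1, by
      change b.r + r = a.r + r + χ a.p e b.p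
      rw [k.2]; ring⟩⟩
  · exact ⟨e, Or.inr ⟨k.1, by
      change a.r + r = b.r + r + χ b.p e a.p
      rw [k.2]; ring⟩⟩

theorem sp_shift {I : Set (Lv Ω)} {ω : Lv Ω} (hω : ω ∈ I)
    (conn : ∀ a ∈ I, ReflTransGen (sp_in (W.cov h) I) ω a)
    (fin : sp_fin E {x | ¬ sp_esc (W.cov h) I x}) (inj : ∀ x ∈ I, ∀ y ∈ I, x.p = y.p → x = y)
    {r : ℝ} (hr : r ≠ 0) {w : Lv Ω} (hw : w ∈ I) : sp_esc (W.cov h) I (sp_sh r w) := by
  by_contra hc
  have d : ∀ a ∈ I, sp_sh r a ∉ I := fun a ha k => hr (by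
    have := congrArg Lv.r (inj _ k _ ha rfl)
    simpa [sp_sh] using this)
  have h1 : ∀ a b, ReflTransGen (sp_in (W.cov h) I) a b → ¬ sp_esc (W.cov h) I (sp_sh r a) →
      ¬ sp_esc (W.cov h) I (sp_sh r b) := fun a b p ha => by
    induction p with
    | refl => exact ha
    | tail _ k ih => exact fun e => ih (sp_esc_head (d _ k.1) (sp_sh_adj h r k.2.2) e)
  have h2 : ∀ a ∈ I, ¬ sp_esc (W.cov h) I (sp_sh r a) := fun a ha =>
    h1 _ _ ((sp_in_symm _ (conn w hw)).trans (conn a ha)) hc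
  have h3 : ∀ v, sp_esc (W.cov h) I v → sp_sh (-r) v ∉ I := fun v hv k =>
    h2 _ k (by rwa [sp_sh_neg'])
  have h4 : ∀ u, sp_esc (W.cov h) I u → sp_esc (W.cov h) I (sp_sh (-r) u) := fun u hu =>
    sp_esc_ind (fun u => sp_esc (W.cov h) I (sp_sh (-r) u))
      (fun y k e => ⟨sp_sh (-r) y, (sp_cov_bd h (sp_sh (-r) y)).2 ((sp_cov_bd h y).1 k), h3 y e, .refl⟩)
      (fun a b k ea _ p => sp_esc_head (h3 a ea) (sp_sh_adj h (-r) k) p) hu
  have h5 : ∀ n : ℕ, ¬ sp_esc (W.cov h) I ⟨ω.p, ω.r + n * r⟩ := fun n => by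
    induction n with
    | zero => simpa using fun e => sp_esc_not e hω
    | succ n ih =>
      refine fun e => ih ?_
      have := h4 _ e
      convert this using 1
      exact Lv.ext rfl (by simp [sp_sh]; ring)
  obtain ⟨K, hK, k⟩ := fin
  refine Set.infinite_of_injective_forall_mem (f := fun n : ℕ => ω.r + n * r) (s := Lv.r '' K)
    (fun m n e => ?_) (fun n => ?_) (hK.image _)
  · have := mul_right_cancel₀ hr (add_left_cancel e)
    exact_mod_cast this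
  · obtain ⟨c, hc, g, e⟩ := k _ (h5 n)
    exact ⟨c, hc, (congrArg Lv.r e).symm⟩

end Cov

theorem step (hM : Mfd T) (hE : ¬ E.FiniteIndex) {D : Dat T E} {W : Et T E Ω} {ω : Ω}
    (hS : Stg D W ω) {χ : Ω → X1 → Ω → ℝ} (h : W.Coc χ)
    (hp : ∀ g ∈ D.S, Pth (cR W.R χ) ⟨ω, 0⟩ (D.p g) ⟨g • ω, 0⟩) :
    ∃ (F : SubMulAction E (Lv Ω)) (h0 : (⟨ω, 0⟩ : Lv Ω) ∈ F),
      Stg D ((W.cov h).res F) ⟨⟨ω, 0⟩, h0⟩ ∧
      ((∀ x ∈ (W.cov h).Im ⟨ω, 0⟩ D.ρ, ∀ y ∈ (W.cov h).Im ⟨ω, 0⟩ D.ρ, x.p = y.p → x = y) →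
        ∀ x ∈ F, ∀ y ∈ F, x.p = y.p → x = y) := by
  have bd := hM.exists_bd hE hS.fc
  obtain ⟨N, hN⟩ := sp_depth W hS.fc bd
  have dep : ∀ x : Lv Ω, x ∈ sp_near (W.cov h) {x | (W.cov h).Bd x} N := fun x =>
    sp_cov_near h N x.p (hN _) x.r
  obtain ⟨I, hI⟩ : ∃ I, I = (W.cov h).Im ⟨ω, 0⟩ D.ρ := ⟨_, rfl⟩
  have Ism : ∀ (g : E), ∀ a ∈ I, g • a ∈ I := hI ▸ sp_im_smul _ _ _
  have esm : ∀ (g : E) x, sp_esc (W.cov h) I x → sp_esc (W.cov h) I (g • x) := fun g x hx =>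
    have n : ∀ a, sp_esc (W.cov h) I a → g • a ∉ I := fun a ha k =>
      sp_esc_not ha (by simpa using Ism g⁻¹ _ k)
    sp_esc_ind (fun x => sp_esc (W.cov h) I (g • x))
      (fun y k e => ⟨_, sp_bd_smul _ g k, n y e, .refl⟩)
      (fun a b k ea _ p => sp_esc_head (n a ea) (sp_adj_smul _ g k) p) hx
  let F : SubMulAction E (Lv Ω) :=
    ⟨{x | ¬ sp_esc (W.cov h) I x}, fun g x hx k => hx (by simpa using esm g⁻¹ _ k)⟩
  have mF : ∀ x, x ∈ F ↔ ¬ sp_esc (W.cov h) I x := fun x => Iff.rfl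
  have IF : ∀ x ∈ I, x ∈ F := fun x hx k => sp_esc_not k hx
  have ωI : (⟨ω, 0⟩ : Lv Ω) ∈ I := hI ▸ ⟨1, [], _, Nat.zero_le _, .nil _, (one_smul _ _).symm⟩
  have nr : ∀ n, ∀ x ∈ sp_near (W.cov h) {x | (W.cov h).Bd x} n, x ∈ F →
      x ∈ sp_near (W.cov h) I n ∧ ∃ y ∈ I, ReflTransGen (sp_in (W.cov h) F) x y := fun n => by
    induction n with
    | zero =>
      intro x hx hF
      have : x ∈ I := by_contra fun k => hF ⟨x, hx, k, .refl⟩
      exact ⟨this, x, this, .refl⟩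
    | succ n ih =>
      rintro x (hx | ⟨b, hb, k⟩) hF
      · exact ⟨Or.inl (ih x hx hF).1, (ih x hx hF).2⟩
      · by_cases hxI : x ∈ I
        · exact ⟨sp_near_le _ _ (Nat.zero_le _) hxI, x, hxI, .refl⟩
        · have bF : b ∈ F := fun e => hF (sp_esc_head hxI k e)
          obtain ⟨i1, y, hy, i2⟩ := ih b hb bF
          exact ⟨Or.inr ⟨b, i1, k⟩, y, hy, .head ⟨hF, bF, k⟩ i2⟩
  have fin : sp_fin E {x | ¬ sp_esc (W.cov h) I x} := by
    obtain ⟨K, hK, k⟩ := sp_fin_near hM (W.cov h) (hI ▸ sp_fin_im hM (W.cov h) _ _ : sp_fin E I) N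
    exact ⟨K, hK, fun x hx => k x (nr N x (dep x) hx).1⟩
  have conn : ∀ a ∈ I, ReflTransGen (sp_in (W.cov h) I) ⟨ω, 0⟩ a := hI ▸
    sp_im_conn (W.cov h) D.gen fun g hg => ⟨D.p g, (D.pth g hg).2, hp g hg⟩
  have pre : ∀ {q : List (X1 × Bool)}, q.length ≤ D.ρ → ∀ q1 q2 c, q = q1 ++ q2 →
      Pth (W.cov h).R ⟨ω, 0⟩ q1 c → c ∈ F := fun hq q1 q2 c e p =>
    IF c (hI ▸ sp_pre (W.cov h) _ hq q1 q2 c e p)
  refine ⟨F, IF _ ωI, ⟨⟨?_, fun x => ?_⟩, zres _ F (zcov hM hS.fc bd hS.z h) ?_, hS.pr,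
    fun q v p hq => ?_, fun g hg => ?_⟩, fun inj x hx y hy e => ?_⟩
  · obtain ⟨K, hK, k⟩ := fin
    have : Finite {x : F // x.1 ∈ K} := (hK.preimage Subtype.val_injective.injOn).to_subtype
    refine Finite.of_surjective (fun x : {x : F // x.1 ∈ K} => ob E x.1) fun o => ?_
    obtain ⟨x, rfl⟩ := Quotient.exists_rep o
    obtain ⟨c, hc, g, e⟩ := k x.1 x.2
    have e' : (g⁻¹ • x).1 = c := by
      change g⁻¹ • x.1 = c
      rw [e, inv_smul_smul]
    exact ⟨⟨g⁻¹ • x, e' ▸ hc⟩, Quotient.sound ⟨g⁻¹, rfl⟩⟩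
  · have up : ∀ a b, ReflTransGen (sp_in (W.cov h) F) a b → ∀ ha hb,
        ReflTransGen ((W.cov h).res F).Adj ⟨a, ha⟩ ⟨b, hb⟩ := fun a b p ha => by
      induction p with
      | refl => exact fun _ => .refl
      | tail _ k ih => exact fun hb => (ih k.1).tail k.2.2
    obtain ⟨-, y, hy, p⟩ := nr N x.1 (dep _) x.2
    have c : ∀ a b, ReflTransGen (sp_in (W.cov h) I) a b → ReflTransGen (sp_in (W.cov h) F) a b :=
      fun a b p => by
        induction p with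
        | refl => exact .refl
        | tail _ k ih => exact ih.tail ⟨IF _ k.1, IF _ k.2.1, k.2.2⟩
    exact up _ _ ((c _ _ (conn y hy)).trans (sp_in_symm _ p)) _ x.2
  · intro x hx a₀ s s0 _ hs
    have nF : ∀ a, sp_esc (W.cov h) I a → ∀ y ∈ F, some a ≠ some y := fun a ha y hy e =>
      hy (Option.some.inj e ▸ ha)
    refine sp_esc_ind (fun x => s (some x) = 0) (fun y k e => ?_) (fun a b k ea eb p => ?_)
      (not_not.1 hx)
    · obtain ⟨c, k | k⟩ := k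
      · exact (hs _ _ _ k fun z hz => ⟨nF y e z hz, nofun⟩).trans s0
      · exact (hs _ _ _ k fun z hz => ⟨nofun, nF y e z hz⟩).symm.trans s0
    · obtain ⟨c, k | k⟩ := k
      · exact (hs (some a) c (some b) k fun z hz => ⟨nF a ea z hz, nF b eb z hz⟩).trans p
      · exact (hs (some b) c (some a) k fun z hz => ⟨nF b eb z hz, nF a ea z hz⟩).symm.trans p
  · obtain ⟨b, hb⟩ := hS.lifts q v p hq
    obtain ⟨Λ, hΛ⟩ := hb.lev
    have p' : Pth (W.cov h).R ⟨ω, 0⟩ q ⟨b, 0 + Λ χ⟩ := hΛ χ 0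
    exact ⟨⟨_, pre hq q [] _ (List.append_nil q).symm p'⟩, sp_res (W.cov h) F p' (pre hq) _ _⟩
  · exact sp_res (W.cov h) F (hp g hg) (pre (D.pth g hg).2) _
      (g • (⟨⟨ω, 0⟩, IF _ ωI⟩ : F)).2
  · by_contra hne
    rw [← hI] at inj
    have hr : y.r - x.r ≠ 0 := fun k => hne (Lv.ext e (sub_eq_zero.1 k).symm)
    have key : ∀ n, ∀ w ∈ sp_near (W.cov h) {x | (W.cov h).Bd x} n, w ∈ F →
        sp_sh (y.r - x.r) w ∈ F → False := fun n => by
      have n1 : ∀ w, sp_sh (y.r - x.r) w ∈ F → w ∉ I := fun w k hw =>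
        k (sp_shift h ωI conn fin inj hr hw)
      have n2 : ∀ w ∈ F, sp_sh (y.r - x.r) w ∉ I := fun w k hw =>
        k (sp_sh_neg (y.r - x.r) w ▸ sp_shift h ωI conn fin inj (neg_ne_zero.2 hr) hw)
      induction n with
      | zero => exact fun w hw k k' => k ⟨w, hw, n1 w k', .refl⟩
      | succ n ih =>
        rintro w (hw | ⟨b, hb, a⟩) k k'
        · exact ih w hw k k'
        · exact ih b hb (fun e => k (sp_esc_head (n1 w k') a e))
            fun e => k' (sp_esc_head (n2 w k) (sp_sh_adj h _ a) e)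
    refine key N x (dep x) hx ?_
    have : sp_sh (y.r - x.r) x = y := Lv.ext e (by simp [sp_sh])
    rwa [this]

end Pool.Agent.Work.MP_3d425c_gt.Bg
end

-- merged part: Pool.Agent.Work.MP_3d425c_gt.Bq.Ibase
section
/-! Injectivity of summation for the complex itself, from one wall. -/

namespace Pool.Agent.Work.MP_3d425c_gt.Bq
open Set Relation Pool.Agent.Work.MP_3d425c_gt.Md Pool.Agent.Work.MP_3d425c_gt.Cy
  Pool.Agent.Work.MP_3d425c_gt.Bg

variable {G X0 X1 X2 X3 : Type} [Group G] [MulAction G X0] [MulAction G X1] [MulAction G X2]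
  [MulAction G X3] {T : Tri G X0 X1 X2 X3} {E : Subgroup G} {P : Subgroup E}

theorem ib_ok (T : Tri G X0 X1 X2 X3) (E : Subgroup G) (e : X1) :
    (base T E).Rp (some (T.d1 e 1)) e (some (T.d1 e 0)) := ⟨rfl, rfl⟩

theorem ib_free (T : Tri G X0 X1 X2 X3) (g : E) (e : X1) (h : g • e = e) : g = 1 :=
  (base T E).free g (T.d1 e 0) ((T.e1 g e 0).symm.trans (congrArg (T.d1 · 0) h))

theorem ib_sm {A : Type} [MulAction G A] {S : Set A} :
    SmP P S ↔ ∃ K : Set A, K.Finite ∧ ∀ x ∈ S, ∃ k ∈ K, ∃ p ∈ P.map E.subtype, x = p • k :=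
  ⟨fun ⟨K, a, b⟩ => ⟨K, a, fun x hx => let ⟨k, hk, p, hp, c⟩ := b x hx; ⟨k, hk, p, ⟨p, hp, rfl⟩, c⟩⟩,
    fun ⟨K, a, b⟩ => ⟨K, a, fun x hx => let ⟨k, hk, _, ⟨p, hp, rfl⟩, c⟩ := b x hx
      ⟨k, hk, p, hp, c⟩⟩⟩

/-- a relative cocycle of the complex itself, read on edges -/
theorem ib_edge (hM : Mfd T) {z : Option X0 → X1 → Option X0 → ℝ} (hz : (base T E).Rq P z)
    {y : X1 → ℝ} (hy : ∀ e, y e = z (some (T.d1 e 1)) e (some (T.d1 e 0))) :
    (∀ f, y (T.d2 f 1) = y (T.d2 f 2) + y (T.d2 f 0)) ∧ (∀ p ∈ P, ∀ e, y (p • e) = y e) ∧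
      SmP P {e | y e ≠ 0} := by
  refine ⟨fun f => ?_, fun p hp e => ?_, ?_⟩
  · have := hz.coc f _ _ (some (T.d1 (T.d2 f 0) 0)) (ib_ok T E (T.d2 f 2)) ⟨(sb T f).symm, rfl⟩
      ⟨(sa T f).symm, (sc' T f).symm⟩
    rw [hy, hy, hy, sa, sc', sb]
    exact this
  · rw [hy, hy]
    have e1 : ∀ i, T.d1 (p • e) i = p • T.d1 e i := fun i => T.e1 p e i
    rw [e1, e1]
    exact hz.inv p hp _ _ _ (ib_ok T E e)
  · obtain ⟨S, ⟨K, hK, hS⟩, k⟩ := hz.sup
    refine ⟨_, hK.biUnion fun v _ => (hM.edges_finite v 1).union (hM.edges_finite v 0),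
      fun e he => ?_⟩
    obtain ⟨x, hx, k⟩ := k _ _ _ (ib_ok T E e) (hy e ▸ he)
    obtain ⟨v, hv, p, hp, ev⟩ := hS x hx
    have e1 : ∀ i, T.d1 (p⁻¹ • e) i = p⁻¹ • T.d1 e i := fun i => T.e1 _ e i
    refine ⟨p⁻¹ • e, mem_biUnion hv (k.imp (fun k => ?_) fun k => ?_), p, hp,
      (smul_inv_smul _ _).symm⟩ <;>
    · show T.d1 _ _ = v
      rw [e1, Option.some.inj k, ev, inv_smul_smul]

theorem ibase (hM : Mfd T) (P : Subgroup E) {a b : G} (hab : Commute a b)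
    (ind : ∀ m n : ℤ, a ^ m * b ^ n = 1 → m = 0 ∧ n = 0)
    (hP : ∀ p, p ∈ P.map E.subtype ↔ ∃ m n : ℤ, p = a ^ m * b ^ n) {w : X1 → ℝ}
    (wc : ∀ f, w (T.d2 f 1) = w (T.d2 f 2) + w (T.d2 f 0)) (wi : ∀ p ∈ P, ∀ e, w (p • e) = w e)
    (ws : SmP P {e | w e ≠ 0})
    (wn : ∀ (c : ℝ) (u : X0 → ℝ), (∀ (g : E) v, u (g • v) = u v) →
      SmP (⊤ : Subgroup E) {v | u v ≠ 0} →
      (∀ e, c * sm0 P w e = u (T.d1 e 0) - u (T.d1 e 1)) → c = 0) : (base T E).I4 P := by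
  rintro z hz ⟨u, -, us, ui, hu⟩
  obtain ⟨y, hy⟩ : ∃ y : X1 → ℝ, ∀ e, y e = z (some (T.d1 e 1)) e (some (T.d1 e 0)) :=
    ⟨_, fun _ => rfl⟩
  obtain ⟨y1, y2, y3⟩ := ib_edge hM hz hy
  obtain ⟨c, c', hcc, s, si, ss, es⟩ := d1 hM (P.map E.subtype) hab ind hP y1
    (by rintro _ ⟨p, hp, rfl⟩; exact y2 p hp) (ib_sm.1 y3) wc
    (by rintro _ ⟨p, hp, rfl⟩; exact wi p hp) (ib_sm.1 ws)
  have ss' : SmP P {v | s v ≠ 0} := ib_sm.2 ss
  have e1 : ∀ (g : E) e i, T.d1 (g • e) i = g • T.d1 e i := fun g e i => T.e1 g e i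
  have c0 : c' = 0 := by
    refine wn c' (fun v => sm0 P s v - c * u (some v)) (fun g v => ?_)
      ((ss'.sat.union us).mono fun v hv => ?_) fun e => ?_
    · rw [sm0_smul (P := P) (s := s) (a := v) (fun p hp g => si p ⟨p, hp, rfl⟩ (g • v)) g]
      exact congrArg (fun t => _ - c * t) (ui g (some v))
    · by_cases d : u (some v) = 0
      · exact Or.inl (sm0_ne (P := P) fun k => hv (by rw [k, d, mul_zero, sub_zero]))
      · exact Or.inr d
    · have h1 : sm0 P y e = u (some (T.d1 e 0)) - u (some (T.d1 e 1)) :=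
        (finsum_congr fun q => by rw [hy, e1, e1]; rfl).trans (hu _ _ _ (ib_ok T E e))
      have h2 : c * sm0 P y e + c' * sm0 P w e = sm0 P s (T.d1 e 0) - sm0 P s (T.d1 e 1) := by
        unfold sm0
        rw [mul_finsum, mul_finsum, ← finsum_add_distrib
          ((y3.fin (ib_free T) e).subset fun _ d => right_ne_zero_of_mul d)
          ((ws.fin (ib_free T) e).subset fun _ d => right_ne_zero_of_mul d),
          ← finsum_sub_distrib (ss'.fin (base T E).free _) (ss'.fin (base T E).free _)]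
        exact finsum_congr fun q => by rw [es, e1, e1]
      rw [h1] at h2
      linarith
  have cn : c ≠ 0 := hcc.resolve_right fun k => k c0
  refine ⟨fun o => o.elim 0 fun v => s v / c, rfl, ss'.mono fun v hv k => hv ?_, fun p e q h => ?_⟩
  · show s v / c = 0
    rw [k, zero_div]
  · cases p <;> cases q
    · exact (hz.zero e).trans (sub_self _).symm
    · exact absurd ⟨rfl, h.1⟩ (h.2 _)
    · exact absurd ⟨h.1, rfl⟩ (h.2 _)
    · obtain ⟨rfl, rfl⟩ := h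
      show _ = s _ / c - s _ / c
      rw [← hy, ← sub_div, ← es, c0, zero_mul, add_zero, mul_div_cancel_left₀ _ cn]

/-- the same for a non-cyclic subgroup of a free abelian group of rank two -/
theorem ibase' (hM : Mfd T) (P : Subgroup E) (Q : Subgroup G) (hQ : P.map E.subtype ≤ Q)
    (i : Q ≃* Multiplicative (ℤ × ℤ)) (hn : ¬ IsCyclic P) {w : X1 → ℝ}
    (wc : ∀ f, w (T.d2 f 1) = w (T.d2 f 2) + w (T.d2 f 0)) (wi : ∀ p ∈ P, ∀ e, w (p • e) = w e)
    (ws : SmP P {e | w e ≠ 0})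
    (wn : ∀ (c : ℝ) (u : X0 → ℝ), (∀ (g : E) v, u (g • v) = u v) →
      SmP (⊤ : Subgroup E) {v | u v ≠ 0} →
      (∀ e, c * sm0 P w e = u (T.d1 e 0) - u (T.d1 e 1)) → c = 0) : (base T E).I4 P :=
  let ⟨_, _, h1, h2, h3⟩ := d1_basis Q _ hQ i fun k =>
    hn ((P.equivMapOfInjective E.subtype E.subtype_injective).isCyclic.2 k)
  ibase hM P h1 h2 h3 wc wi ws wn

end Pool.Agent.Work.MP_3d425c_gt.Bq
end
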